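import Mathlib
import Pool.Agent.H592R4.Core2

/-!
Circuits and families of small sets of planted positions: a circuit with a coefficient at a set
that is not small has an initial part of a gate with a coefficient at a set that is not small, but
a union of two small sets.
-/

set_option linter.unusedSectionVars false

namespace H70.HP

open Finset DomAC0 H568R2 SmallDepth H592R3 H592R3.Hp

section Sm
variable {M : Type*} [DecidableEq M]

/-- All coefficients at sets that are not small vanish. -/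
def LowS (Sm : Finset M → Prop) (F : Finset M → ℤ) : Prop := ∀ H : Finset M, ¬ Sm H → mb F H = 0

/-- A union of two small sets. -/
def Un (Sm : Finset M → Prop) (H : Finset M) : Prop := ∃ A B, Sm A ∧ Sm B ∧ A ∪ B = H

/-- A set of medium size. -/
def MedS (Sm : Finset M → Prop) (H : Finset M) : Prop := ¬ Sm H ∧ Un Sm H

lemma LowS.mul {Sm : Finset M → Prop} {F G : Finset M → ℤ} (hF : LowS Sm F) (hG : LowS Sm G) :
    LowS (Un Sm) (fun W => F W * G W) := by
  intro H hH
  by_contra hne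
  obtain ⟨A, B, hAB, hA, hB⟩ := mb_mul H F G hne
  apply hH
  refine ⟨A, B, ?_, ?_, hAB⟩
  · by_contra hcon
    exact hA (hF A hcon)
  · by_contra hcon
    exact hB (hG B hcon)

lemma LowS.one_sub {Sm : Finset M → Prop} (h0 : Sm ∅) {F : Finset M → ℤ} (hF : LowS Sm F) :
    LowS Sm (fun W => 1 - F W) := by
  intro H hH
  rw [mb_sub, hF H hH, sub_zero]
  apply mb_const 1
  rw [Finset.nonempty_iff_ne_empty]
  rintro rfl
  exact hH h0

lemma un_empty {Sm : Finset M → Prop} (h0 : Sm ∅) : Un Sm ∅ := ⟨∅, ∅, h0, h0, by simp⟩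

end Sm

section Med
variable {I : Type*} [Fintype I] [DecidableEq I] {M : Type*} [Fintype M] [DecidableEq M]
variable {J : Type}

/-- One more wire of a gate. -/
lemma lowS_take {Sm : Finset M → Prop} (h0 : Sm ∅)
    (C : Circuit J) (σ : (I → Bool) → (J → Bool)) (vr : M → I) (X : I → Bool)
    (g : Fin C.size) (Q : List (J ⊕ Fin C.size)) (v : J ⊕ Fin C.size)
    (h1 : LowS Sm (pf (fun x => gfun C g (σ x) Q) vr X))
    (h2 : LowS Sm (pf (fun x => C.nodeVal (σ x) v) vr X)) :
    LowS (Un Sm) (pf (fun x => gfun C g (σ x) (Q ++ [v])) vr X) := by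
  classical
  cases hg : C.kind g with
  | and =>
    have : pf (fun x => gfun C g (σ x) (Q ++ [v])) vr X =
        fun W => pf (fun x => gfun C g (σ x) Q) vr X W * pf (fun x => C.nodeVal (σ x) v) vr X W := by
      funext W
      unfold pf gfun
      simp only [hg, decide_eq_true_eq, List.mem_append, List.mem_singleton]
      by_cases c1 : ∀ u ∈ Q, C.nodeVal (σ (plant vr W X)) u = true
      · by_cases c2 : C.nodeVal (σ (plant vr W X)) v = true
        · rw [if_pos c1, if_pos c2, if_pos, mul_one]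
          rintro u (hu | rfl)
          · exact c1 u hu
          · exact c2
        · rw [if_neg c2, if_neg, mul_zero]
          intro h
          exact c2 (h v (Or.inr rfl))
      · rw [if_neg c1, if_neg, zero_mul]
        intro h
        exact c1 (fun u hu => h u (Or.inl hu))
    rw [this]
    exact h1.mul h2
  | or =>
    have : pf (fun x => gfun C g (σ x) (Q ++ [v])) vr X =
        fun W => 1 - (1 - pf (fun x => gfun C g (σ x) Q) vr X W) *
          (1 - pf (fun x => C.nodeVal (σ x) v) vr X W) := by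
      funext W
      unfold pf gfun
      simp only [hg, decide_eq_true_eq, List.mem_append, List.mem_singleton]
      by_cases c1 : ∃ u ∈ Q, C.nodeVal (σ (plant vr W X)) u = true
      · obtain ⟨u, hu, hx⟩ := c1
        rw [if_pos ⟨u, Or.inl hu, hx⟩, if_pos ⟨u, hu, hx⟩]
        ring
      · by_cases c2 : C.nodeVal (σ (plant vr W X)) v = true
        · rw [if_pos ⟨v, Or.inr rfl, c2⟩, if_pos c2]
          ring
        · rw [if_neg c1, if_neg c2, if_neg]
          · ring
          · rintro ⟨u, hu | rfl, hx⟩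
            · exact c1 ⟨u, hu, hx⟩
            · exact c2 hx
    rw [this]
    exact ((h1.one_sub h0).mul (h2.one_sub h0)).one_sub (un_empty h0)
  | not =>
    have : pf (fun x => gfun C g (σ x) (Q ++ [v])) vr X =
        fun W => pf (fun x => gfun C g (σ x) Q) vr X W *
          (1 - pf (fun x => C.nodeVal (σ x) v) vr X W) := by
      funext W
      unfold pf gfun
      simp only [hg, decide_eq_true_eq, List.mem_append, List.mem_singleton]
      by_cases c1 : ∀ u ∈ Q, C.nodeVal (σ (plant vr W X)) u = false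
      · by_cases c2 : C.nodeVal (σ (plant vr W X)) v = true
        · rw [if_pos c1, if_pos c2, if_neg]
          · ring
          · intro h
            have := h v (Or.inr rfl)
            rw [c2] at this
            cases this
        · rw [if_pos c1, if_neg c2, if_pos]
          · ring
          · rintro u (hu | rfl)
            · exact c1 u hu
            · exact Bool.eq_false_iff.2 c2
      · rw [if_neg c1, if_neg, zero_mul]
        intro h
        exact c1 (fun u hu => h u (Or.inl hu))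
    rw [this]
    exact h1.mul (h2.one_sub h0)

lemma lowS_nil {Sm : Finset M → Prop} (h0 : Sm ∅)
    (C : Circuit J) (σ : (I → Bool) → (J → Bool)) (vr : M → I) (X : I → Bool)
    (g : Fin C.size) : LowS Sm (pf (fun x => gfun C g (σ x) []) vr X) := by
  intro H hH
  by_contra hne
  have h1 := Finset.card_le_card (pf_sens hne)
  rw [sens_nil, Finset.card_empty] at h1
  have h2 : H = ∅ := Finset.card_eq_zero.1 (by omega)
  exact hH (h2 ▸ h0)

/-- A circuit with a large coefficient has a gate with an initial part of medium size. -/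
theorem mediumS {Sm : Finset M → Prop} (h0 : Sm ∅)
    (C : Circuit J) (σ : (I → Bool) → (J → Bool)) (vr : M → I) (X : I → Bool)
    (hin : ∀ j : J, LowS Sm (pf (fun x => σ x j) vr X)) {d : ℕ} (hd : C.depth ≤ d)
    (hS : ¬ LowS Sm (pf (fun x => C.eval (σ x)) vr X)) :
    ∃ g : Fin C.size, C.gateDepth g ≤ d ∧ ∃ i < (pl C g).length, ∃ H : Finset M,
      MedS Sm H ∧
      mb (pf (fun x => gfun C g (σ x) ((pl C g).take (i + 1))) vr X) H ≠ 0 := by
  classical
  -- gates that are large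
  set B : Finset (Fin C.size) := univ.filter (fun g => C.gateDepth g ≤ d ∧
    ¬ LowS Sm (pf (fun x => C.nodeVal (σ x) (Sum.inr g)) vr X)) with hB
  have hin' : ∀ j : J, LowS Sm (pf (fun x => C.nodeVal (σ x) (Sum.inl j)) vr X) := hin
  have hBne : B.Nonempty := by
    have hS' : ¬ LowS Sm (pf (fun x => C.nodeVal (σ x) C.output) vr X) := hS
    have hd' : C.nodeDepth C.output ≤ d := hd
    revert hS' hd'
    generalize C.output = o
    cases o with
    | inl j => intro h1; exact absurd (hin' j) h1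
    | inr g =>
      intro h1 h2
      exact ⟨g, by rw [hB, Finset.mem_filter]; exact ⟨Finset.mem_univ _, h2, h1⟩⟩
  set g := B.min' hBne with hg
  have hgB : g ∈ B := Finset.min'_mem B hBne
  rw [hB, Finset.mem_filter] at hgB
  have hchild : ∀ v ∈ pl C g, LowS Sm (pf (fun x => C.nodeVal (σ x) v) vr X) := by
    intro v hv
    have hvp : v ∈ C.preds g := by rwa [pl, Finset.mem_toList] at hv
    have hdep := depth_lt C g v hvp
    cases v with
    | inl j => exact hin' j
    | inr h =>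
      by_contra hcon
      have hhB : h ∈ B := by
        rw [hB, Finset.mem_filter]
        refine ⟨Finset.mem_univ _, ?_, hcon⟩
        have h3 : C.gateDepth h < C.gateDepth g := hdep
        omega
      have h1 := Finset.min'_le B h hhB
      have h2 := C.acyclic g h hvp
      exact absurd h2 (not_lt.2 h1)
  refine ⟨g, hgB.2.1, ?_⟩
  -- find the first initial part that is large
  have hfull : ¬ LowS Sm (pf (fun x => gfun C g (σ x)
      ((pl C g).take (pl C g).length)) vr X) := by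
    rw [List.take_length]
    have : (fun x => C.nodeVal (σ x) (Sum.inr g)) = fun x => gfun C g (σ x) (pl C g) := by
      funext x
      exact gateVal_eq C (σ x) g
    rw [← this]
    exact hgB.2.2
  have hex : ∃ i, ¬ LowS Sm (pf (fun x => gfun C g (σ x)
      ((pl C g).take i)) vr X) := ⟨_, hfull⟩
  have hpos : 0 < Nat.find hex := by
    rw [Nat.pos_iff_ne_zero]
    intro h0'
    have h1 := Nat.find_spec hex
    rw [h0', List.take_zero] at h1
    exact h1 (lowS_nil h0 C σ vr X g)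
  obtain ⟨i, hi⟩ := Nat.exists_eq_succ_of_ne_zero (Nat.pos_iff_ne_zero.1 hpos)
  have hlt : i < Nat.find hex := by omega
  have hprev := Nat.find_min hex hlt
  rw [not_not] at hprev
  have hle : Nat.find hex ≤ (pl C g).length := Nat.find_min' hex hfull
  have hil : i < (pl C g).length := by omega
  have hspec := Nat.find_spec hex
  rw [hi, Nat.succ_eq_add_one] at hspec
  refine ⟨i, hil, ?_⟩
  unfold LowS at hspec
  push Not at hspec
  obtain ⟨H, hH1, hH2⟩ := hspec
  have hup : LowS (Un Sm) (pf (fun x => gfun C g (σ x)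
      ((pl C g).take (i + 1))) vr X) := by
    rw [List.take_succ_eq_append_getElem hil]
    exact lowS_take h0 C σ vr X g _ _ hprev (hchild _ (List.getElem_mem hil))
  refine ⟨H, ⟨hH1, ?_⟩, hH2⟩
  by_contra hcon
  exact hH2 (hup H hcon)

end Med

section Mo
variable {I M T J : Type} [Fintype I] [DecidableEq I] [Fintype M] [DecidableEq M] [Fintype T]

/-- The event of a type for a planted instance. -/
def EvXS (Sm : Finset M → Prop) (C : Circuit J) (σ : (I → Bool) → (J → Bool)) (vr : T → M → I)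
    (d : ℕ) (a : T) (X : I → Bool) : Ty C M → Prop
  | Sum.inl (g, H) => (C.gateDepth g ≤ d ∧ MedS Sm H) ∧
      ∃ i ≤ (pl C g).length,
        mb (pf (fun x => gfun C g (σ x) ((pl C g).take i)) (vr a) X) H ≠ 0
  | Sum.inr H => (H.Nonempty ∧ Sm H) ∧
      mb (pf (fun x => C.eval (σ x)) (vr a) X) H ≠ 0

/-- The event of a type for a restriction. -/
def EvRS (Sm : Finset M → Prop) (C : Circuit J) (σ : (I → Bool) → (J → Bool)) (vr : T → M → I)
    (d : ℕ) (a : T) (Y : I → Bool) (ρ : Restr I) (D : I → Bool) : Ty C M → Prop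
  | Sum.inl (g, H) => (C.gateDepth g ≤ d ∧ MedS Sm H) ∧
      ∃ i ≤ (pl C g).length,
        cf (rs (fun x => gfun C g (σ (mask Y x)) ((pl C g).take i)) ρ) D (H.image (vr a)) ≠ 0
  | Sum.inr H => (H.Nonempty ∧ Sm H) ∧
      cf (rs (fun x => C.eval (σ (mask Y x))) ρ) D (H.image (vr a)) ≠ 0

lemma evXS_evRS {Sm : Finset M → Prop} (C : Circuit J) (σ : (I → Bool) → (J → Bool))
    (vr : T → M → I) (hvr : ∀ a, Function.Injective (vr a)) (d : ℕ) (a : T) (θ : Ty C M)
    (ω : I → Bool × (Option Bool × Bool))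
    (hω : ∀ i ∈ θ.hset.image (vr a), (ω i).1 = true ∧ (ω i).2.1 = none)
    (h : EvXS Sm C σ vr d a (fun i => h3 (ω i)) θ) :
    EvRS Sm C σ vr d a (fun i => (ω i).1) (fun i => (ω i).2.1) (fun i => (ω i).2.2) θ := by
  rcases θ with ⟨g, H⟩ | H
  · obtain ⟨h0, i, hi, h1⟩ := h
    refine ⟨h0, i, hi, ?_⟩
    have hz := pf_zero h1
    have e1 := pf_cf (fun x => gfun C g (σ x) ((pl C g).take i)) (vr a) (hvr a) H
      (fun i => (ω i).1) (fun i => (ω i).2.1) (fun i => (ω i).2.2) hω hz
    show cf (rs (fun x => gfun C g (σ (mask (fun i => (ω i).1) x))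
      ((pl C g).take i)) (fun i => (ω i).2.1)) (fun i => (ω i).2.2)
      (H.image (vr a)) ≠ 0
    rw [← e1]
    exact h1
  · obtain ⟨h0, h1⟩ := h
    refine ⟨h0, ?_⟩
    have hz := pf_zero h1
    have e1 := pf_cf (fun x => C.eval (σ x)) (vr a) (hvr a) H
      (fun i => (ω i).1) (fun i => (ω i).2.1) (fun i => (ω i).2.2) hω hz
    show cf (rs (fun x => C.eval (σ (mask (fun i => (ω i).1) x))) (fun i => (ω i).2.1))
      (fun i => (ω i).2.2) (H.image (vr a)) ≠ 0
    rw [← e1]
    exact h1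

lemma sens_evXS {Sm : Finset M → Prop} (h0 : Sm ∅) (C : Circuit J)
    (σ : (I → Bool) → (J → Bool)) (vr : T → M → I)
    {d : ℕ} (hdepth : C.depth ≤ d) (a : T) (X : I → Bool)
    (hin : ∀ j : J, LowS Sm (pf (fun x => σ x j) (vr a) X))
    (h : C.eval (σ X) ≠ C.eval (σ (plant (vr a) univ X))) :
    ∃ θ : Ty C M, EvXS Sm C σ vr d a X θ := by
  by_cases hLs : LowS Sm (pf (fun x => C.eval (σ x)) (vr a) X)
  · have h4 : plant (vr a) (∅ : Finset M) X = X := by
      funext i
      unfold plant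
      simp
    obtain ⟨A, _, hne, hm⟩ := mb_nonconst univ (pf (fun x => C.eval (σ x)) (vr a) X) (by
      unfold pf
      rw [h4]
      intro hcon
      apply h
      by_cases c1 : C.eval (σ X) = true
      · rw [if_pos c1] at hcon
        by_cases c2 : C.eval (σ (plant (vr a) univ X)) = true
        · rw [c1, c2]
        · rw [if_neg c2] at hcon
          norm_num at hcon
      · rw [if_neg c1] at hcon
        by_cases c2 : C.eval (σ (plant (vr a) univ X)) = true
        · rw [if_pos c2] at hcon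
          norm_num at hcon
        · rw [Bool.not_eq_true] at c1 c2
          rw [c1, c2])
    refine ⟨Sum.inr A, ⟨hne, ?_⟩, hm⟩
    by_contra hcon
    exact hm (hLs A hcon)
  · obtain ⟨g, hg, i, hi, H, h1, h3⟩ := mediumS h0 C σ (vr a) X hin hdepth hLs
    exact ⟨Sum.inl (g, H), ⟨hg, h1⟩, i + 1, by omega, h3⟩

open Classical in
/-- The bound for good restrictions. -/
lemma good_boundS [Fintype J] (Sm : Finset M → Prop) (vr : T → M → I)
    (hvr : ∀ a, Function.Injective (vr a))
    (κ : Finset M → ℕ)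
    (hκ : ∀ (H : Finset M) (V : Finset I),
      (univ.filter (fun a : T => H.image (vr a) = V)).card ≤ κ H)
    (C : Circuit J) (σ : (I → Bool) → (J → Bool)) {h : ℕ} {d : ℕ}
    (hdepth : C.depth ≤ d) {S : ℕ} (hS : C.size ≤ S) {l : ℕ}
    (hlen : Fintype.card J + S + 2 ≤ 2 ^ l) {c : ℝ} (hc : 1 ≤ c) {Bg Bs : ℝ}
    (hBg : ∑ H ∈ univ.filter (fun H : Finset M => MedS Sm H),
      c ^ H.card * (((2 * (h * l)) ^ H.card * κ H : ℕ) : ℝ) ≤ Bg)
    (hBs : ∑ H ∈ univ.filter (fun H : Finset M => H.Nonempty ∧ Sm H),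
      c ^ H.card * (((2 * h) ^ H.card * κ H : ℕ) : ℝ) ≤ Bs)
    (Y : I → Bool) (ρ : Restr I) (D : I → Bool)
    (hB : Bas (fun x => σ (mask Y x)) h ρ) (hG : H592R3.Good C (fun x => σ (mask Y x)) h d ρ) :
    ∑ k : T × Ty C M, c ^ k.2.hset.card *
      (if EvRS Sm C σ vr d k.1 Y ρ D k.2 then (1 : ℝ) else 0) ≤ S * Bg + Bs := by
  have hc0 : 0 ≤ c := by linarith
  have hBg0 : 0 ≤ Bg := le_trans (Finset.sum_nonneg fun H _ => by positivity) hBg
  rw [Fintype.sum_prod_type_right, Fintype.sum_sum_type]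
  apply add_le_add
  · rw [Fintype.sum_prod_type]
    have h1 : ∀ g : Fin C.size, ∑ H : Finset M,
        ∑ a : T, c ^ (Ty.hset (C := C) (Sum.inl (g, H))).card *
        (if EvRS Sm C σ vr d a Y ρ D (Sum.inl (g, H)) then (1 : ℝ) else 0) ≤ Bg := by
      intro g
      refine le_trans ?_ hBg
      rw [Finset.sum_filter]
      refine Finset.sum_le_sum fun H _ => ?_
      by_cases hc1 : MedS Sm H
      · rw [if_pos hc1]
        by_cases hgd : C.gateDepth g ≤ d
        · have h3 := gate_count vr hvr κ hκ C σ g hgd H (l := l) (by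
              have := pl_length C g
              omega) Y ρ D hG
          have h4 : ∑ a : T, c ^ (Ty.hset (C := C) (Sum.inl (g, H))).card *
              (if EvRS Sm C σ vr d a Y ρ D (Sum.inl (g, H)) then (1 : ℝ) else 0) =
              c ^ H.card * ∑ a : T, (if ∃ i ≤ (pl C g).length,
                cf (rs (fun x => gfun C g (σ (mask Y x)) ((pl C g).take i)) ρ) D
                (H.image (vr a)) ≠ 0 then (1 : ℝ) else 0) := by
            rw [Finset.mul_sum]
            refine Finset.sum_congr rfl fun a _ => ?_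
            have e1 : (Ty.hset (C := C) (Sum.inl (g, H))) = H := rfl
            rw [e1]
            congr 1
            have e2 : EvRS Sm C σ vr d a Y ρ D (Sum.inl (g, H)) ↔ ∃ i ≤ (pl C g).length,
                cf (rs (fun x => gfun C g (σ (mask Y x)) ((pl C g).take i)) ρ) D
                (H.image (vr a)) ≠ 0 := by
              constructor
              · exact fun h => h.2
              · exact fun h => ⟨⟨hgd, hc1⟩, h⟩
            simp only [e2]
          rw [h4]
          exact mul_le_mul_of_nonneg_left h3 (by positivity)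
        · have h4 : ∑ a : T, c ^ (Ty.hset (C := C) (Sum.inl (g, H))).card *
              (if EvRS Sm C σ vr d a Y ρ D (Sum.inl (g, H)) then (1 : ℝ) else 0) = 0 := by
            refine Finset.sum_eq_zero fun a _ => ?_
            rw [if_neg, mul_zero]
            exact fun h => hgd h.1.1
          rw [h4]
          positivity
      · rw [if_neg hc1]
        apply le_of_eq
        refine Finset.sum_eq_zero fun a _ => ?_
        rw [if_neg, mul_zero]
        exact fun h => hc1 h.1.2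
    refine (Finset.sum_le_card_nsmul _ _ _ (fun g _ => h1 g)).trans ?_
    rw [nsmul_eq_mul, Finset.card_univ, Fintype.card_fin]
    apply mul_le_mul_of_nonneg_right _ hBg0
    exact_mod_cast hS
  · refine le_trans ?_ hBs
    rw [Finset.sum_filter]
    refine Finset.sum_le_sum fun H _ => ?_
    by_cases hH : H.Nonempty ∧ Sm H
    · rw [if_pos hH]
      show (∑ a : T, c ^ H.card *
        (if EvRS Sm C σ vr d a Y ρ D (Sum.inr H) then (1 : ℝ) else 0)) ≤ _
      rw [← Finset.mul_sum]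
      apply mul_le_mul_of_nonneg_left _ (by positivity)
      have e2 : ∀ a : T, EvRS Sm C σ vr d a Y ρ D (Sum.inr H) ↔
          cf (rs (fun x => C.eval (σ (mask Y x))) ρ) D (H.image (vr a)) ≠ 0 := by
        intro a
        constructor
        · exact fun h => h.2
        · exact fun h => ⟨hH, h⟩
      simp only [e2]
      rw [Finset.sum_boole]
      obtain ⟨Fam, hF1, hF2⟩ := fam_exists D h _
        (out_DT2 C (fun x => σ (mask Y x)) hB hG hdepth) H.card
      have h3 := count_fam vr κ hκ H Fam hF1 (fun a : T =>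
        cf (rs (fun x => C.eval (σ (mask Y x))) ρ) D (H.image (vr a)) ≠ 0) (by
        intro a hne
        exact hF2 _ (Finset.card_image_of_injective _ (hvr a)) hne)
      exact_mod_cast h3
    · rw [if_neg hH]
      apply le_of_eq
      refine Finset.sum_eq_zero fun a _ => ?_
      rw [if_neg, mul_zero]
      exact fun h => hH h.1

open Classical in
/-- The bound for all restrictions. -/
lemma all_boundS (Sm : Finset M → Prop) (vr : T → M → I)
    (C : Circuit J) (σ : (I → Bool) → (J → Bool)) {d : ℕ}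
    {S : ℕ} (hS : C.size ≤ S) {c : ℝ} (hc : 1 ≤ c)
    (Y : I → Bool) (ρ : Restr I) (D : I → Bool) :
    ∑ k : T × Ty C M, c ^ k.2.hset.card *
      (if EvRS Sm C σ vr d k.1 Y ρ D k.2 then (1 : ℝ) else 0) ≤
      (Fintype.card T : ℝ) * (((S : ℝ) + 1) * 2 ^ (Fintype.card M) * c ^ (Fintype.card M)) := by
  have hc0 : 0 ≤ c := by linarith
  have h1 : ∀ k : T × Ty C M, c ^ k.2.hset.card *
      (if EvRS Sm C σ vr d k.1 Y ρ D k.2 then (1 : ℝ) else 0) ≤ c ^ (Fintype.card M) := by
    intro k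
    have h2 : c ^ k.2.hset.card ≤ c ^ (Fintype.card M) :=
      pow_le_pow_right₀ hc (Finset.card_le_univ _)
    by_cases hk : EvRS Sm C σ vr d k.1 Y ρ D k.2
    · rw [if_pos hk, mul_one]
      exact h2
    · rw [if_neg hk, mul_zero]; positivity
  refine (Finset.sum_le_card_nsmul _ _ _ (fun k _ => h1 k)).trans ?_
  rw [nsmul_eq_mul, Finset.card_univ, Fintype.card_prod, Fintype.card_sum, Fintype.card_prod,
    Fintype.card_fin, Fintype.card_finset]
  push_cast
  have h2 : (C.size : ℝ) ≤ S := by exact_mod_cast hS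
  have h3 : (C.size : ℝ) * 2 ^ (Fintype.card M) + 2 ^ (Fintype.card M) ≤
      ((S : ℝ) + 1) * 2 ^ (Fintype.card M) := by
    have h5 : (0 : ℝ) ≤ 2 ^ (Fintype.card M) := by positivity
    nlinarith
  calc (Fintype.card T : ℝ) * ((C.size : ℝ) * 2 ^ (Fintype.card M) + 2 ^ (Fintype.card M)) *
        c ^ (Fintype.card M) ≤ (Fintype.card T : ℝ) * (((S : ℝ) + 1) * 2 ^ (Fintype.card M)) *
        c ^ (Fintype.card M) := by gcongr
    _ = _ := by ring

open Classical in
/-- The weighted number of planted instances to which a circuit is sensitive. -/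
theorem circ_weightedS [Fintype J] {Sm : Finset M → Prop} (h0 : Sm ∅)
    (vr : T → M → I) (hvr : ∀ a, Function.Injective (vr a))
    (κ : Finset M → ℕ)
    (hκ : ∀ (H : Finset M) (V : Finset I),
      (univ.filter (fun a : T => H.image (vr a) = V)).card ≤ κ H)
    (C : Circuit J) (σ : (I → Bool) → (J → Bool))
    (hin : ∀ (a : T) (X : I → Bool) (j : J), LowS Sm (pf (fun x => σ x j) (vr a) X))
    {h : ℕ} {d τ : ℕ} (hτ : 3 ≤ τ)
    (hdepth : C.depth ≤ d) {S : ℕ} (hS : C.size ≤ S) {l : ℕ}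
    (hlen : Fintype.card J + S + 2 ≤ 2 ^ l)
    {y q0 q c ε ε0 : ℝ} (hy0 : 0 < y) (hy1 : y ≤ 1) (hq00 : 0 < q0) (hq01 : q0 ≤ 1)
    (hq : q = q0 * (1 / (τ : ℝ)) ^ d)
    (hbas : Ex (vp y) (fun Y : I → Bool => Ex (wq q0) (fun ρ : Restr I =>
      if ¬ Bas (fun x => σ (mask Y x)) h ρ then (1 : ℝ) else 0)) ≤ ε0)
    (hcyq : 2 ≤ c * (y * q)) (hc : 1 ≤ c)
    (hε : ε0 + d * ((S * (Fintype.card J + S + 1) : ℕ) : ℝ) *
      (12 * h * (1 / (τ : ℝ))) ^ (h + 1) ≤ ε) {Bg Bs : ℝ}
    (hBg : ∑ H ∈ univ.filter (fun H : Finset M => MedS Sm H),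
      c ^ H.card * (((2 * (h * l)) ^ H.card * κ H : ℕ) : ℝ) ≤ Bg)
    (hBs : ∑ H ∈ univ.filter (fun H : Finset M => H.Nonempty ∧ Sm H),
      c ^ H.card * (((2 * h) ^ H.card * κ H : ℕ) : ℝ) ≤ Bs)
    (ψ : (I → Bool) → ℝ) (hψ0 : ∀ X, 0 ≤ ψ X) {B0 : ℝ} (hψ1 : ∀ X, ψ X ≤ B0) :
    Ex (vp (y / 2)) (fun X => ψ X * cntS vr σ C X) ≤
    (S * Bg + Bs) * Ex (vp (y / 2)) ψ +
      B0 * ((Fintype.card T : ℝ) * (((S : ℝ) + 1) * 2 ^ (Fintype.card M) *
        c ^ (Fintype.card M))) * ε := by
  have hτ1 : (1 : ℝ) ≤ τ := by exact_mod_cast (by omega : 1 ≤ τ)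
  have hτ0 : (0 : ℝ) < τ := by linarith
  have hq0 : 0 < q := by rw [hq]; positivity
  have hq1 : q ≤ 1 := by
    rw [hq]
    apply mul_le_one₀ hq01 (by positivity)
    apply pow_le_one₀ (by positivity)
    rw [div_le_one hτ0]; exact hτ1
  have h13 : (1 : ℝ) / τ ≤ 1 / 3 := by
    apply one_div_le_one_div_of_le (by norm_num)
    exact_mod_cast hτ
  have hB00 : 0 ≤ B0 := (hψ0 (fun _ => false)).trans (hψ1 _)
  obtain ⟨Bd, hBd⟩ : ∃ Bd : ℝ, Bd = S * Bg + Bs := ⟨_, rfl⟩
  obtain ⟨Big, hBig⟩ : ∃ Big : ℝ, Big = (Fintype.card T : ℝ) *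
    (((S : ℝ) + 1) * 2 ^ (Fintype.card M) * c ^ (Fintype.card M)) := ⟨_, rfl⟩
  rw [← hBd, ← hBig]
  have hc0 : 0 ≤ c := by linarith
  have hBig0 : 0 ≤ Big := by rw [hBig]; positivity
  have hBs0 : 0 ≤ Bs := le_trans (Finset.sum_nonneg fun H _ => by positivity) hBs
  have hBg0 : 0 ≤ Bg := le_trans (Finset.sum_nonneg fun H _ => by positivity) hBg
  have hBd0 : 0 ≤ Bd := by rw [hBd]; positivity
  -- step 1: pointwise
  have hp0 : 0 ≤ y / 2 := by linarith
  have hp1 : y / 2 ≤ 1 := by linarith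
  have hstep1 : Ex (vp (y / 2)) (fun X => ψ X * cntS vr σ C X) ≤
      Ex (vp (y / 2)) (fun X => ψ X * ∑ k : T × Ty C M,
        (if EvXS Sm C σ vr d k.1 X k.2 then (1 : ℝ) else 0)) := by
    apply Ex_mono (vp_nonneg hp0 hp1)
    intro X
    apply mul_le_mul_of_nonneg_left _ (hψ0 X)
    unfold cntS
    rw [Fintype.sum_prod_type]
    refine Finset.sum_le_sum fun a _ => ?_
    have hnn : ∀ θ ∈ (univ : Finset (Ty C M)), (0 : ℝ) ≤
        (if EvXS Sm C σ vr d a X θ then (1 : ℝ) else 0) := by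
      intro θ _
      split_ifs <;> norm_num
    by_cases hs : C.eval (σ X) ≠ C.eval (σ (plant (vr a) univ X))
    · rw [if_pos hs]
      obtain ⟨θ, hθ⟩ := sens_evXS h0 C σ vr hdepth a X (hin a X) hs
      refine le_trans ?_ (Finset.single_le_sum hnn (Finset.mem_univ θ))
      rw [if_pos hθ]
    · rw [if_neg hs]
      exact Finset.sum_nonneg hnn
  refine hstep1.trans ?_
  -- step 2: comparison
  have hstep2 := weighted_compare (I := I) (K := T × Ty C M)
    (fun k X => if EvXS Sm C σ vr d k.1 X k.2 then (1 : ℝ) else 0)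
    (fun k ω => if EvRS Sm C σ vr d k.1 (fun i => (ω i).1) (fun i => (ω i).2.1)
      (fun i => (ω i).2.2) k.2 then (1 : ℝ) else 0)
    (fun k => k.2.hset.image (vr k.1)) (by intro k X; split_ifs <;> norm_num)
    (by intro k X; split_ifs <;> norm_num) (by
      intro k ω hω
      by_cases h1 : EvXS Sm C σ vr d k.1 (fun i => h3 (ω i)) k.2
      · rw [if_pos h1, if_pos (evXS_evRS C σ vr hvr d k.1 k.2 ω hω h1)]
      · rw [if_neg h1]
        split_ifs <;> norm_num) hy0 hy1 hq0 hq1 hcyq hc ψ hψ0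
  refine hstep2.trans ?_
  -- step 3: bound for each point
  have hpt : ∀ ω : I → Bool × (Option Bool × Bool),
      ψ (fun i => h3 (ω i)) * ∑ k : T × Ty C M,
        c ^ (k.2.hset.image (vr k.1)).card *
        (if EvRS Sm C σ vr d k.1 (fun i => (ω i).1) (fun i => (ω i).2.1)
        (fun i => (ω i).2.2) k.2 then (1 : ℝ) else 0) ≤
      Bd * ψ (fun i => h3 (ω i)) + (B0 * Big) *
        (if ¬ (Bas (fun x => σ (mask (fun i => (ω i).1) x)) h (fun i => (ω i).2.1) ∧
          H592R3.Good C (fun x => σ (mask (fun i => (ω i).1) x)) h d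
        (fun i => (ω i).2.1)) then (1 : ℝ) else 0) := by
    intro ω
    have hcard : ∀ k : T × Ty C M,
        (k.2.hset.image (vr k.1)).card = k.2.hset.card := fun k =>
      Finset.card_image_of_injective _ (hvr k.1)
    simp only [hcard]
    have hψω := hψ0 (fun i => h3 (ω i))
    by_cases hG : Bas (fun x => σ (mask (fun i => (ω i).1) x)) h (fun i => (ω i).2.1) ∧
      H592R3.Good C (fun x => σ (mask (fun i => (ω i).1) x)) h d (fun i => (ω i).2.1)
    · rw [if_neg (not_not.2 hG), mul_zero, add_zero, mul_comm Bd]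
      apply mul_le_mul_of_nonneg_left _ hψω
      rw [hBd]
      exact good_boundS Sm vr hvr κ hκ C σ hdepth hS hlen hc hBg hBs _ _ _ hG.1 hG.2
    · rw [if_pos hG, mul_one]
      have h1 := all_boundS (d := d) Sm vr C σ hS hc
        (fun i => (ω i).1) (fun i => (ω i).2.1) (fun i => (ω i).2.2)
      rw [← hBig] at h1
      have h2 : 0 ≤ Bd * ψ (fun i => h3 (ω i)) := mul_nonneg hBd0 hψω
      have h4 : ψ (fun i => h3 (ω i)) * ∑ k : T × Ty C M,
          c ^ k.2.hset.card *
          (if EvRS Sm C σ vr d k.1 (fun i => (ω i).1) (fun i => (ω i).2.1)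
          (fun i => (ω i).2.2) k.2 then (1 : ℝ) else 0) ≤ B0 * Big :=
        (mul_le_mul_of_nonneg_left h1 hψω).trans (mul_le_mul_of_nonneg_right (hψ1 _) hBig0)
      linarith
  refine (Ex_mono (w3_nonneg hy0.le hy1 hq0.le hq1) hpt).trans ?_
  rw [Ex_add, Ex_smul (w3 y q) (B0 * Big), Ex_smul (w3 y q) Bd]
  have hpush : Ex (w3 y q) (fun ω : I → Bool × (Option Bool × Bool) =>
      ψ (fun i => h3 (ω i))) = Ex (vp (y / 2)) ψ :=
    Ex_push (I := I) h3 (w3 y q) (vp (y / 2)) (fun b => h3_push b) ψ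
  rw [hpush]
  have hfail : Ex (w3 y q) (fun ω : I → Bool × (Option Bool × Bool) =>
      (if ¬ (Bas (fun x => σ (mask (fun i => (ω i).1) x)) h (fun i => (ω i).2.1) ∧
          H592R3.Good C (fun x => σ (mask (fun i => (ω i).1) x)) h d
        (fun i => (ω i).2.1)) then (1 : ℝ) else 0)) ≤ ε := by
    obtain ⟨R, hR⟩ : ∃ R : ℝ, R = d * ((S * (Fintype.card J + S + 1) : ℕ) : ℝ) *
      (12 * h * (1 / (τ : ℝ))) ^ (h + 1) := ⟨_, rfl⟩
    have e1 : Ex (w3 y q) (fun ω : I → Bool × (Option Bool × Bool) =>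
      (if ¬ (Bas (fun x => σ (mask (fun i => (ω i).1) x)) h (fun i => (ω i).2.1) ∧
          H592R3.Good C (fun x => σ (mask (fun i => (ω i).1) x)) h d
        (fun i => (ω i).2.1)) then (1 : ℝ) else 0)) =
        Ex (vp y) (fun Y => Ex (fun e : Option Bool × Bool => wq q e.1 * vp (1 / 2) e.2)
          (fun ω => (if ¬ (Bas (fun x => σ (mask Y x)) h (fun i => (ω i).1) ∧
            H592R3.Good C (fun x => σ (mask Y x)) h d
        (fun i => (ω i).1)) then (1 : ℝ) else 0))) :=
      Ex_prod (I := I) (vp y)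
        (fun e : Option Bool × Bool => wq q e.1 * vp (1 / 2) e.2) _
    rw [e1]
    have e2 : ∀ Y : I → Bool,
        Ex (fun e : Option Bool × Bool => wq q e.1 * vp (1 / 2) e.2)
          (fun ω : I → Option Bool × Bool =>
            (if ¬ (Bas (fun x => σ (mask Y x)) h (fun i => (ω i).1) ∧
              H592R3.Good C (fun x => σ (mask Y x)) h d
        (fun i => (ω i).1)) then (1 : ℝ) else 0)) ≤
        Ex (wq q0) (fun ρ : Restr I =>
          if ¬ Bas (fun x => σ (mask Y x)) h ρ then (1 : ℝ) else 0) + R := by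
      intro Y
      refine (Ex_prod (I := I) (wq q) (vp (1 / 2)) _).le.trans ?_
      have e3 : ∀ ρ : Restr I, Ex (vp (1 / 2))
          (fun _ : I → Bool =>
            (if ¬ (Bas (fun x => σ (mask Y x)) h ρ ∧
              H592R3.Good C (fun x => σ (mask Y x)) h d ρ) then (1 : ℝ) else 0)) =
            (if ¬ (Bas (fun x => σ (mask Y x)) h ρ ∧
              H592R3.Good C (fun x => σ (mask Y x)) h d ρ) then (1 : ℝ) else 0) :=
        fun ρ => Ex_const (vp_sum (1 / 2)) _
      have h3 := collapse2 C (fun x => σ (mask Y x))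
        (q := 1 / (τ : ℝ)) (by positivity) h13 hq00.le hq01 (h := h) (le_refl _) d
      rw [← hq] at h3
      refine le_trans (le_of_eq ?_) (h3.trans (le_trans ?_ (le_refl _)))
      · congr 1
        funext ρ
        exact e3 ρ
      · apply add_le_add (le_refl _)
        rw [hR]
        apply mul_le_mul_of_nonneg_right _ (by positivity)
        apply mul_le_mul_of_nonneg_left _ (by positivity)
        have : C.size * (Fintype.card J + C.size + 1) ≤ S * (Fintype.card J + S + 1) :=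
          Nat.mul_le_mul hS (by omega)
        exact_mod_cast this
    refine (Ex_mono (vp_nonneg hy0.le hy1) e2).trans ?_
    rw [Ex_add, Ex_const (I := I) (vp_sum y) R]
    rw [hR]
    linarith
  have h5 := mul_le_mul_of_nonneg_left hfail (by positivity : 0 ≤ B0 * Big)
  linarith

open Classical in
/-- The moments of the number of planted instances to which a circuit is sensitive. -/
theorem circ_momentS [Fintype J] {Sm : Finset M → Prop} (h0 : Sm ∅)
    (vr : T → M → I) (hvr : ∀ a, Function.Injective (vr a))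
    (κ : Finset M → ℕ)
    (hκ : ∀ (H : Finset M) (V : Finset I),
      (univ.filter (fun a : T => H.image (vr a) = V)).card ≤ κ H)
    (C : Circuit J) (σ : (I → Bool) → (J → Bool))
    (hin : ∀ (a : T) (X : I → Bool) (j : J), LowS Sm (pf (fun x => σ x j) (vr a) X))
    {h : ℕ} {d τ : ℕ} (hτ : 3 ≤ τ)
    (hdepth : C.depth ≤ d) {S : ℕ} (hS : C.size ≤ S) {l : ℕ}
    (hlen : Fintype.card J + S + 2 ≤ 2 ^ l)
    {y q0 q c ε ε0 : ℝ} (hy0 : 0 < y) (hy1 : y ≤ 1) (hq00 : 0 < q0) (hq01 : q0 ≤ 1)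
    (hq : q = q0 * (1 / (τ : ℝ)) ^ d)
    (hbas : Ex (vp y) (fun Y : I → Bool => Ex (wq q0) (fun ρ : Restr I =>
      if ¬ Bas (fun x => σ (mask Y x)) h ρ then (1 : ℝ) else 0)) ≤ ε0)
    (hcyq : 2 ≤ c * (y * q)) (hc : 1 ≤ c)
    (hε : ε0 + d * ((S * (Fintype.card J + S + 1) : ℕ) : ℝ) *
      (12 * h * (1 / (τ : ℝ))) ^ (h + 1) ≤ ε) {Bg Bs : ℝ}
    (hBg : ∑ H ∈ univ.filter (fun H : Finset M => MedS Sm H),
      c ^ H.card * (((2 * (h * l)) ^ H.card * κ H : ℕ) : ℝ) ≤ Bg)
    (hBs : ∑ H ∈ univ.filter (fun H : Finset M => H.Nonempty ∧ Sm H),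
      c ^ H.card * (((2 * h) ^ H.card * κ H : ℕ) : ℝ) ≤ Bs)
    (hBN : S * Bg + Bs ≤ Fintype.card T) (t : ℕ) :
    Ex (vp (y / 2)) (fun X => cntS vr σ C X ^ t) ≤
    (S * Bg + Bs) ^ t + t * ((Fintype.card T : ℝ)) ^ t * (((S : ℝ) + 1) * 2 ^ (Fintype.card M) *
        c ^ (Fintype.card M)) * ε := by
  have hc0 : 0 ≤ c := by linarith
  obtain ⟨R, hR⟩ : ∃ R : ℝ, R = ((S : ℝ) + 1) * 2 ^ (Fintype.card M) * c ^ (Fintype.card M) :=
    ⟨_, rfl⟩
  have hR0 : 0 ≤ R := by rw [hR]; positivity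
  have hBs0 : 0 ≤ Bs := le_trans (Finset.sum_nonneg fun H _ => by positivity) hBs
  have hBg0 : 0 ≤ Bg := le_trans (Finset.sum_nonneg fun H _ => by positivity) hBg
  have hε00 : 0 ≤ ε0 := by
    refine le_trans (Ex_nonneg (vp_nonneg hy0.le hy1) fun Y =>
      Ex_nonneg (wq_nonneg hq00.le hq01) fun ρ => ?_) hbas
    split_ifs <;> norm_num
  have hε0 : 0 ≤ ε := le_trans (by positivity) hε
  induction t with
  | zero =>
    simp only [pow_zero, Nat.cast_zero, zero_mul, add_zero]
    exact (Ex_const (I := I) (vp_sum (y / 2)) (1 : ℝ)).le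
  | succ t ih =>
    have h1 := circ_weightedS h0 vr hvr κ hκ C σ hin hτ hdepth hS hlen hy0 hy1 hq00 hq01 hq hbas
      hcyq hc hε hBg hBs
      (fun X => cntS vr σ C X ^ t) (fun X => pow_nonneg (cntS_nonneg vr σ C X) t)
      (B0 := ((Fintype.card T : ℝ)) ^ t) (fun X => pow_le_pow_left₀ (cntS_nonneg vr σ C X)
        (cntS_le vr σ C X) t)
    rw [← hR] at ih h1 ⊢
    obtain ⟨Bd, hBd⟩ : ∃ Bd : ℝ, Bd = S * Bg + Bs := ⟨_, rfl⟩
    have hBd0 : 0 ≤ Bd := by rw [hBd]; positivity
    rw [← hBd] at ih h1 hBN ⊢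
    obtain ⟨NN, hNN⟩ : ∃ NN : ℝ, NN = (Fintype.card T : ℝ) := ⟨_, rfl⟩
    rw [← hNN] at ih h1 hBN ⊢
    have hNN0 : 0 ≤ NN := by rw [hNN]; positivity
    have h2 : Ex (vp (y / 2)) (fun X => cntS vr σ C X ^ (t + 1)) ≤
        Bd * Ex (vp (y / 2)) (fun X => cntS vr σ C X ^ t) +
        NN ^ t * (NN * R) * ε := by
      simp only [pow_succ]
      exact h1
    have h3 : Bd * Ex (vp (y / 2)) (fun X => cntS vr σ C X ^ t) ≤
        Bd * (Bd ^ t + t * NN ^ t * R * ε) := mul_le_mul_of_nonneg_left ih hBd0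
    have h4 : Bd * (t * NN ^ t * R * ε) ≤ NN * (t * NN ^ t * R * ε) :=
      mul_le_mul_of_nonneg_right hBN (by positivity)
    push_cast
    have e1 : Bd * (Bd ^ t + t * NN ^ t * R * ε) = Bd ^ (t + 1) + Bd * (t * NN ^ t * R * ε) := by
      ring
    have e2 : ((t : ℝ) + 1) * NN ^ (t + 1) * R * ε =
        NN * (t * NN ^ t * R * ε) + NN ^ t * (NN * R) * ε := by ring
    linarith

open Classical in
theorem game_coreS [Fintype J] {Sm : Finset M → Prop} (h0 : Sm ∅)
    (vr : T → M → I) (hvr : ∀ a, Function.Injective (vr a))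
    (κ : Finset M → ℕ)
    (hκ : ∀ (H : Finset M) (V : Finset I),
      (univ.filter (fun a : T => H.image (vr a) = V)).card ≤ κ H)
    (G : Game J) (σ : (I → Bool) → (J → Bool))
    (hin : ∀ (a : T) (X : I → Bool) (j : J), LowS Sm (pf (fun x => σ x j) (vr a) X))
    {h : ℕ} {d τ : ℕ} (hτ : 3 ≤ τ)
    {S g : ℕ} (hG : G.Bounded d S g) {l : ℕ}
    (hlen : Fintype.card J + S + 2 ≤ 2 ^ l)
    {y q0 q c ε ε0 : ℝ} (hy0 : 0 < y) (hy1 : y ≤ 1) (hq00 : 0 < q0) (hq01 : q0 ≤ 1)
    (hq : q = q0 * (1 / (τ : ℝ)) ^ d)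
    (hbas : Ex (vp y) (fun Y : I → Bool => Ex (wq q0) (fun ρ : Restr I =>
      if ¬ Bas (fun x => σ (mask Y x)) h ρ then (1 : ℝ) else 0)) ≤ ε0)
    (hcyq : 2 ≤ c * (y * q)) (hc : 1 ≤ c)
    (hε : ε0 + d * ((S * (Fintype.card J + S + 1) : ℕ) : ℝ) *
      (12 * h * (1 / (τ : ℝ))) ^ (h + 1) ≤ ε) {Bg Bs : ℝ}
    (hBg : ∑ H ∈ univ.filter (fun H : Finset M => MedS Sm H),
      c ^ H.card * (((2 * (h * l)) ^ H.card * κ H : ℕ) : ℝ) ≤ Bg)
    (hBs : ∑ H ∈ univ.filter (fun H : Finset M => H.Nonempty ∧ Sm H),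
      c ^ H.card * (((2 * h) ^ H.card * κ H : ℕ) : ℝ) ≤ Bs)
    (hBN : S * Bg + Bs ≤ Fintype.card T) (t : ℕ)
    (Uq : T → (I → Bool) → Prop)
    (hbad : ∀ a, Ex (vp (y / 2)) (fun X => if ¬ Uq a X then (1 : ℝ) else 0) ≤ 1 / 2)
    (hpt : ∀ X : I → Bool,
      ∑ a : T, (1 / 3) * (1 - (if ¬ Uq a X then (1 : ℝ) else 0)) ≤ ms vr σ G X) :
    ((Fintype.card T : ℝ) / 6) ^ t ≤
    2 ^ g * ((S * Bg + Bs) ^ t + t * ((Fintype.card T : ℝ)) ^ t *
      (((S : ℝ) + 1) * 2 ^ (Fintype.card M) * c ^ (Fintype.card M)) * ε) := by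
  have hp0 : 0 ≤ y / 2 := by linarith
  have hp1 : y / 2 ≤ 1 := by linarith
  have hc0 : 0 ≤ c := by linarith
  have hBs0 : 0 ≤ Bs := le_trans (Finset.sum_nonneg fun H _ => by positivity) hBs
  have hBg0 : 0 ≤ Bg := le_trans (Finset.sum_nonneg fun H _ => by positivity) hBg
  have hε00 : 0 ≤ ε0 := by
    refine le_trans (Ex_nonneg (vp_nonneg hy0.le hy1) fun Y =>
      Ex_nonneg (wq_nonneg hq00.le hq01) fun ρ => ?_) hbas
    split_ifs <;> norm_num
  have hε0 : 0 ≤ ε := le_trans (by positivity) hε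
  have hmom := game_moment vr σ hp0 hp1 (d := d) (S := S)
    (t := t) (R := (S * Bg + Bs) ^ t + t * ((Fintype.card T : ℝ)) ^ t *
      (((S : ℝ) + 1) * 2 ^ (Fintype.card M) * c ^ (Fintype.card M)) * ε) (by positivity) (by
      intro C hC1 hC2
      exact circ_momentS h0 vr hvr κ hκ C σ hin hτ hC1 hC2 hlen hy0 hy1 hq00 hq01 hq hbas hcyq hc
        hε hBg hBs hBN t)
    G g hG
  refine le_trans ?_ hmom
  -- lower bound
  have hnn : ∀ X : I → Bool,
      0 ≤ ∑ a : T, (1 / 3) * (1 - (if ¬ Uq a X then (1 : ℝ) else 0)) := by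
    intro X
    refine Finset.sum_nonneg fun a _ => ?_
    split_ifs <;> norm_num
  have h1 := Ex_pow hp0 hp1 _ hnn t
  refine le_trans ?_ (h1.trans (Ex_mono (vp_nonneg hp0 hp1) fun X =>
    pow_le_pow_left₀ (hnn X) (hpt X) t))
  apply pow_le_pow_left₀ (by positivity)
  rw [Ex_sum]
  have h2 : ∀ a ∈ (univ : Finset T), (1 : ℝ) / 6 ≤ Ex (vp (y / 2))
      (fun X => (1 / 3) * (1 - (if ¬ Uq a X then (1 : ℝ) else 0))) := by
    intro a _
    rw [Ex_smul]
    have h3 : Ex (vp (y / 2)) (fun X : I → Bool =>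
        1 - (if ¬ Uq a X then (1 : ℝ) else 0)) =
        1 + (-1) * Ex (vp (y / 2)) (fun X : I → Bool =>
          (if ¬ Uq a X then (1 : ℝ) else 0)) := by
      rw [← Ex_smul]
      have h4 := Ex_add (vp (y / 2)) (fun _ : I → Bool => (1 : ℝ))
        (fun X => (-1) * (if ¬ Uq a X then (1 : ℝ) else 0))
      rw [Ex_const (vp_sum (y / 2))] at h4
      rw [← h4]
      congr 1
      funext X
      ring
    rw [h3]
    have h5 := hbad a
    linarith
  have h6 := Finset.card_nsmul_le_sum _ _ _ h2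
  rw [Finset.card_univ, nsmul_eq_mul] at h6
  linarith

end Mo

end H70.HP
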