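import Mathlib
import Pool.Agent.H592R4.Rows
import Pool.Agent.Helper70K1.HP.Med

/-!
Plants in a sparse random table whose input bits depend on boundedly many rows.
-/

set_option linter.unusedSectionVars false

namespace H70.HP

open Finset DomAC0 H568R2 SmallDepth H592R3 H592R3.Hp

section Row
variable {E J : Type} [Fintype E] [DecidableEq E] {R : ℕ}

/-- The input bit depends on the rows in `A`. -/
def DepRows (f : ((E × Fin R) → Bool) → Bool) (A : Finset E) : Prop :=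
  ∀ X X' : (E × Fin R) → Bool, (∀ e ∈ A, ∀ r, X (e, r) = X' (e, r)) → f X = f X'

/-- All rows are short after the mask and the first restriction. -/
def Rc (Y : (E × Fin R) → Bool) (ρ : Restr (E × Fin R)) (h : ℕ) : Prop :=
  ∀ e : E, (univ.filter (fun r : Fin R => Y (e, r) = true ∧ ρ (e, r) = none)).card ≤ h

lemma DepRows.dt {f : ((E × Fin R) → Bool) → Bool} {A : Finset E} (hf : DepRows f A) {w h : ℕ}
    (hA : A.card ≤ w) {Y : (E × Fin R) → Bool} {ρ : Restr (E × Fin R)} (hc : Rc Y ρ h) :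
    DT (w * h) (rs (fun x => f (mask Y x)) ρ) := by
  classical
  apply DT.of_dep (A.biUnion (fun e =>
    (univ.filter (fun r : Fin R => Y (e, r) = true ∧ ρ (e, r) = none)).image (fun r => (e, r))))
  · refine Finset.card_biUnion_le.trans ?_
    refine (Finset.sum_le_card_nsmul _ _ h fun e _ => Finset.card_image_le.trans (hc e)).trans ?_
    rw [smul_eq_mul]
    exact Nat.mul_le_mul_right _ hA
  · intro x x' hxx
    show f (mask Y (ov ρ x)) = f (mask Y (ov ρ x'))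
    apply hf
    intro e he r
    unfold mask ov
    by_cases hY : Y (e, r) = true
    · cases hρ : ρ (e, r) with
      | none =>
        have := hxx (e, r) (Finset.mem_biUnion.2 ⟨e, he, Finset.mem_image.2 ⟨r, by
          rw [Finset.mem_filter]; exact ⟨Finset.mem_univ _, hY, hρ⟩, rfl⟩⟩)
        simp [this]
      | some b => rfl
    · rw [Bool.not_eq_true] at hY
      rw [hY]
      rfl

open Classical in
/-- The probability that the first restriction fails. -/
lemma rc_prob {h : ℕ} {y q0 : ℝ} (hy0 : 0 ≤ y) (hy1 : y ≤ 1) (hq0 : 0 ≤ q0) (hq1 : q0 ≤ 1) :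
    Ex (vp y) (fun Y : (E × Fin R) → Bool => Ex (wq q0) (fun ρ : Restr (E × Fin R) =>
      if ¬ Rc Y ρ h then (1 : ℝ) else 0)) ≤
      Fintype.card E * (R * y * q0) ^ (h + 1) := by
  have hpt : ∀ (Y : (E × Fin R) → Bool) (ρ : Restr (E × Fin R)),
      (if ¬ Rc Y ρ h then (1 : ℝ) else 0) ≤
      ∑ e : E, ∑ B ∈ Finset.powersetCard (h + 1) (univ : Finset (Fin R)),
        (if ∀ i ∈ B.image (fun r => (e, r)), Y i = true then (1 : ℝ) else 0) *
        (if ∀ i ∈ B.image (fun r => (e, r)), ρ i = none then (1 : ℝ) else 0) := by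
    intro Y ρ
    have hnn : ∀ e : E, ∀ B ∈ Finset.powersetCard (h + 1) (univ : Finset (Fin R)), (0 : ℝ) ≤
        (if ∀ i ∈ B.image (fun r => (e, r)), Y i = true then (1 : ℝ) else 0) *
        (if ∀ i ∈ B.image (fun r => (e, r)), ρ i = none then (1 : ℝ) else 0) := by
      intro e B _
      apply mul_nonneg <;> split_ifs <;> norm_num
    by_cases hB : Rc Y ρ h
    · rw [if_neg (not_not.2 hB)]
      exact Finset.sum_nonneg fun e _ => Finset.sum_nonneg (hnn e)
    · rw [if_pos hB]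
      have hex : ∃ e : E, ¬ (univ.filter (fun r : Fin R => Y (e, r) = true ∧
          ρ (e, r) = none)).card ≤ h := by
        by_contra hcon
        push Not at hcon
        exact hB hcon
      obtain ⟨e, he⟩ := hex
      obtain ⟨B, hB1, hB2⟩ := Finset.exists_subset_card_eq (by omega : h + 1 ≤
        (univ.filter (fun r : Fin R => Y (e, r) = true ∧ ρ (e, r) = none)).card)
      have hBm : B ∈ Finset.powersetCard (h + 1) (univ : Finset (Fin R)) := by
        rw [Finset.mem_powersetCard]; exact ⟨Finset.subset_univ _, hB2⟩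
      have e1 : (1 : ℝ) = (if ∀ i ∈ B.image (fun r => (e, r)), Y i = true then (1 : ℝ) else 0) *
        (if ∀ i ∈ B.image (fun r => (e, r)), ρ i = none then (1 : ℝ) else 0) := by
        rw [if_pos, if_pos, mul_one]
        · intro i hi
          obtain ⟨r, hr, rfl⟩ := Finset.mem_image.1 hi
          exact (Finset.mem_filter.1 (hB1 hr)).2.2
        · intro i hi
          obtain ⟨r, hr, rfl⟩ := Finset.mem_image.1 hi
          exact (Finset.mem_filter.1 (hB1 hr)).2.1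
      refine le_trans (le_of_eq e1) ?_
      refine le_trans (Finset.single_le_sum (hnn e) hBm) ?_
      exact Finset.single_le_sum (f := fun e : E =>
        ∑ B ∈ Finset.powersetCard (h + 1) (univ : Finset (Fin R)),
        (if ∀ i ∈ B.image (fun r => (e, r)), Y i = true then (1 : ℝ) else 0) *
        (if ∀ i ∈ B.image (fun r => (e, r)), ρ i = none then (1 : ℝ) else 0))
        (fun e _ => Finset.sum_nonneg (hnn e)) (Finset.mem_univ e)
  have hcardB : ∀ (e : E) (B : Finset (Fin R)), (B.image (fun r => (e, r))).card = B.card :=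
    fun e B => Finset.card_image_of_injective _ (fun r r' h => (Prod.mk.inj h).2)
  refine (Ex_mono (vp_nonneg hy0 hy1) fun Y => Ex_mono (wq_nonneg hq0 hq1) (hpt Y)).trans ?_
  have h1 : ∀ Y : (E × Fin R) → Bool, Ex (wq q0) (fun ρ : Restr (E × Fin R) =>
      ∑ e : E, ∑ B ∈ Finset.powersetCard (h + 1) (univ : Finset (Fin R)),
        (if ∀ i ∈ B.image (fun r => (e, r)), Y i = true then (1 : ℝ) else 0) *
        (if ∀ i ∈ B.image (fun r => (e, r)), ρ i = none then (1 : ℝ) else 0)) =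
      ∑ e : E, ∑ B ∈ Finset.powersetCard (h + 1) (univ : Finset (Fin R)),
        q0 ^ (h + 1) *
        (if ∀ i ∈ B.image (fun r => (e, r)), Y i = true then (1 : ℝ) else 0) := by
    intro Y
    rw [Ex_sum]
    refine Finset.sum_congr rfl fun e _ => ?_
    rw [Ex_sum]
    refine Finset.sum_congr rfl fun B hB => ?_
    rw [Ex_smul, ex_star, hcardB, (Finset.mem_powersetCard.1 hB).2, mul_comm]
  simp only [h1]
  rw [Ex_sum]
  have h2 : ∀ e ∈ (univ : Finset E), Ex (vp y) (fun Y : (E × Fin R) → Bool =>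
      ∑ B ∈ Finset.powersetCard (h + 1) (univ : Finset (Fin R)),
        q0 ^ (h + 1) *
        (if ∀ i ∈ B.image (fun r => (e, r)), Y i = true then (1 : ℝ) else 0)) ≤
      (R * y * q0) ^ (h + 1) := by
    intro e _
    rw [Ex_sum]
    have h3 : ∀ B ∈ Finset.powersetCard (h + 1) (univ : Finset (Fin R)),
        Ex (vp y) (fun Y : (E × Fin R) → Bool => q0 ^ (h + 1) *
        (if ∀ i ∈ B.image (fun r => (e, r)), Y i = true then (1 : ℝ) else 0)) ≤
        q0 ^ (h + 1) * y ^ (h + 1) := by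
      intro B hB
      rw [Ex_smul, ex_on, hcardB, (Finset.mem_powersetCard.1 hB).2]
    refine (Finset.sum_le_card_nsmul _ _ _ h3).trans ?_
    rw [Finset.card_powersetCard, Finset.card_univ, Fintype.card_fin, nsmul_eq_mul]
    have h4 : ((R.choose (h + 1) : ℕ) : ℝ) ≤ (R : ℝ) ^ (h + 1) := by
      exact_mod_cast Nat.choose_le_pow R (h + 1)
    calc ((R.choose (h + 1) : ℕ) : ℝ) * (q0 ^ (h + 1) * y ^ (h + 1)) ≤
        (R : ℝ) ^ (h + 1) * (q0 ^ (h + 1) * y ^ (h + 1)) := by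
          apply mul_le_mul_of_nonneg_right h4 (by positivity)
      _ = (R * y * q0) ^ (h + 1) := by rw [mul_pow, mul_pow]; ring
  refine (Finset.sum_le_card_nsmul _ _ _ h2).trans ?_
  rw [Finset.card_univ, nsmul_eq_mul]

/-- The coefficients of an input bit are at sets of plants in its rows. -/
lemma DepRows.mb_mem {M T : Type} [Fintype M] [DecidableEq M]
    {f : ((E × Fin R) → Bool) → Bool} {A : Finset E} (hf : DepRows f A) (vr : T → M → E × Fin R)
    (a : T) (X : (E × Fin R) → Bool) {H : Finset M} (h : mb (pf f (vr a) X) H ≠ 0) :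
    ∀ m ∈ H, (vr a m).1 ∈ A := by
  intro m hm
  by_contra hme
  apply h
  apply mb_indep hm
  intro W
  unfold pf
  have : f (plant (vr a) (insert m W) X) = f (plant (vr a) W X) := by
    apply hf
    intro e he r
    unfold plant
    have h3 : (∃ j' ∈ insert m W, vr a j' = (e, r)) ↔ (∃ j' ∈ W, vr a j' = (e, r)) := by
      constructor
      · rintro ⟨j', hj', h4⟩
        rcases Finset.mem_insert.1 hj' with h5 | h5
        · subst h5
          exact absurd (by rw [h4]; exact he) hme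
        · exact ⟨j', h5, h4⟩
      · rintro ⟨j', hj', h4⟩
        exact ⟨j', Finset.mem_insert_of_mem hj', h4⟩
    simp only [h3]
  simp only [this]

end Row

section Core
variable {E T J M : Type} [Fintype E] [DecidableEq E] [Fintype T] [Fintype M] [DecidableEq M]
variable {R : ℕ}

open Classical in
/-- The lower bound for plants in a sparse random table. -/
theorem cell_core [Fintype J] {Sm : Finset M → Prop} (h0 : Sm ∅)
    (vr : T → M → E × Fin R) (hvr : ∀ a, Function.Injective (vr a))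
    (κ : Finset M → ℕ)
    (hκ : ∀ (H : Finset M) (V : Finset (E × Fin R)),
      (univ.filter (fun a : T => H.image (vr a) = V)).card ≤ κ H)
    (hT : 0 < Fintype.card T) (hR : 0 < R) {K w h0' : ℕ} (hK : 1 ≤ K) (hw : 1 ≤ w)
    (hh0 : 1 ≤ h0')
    (σ : ((E × Fin R) → Bool) → (J → Bool))
    (hσ : ∀ j, ∃ A : Finset E, A.card ≤ w ∧ DepRows (fun X => σ X j) A ∧
      ∀ (a : T) (H : Finset M), (∀ m ∈ H, (vr a m).1 ∈ A) → Sm H)
    (G : Game J) {d S g : ℕ} (hG : G.Bounded d S g) {h l : ℕ} (hh : h = w * h0') (hl : 1 ≤ l)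
    (hlen : Fintype.card J + S + 2 ≤ 2 ^ l)
    (Uq : T → ((E × Fin R) → Bool) → Prop)
    (hbad : ∀ a, Ex (vp (1 / (24 * K * (R : ℝ))))
      (fun X : (E × Fin R) → Bool => if ¬ Uq a X then (1 : ℝ) else 0) ≤ 1 / 2)
    (hpt : ∀ X : (E × Fin R) → Bool,
      ∑ a : T, (1 / 3) * (1 - (if ¬ Uq a X then (1 : ℝ) else 0)) ≤ ms vr σ G X)
    {Q1 Q2 : ℝ} (hQ1 : 0 < Q1) (hQ2 : 0 < Q2)
    (hmed : ∀ H, MedS Sm H → (κ H : ℝ) * R ^ H.card * Q1 ≤ Fintype.card T)
    (hsm : ∀ H, H.Nonempty → Sm H → (κ H : ℝ) * R ^ H.card * Q2 ≤ Fintype.card T)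
    (hN1 : 48 * (2 * (48 * K * (24 * (h : ℝ)) ^ d * h * l)) ^ (Fintype.card M) * S ≤ Q1)
    (hN2 : 48 * (2 * (48 * K * (24 * (h : ℝ)) ^ d * h * l)) ^ (Fintype.card M) ≤ Q2)
    (hN3 : (2 : ℝ) ^ g * 6 ^ (g + 2) * (g + 2) * (((S : ℝ) + 1) * 2 ^ (Fintype.card M) *
      (24 * K * R * (24 * (h : ℝ)) ^ d) ^ (Fintype.card M)) *
      (Fintype.card E * (1 / 12) ^ (h0' + 1) +
        d * ((S * (Fintype.card J + S + 1) : ℕ) : ℝ) * (1 / 2) ^ (h + 1)) < 1 / 2) : False := by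
  have hRR : (0 : ℝ) < R := by exact_mod_cast hR
  have hR1 : (1 : ℝ) ≤ R := by exact_mod_cast hR
  have hKR : (1 : ℝ) ≤ K := by exact_mod_cast hK
  have hh1 : 1 ≤ h := by rw [hh]; exact Nat.mul_pos hw hh0
  have hhR : (1 : ℝ) ≤ h := by exact_mod_cast hh1
  have hlR : (1 : ℝ) ≤ l := by exact_mod_cast hl
  obtain ⟨τ, hτ⟩ : ∃ τ : ℕ, τ = 24 * h := ⟨_, rfl⟩
  have hτR : (τ : ℝ) = 24 * h := by rw [hτ]; push_cast; ring
  have hτ1 : (1 : ℝ) ≤ (24 * (h : ℝ)) ^ d := one_le_pow₀ (by linarith)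
  have hKR2 : (1 : ℝ) ≤ K * R := by nlinarith
  obtain ⟨y, hy⟩ : ∃ y : ℝ, y = 1 / (12 * K * R) := ⟨_, rfl⟩
  have hy0 : 0 < y := by rw [hy]; positivity
  have hy1 : y ≤ 1 := by
    rw [hy, div_le_one (by positivity)]; nlinarith
  have hy2 : y / 2 = 1 / (24 * K * R) := by rw [hy]; field_simp; ring
  obtain ⟨q, hq⟩ : ∃ q : ℝ, q = 1 * (1 / (τ : ℝ)) ^ d := ⟨_, rfl⟩
  obtain ⟨c, hc⟩ : ∃ c : ℝ, c = 24 * K * R * (24 * (h : ℝ)) ^ d := ⟨_, rfl⟩
  have hc1 : 1 ≤ c := by
    rw [hc]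
    nlinarith
  have hcyq : 2 ≤ c * (y * q) := by
    rw [hc, hy, hq, hτR, one_mul, one_div_pow]
    apply le_of_eq
    field_simp
    norm_num
  obtain ⟨ε, hε⟩ : ∃ ε : ℝ, ε = Fintype.card E * (1 / 12) ^ (h0' + 1) +
        d * ((S * (Fintype.card J + S + 1) : ℕ) : ℝ) * (1 / 2) ^ (h + 1) := ⟨_, rfl⟩
  rw [← hc, ← hε] at hN3
  have hbas : Ex (vp y) (fun Y : (E × Fin R) → Bool => Ex (wq 1) (fun ρ : Restr (E × Fin R) =>
      if ¬ Bas (fun x => σ (mask Y x)) h ρ then (1 : ℝ) else 0)) ≤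
      Fintype.card E * (1 / 12) ^ (h0' + 1) := by
    have h1 := rc_prob (E := E) (R := R) (h := h0') hy0.le hy1 (q0 := 1) zero_le_one (le_refl _)
    have h2 : (Fintype.card E : ℝ) * (R * y * 1) ^ (h0' + 1) ≤
        Fintype.card E * (1 / 12) ^ (h0' + 1) := by
      apply mul_le_mul_of_nonneg_left _ (by positivity)
      apply pow_le_pow_left₀ (by positivity)
      rw [hy, mul_one]
      have : (R : ℝ) * (1 / (12 * K * R)) = 1 / 12 * (1 / K) := by field_simp
      rw [this]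
      have h3 : (1 : ℝ) / K ≤ 1 := by rw [div_le_one (by linarith)]; exact hKR
      linarith
    refine le_trans ?_ (h1.trans h2)
    refine Ex_mono (vp_nonneg hy0.le hy1) fun Y => Ex_mono (wq_nonneg zero_le_one (le_refl _))
      fun ρ => ?_
    by_cases hRc : Rc Y ρ h0'
    · have hB : Bas (fun x => σ (mask Y x)) h ρ := by
        intro j
        obtain ⟨A, hA1, hA2, _⟩ := hσ j
        rw [hh]
        exact hA2.dt hA1 hRc
      rw [if_neg (not_not.2 hB)]
      split_ifs <;> norm_num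
    · rw [if_pos hRc]
      split_ifs <;> norm_num
  have hε2 : Fintype.card E * (1 / 12) ^ (h0' + 1) +
      d * ((S * (Fintype.card J + S + 1) : ℕ) : ℝ) * (12 * h * (1 / (τ : ℝ))) ^ (h + 1) ≤ ε := by
    rw [hε, hτR]
    apply le_of_eq
    congr 3
    field_simp
    norm_num
  obtain ⟨NT, hNT⟩ : ∃ NT : ℝ, NT = (Fintype.card T : ℝ) := ⟨_, rfl⟩
  have hT0 : (0 : ℝ) < NT := by rw [hNT]; exact_mod_cast hT
  obtain ⟨m0, hm0⟩ : ∃ m0 : ℕ, m0 = Fintype.card M := ⟨_, rfl⟩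
  obtain ⟨U, hU⟩ : ∃ U : ℝ, U = 48 * K * (24 * (h : ℝ)) ^ d * h * l := ⟨_, rfl⟩
  have hU1 : 1 ≤ U := by
    rw [hU]
    have e1 : (1 : ℝ) ≤ 48 * K := by linarith
    have e2 : (1 : ℝ) ≤ 48 * K * (24 * (h : ℝ)) ^ d := by nlinarith
    have e3 : (1 : ℝ) ≤ 48 * K * (24 * (h : ℝ)) ^ d * h := by nlinarith
    nlinarith
  have hU0 : 0 ≤ U := by linarith
  rw [← hm0, ← hU] at hN1 hN2
  rw [← hm0] at hN3
  rw [← hNT] at hmed hsm
  -- the terms
  have hterm : ∀ (H : Finset M) (v : ℕ) (Q : ℝ), 0 < Q → v ≤ 2 * (h * l) →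
      (κ H : ℝ) * R ^ H.card * Q ≤ NT →
      c ^ H.card * ((v ^ H.card * κ H : ℕ) : ℝ) ≤ U ^ m0 * (NT / Q) := by
    intro H v Q hQ hv hκQ
    have hvR : (v : ℝ) ≤ 2 * (h * l) := by exact_mod_cast hv
    have e1 : c ^ H.card * ((v ^ H.card * κ H : ℕ) : ℝ) ≤
        (U ^ H.card) * ((κ H : ℝ) * R ^ H.card) := by
      push_cast
      calc c ^ H.card * ((v : ℝ) ^ H.card * κ H) = (c * v) ^ H.card * κ H := by
            rw [mul_pow]; ring
        _ ≤ (R * U) ^ H.card * κ H := by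
            apply mul_le_mul_of_nonneg_right _ (by positivity)
            apply pow_le_pow_left₀ (by positivity)
            calc c * v ≤ c * (2 * (h * l)) := mul_le_mul_of_nonneg_left hvR (by linarith)
              _ = R * U := by rw [hc, hU]; ring
        _ = _ := by rw [mul_pow]; ring
    refine e1.trans ?_
    apply mul_le_mul _ _ (by positivity) (by positivity)
    · apply pow_le_pow_right₀ hU1
      rw [hm0]
      exact Finset.card_le_univ _
    · rw [le_div_iff₀ hQ]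
      exact hκQ
  obtain ⟨Bg, hBg⟩ : ∃ Bg : ℝ, Bg = 2 ^ m0 * (U ^ m0 * (NT / Q1)) := ⟨_, rfl⟩
  obtain ⟨Bs, hBs⟩ : ∃ Bs : ℝ, Bs = 2 ^ m0 * (U ^ m0 * (NT / Q2)) := ⟨_, rfl⟩
  have hcount : ∀ P : Finset (Finset M), (P.card : ℝ) ≤ 2 ^ m0 := by
    intro P
    have h1 : P.card ≤ 2 ^ m0 := by
      refine (Finset.card_le_univ _).trans (le_of_eq ?_)
      rw [Fintype.card_finset, hm0]
    exact_mod_cast h1
  have hBgS : ∑ H ∈ univ.filter (fun H : Finset M => MedS Sm H),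
      c ^ H.card * (((2 * (h * l)) ^ H.card * κ H : ℕ) : ℝ) ≤ Bg := by
    have h1 := Finset.sum_le_card_nsmul (univ.filter (fun H : Finset M => MedS Sm H))
      (fun H => c ^ H.card * (((2 * (h * l)) ^ H.card * κ H : ℕ) : ℝ)) (U ^ m0 * (NT / Q1))
      (fun H hH => hterm H _ Q1 hQ1 (le_refl _) (hmed H (Finset.mem_filter.1 hH).2))
    refine h1.trans ?_
    rw [nsmul_eq_mul, hBg]
    apply mul_le_mul_of_nonneg_right (hcount _) (by positivity)
  have hBsS : ∑ H ∈ univ.filter (fun H : Finset M => H.Nonempty ∧ Sm H),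
      c ^ H.card * (((2 * h) ^ H.card * κ H : ℕ) : ℝ) ≤ Bs := by
    have h1 := Finset.sum_le_card_nsmul (univ.filter (fun H : Finset M => H.Nonempty ∧ Sm H))
      (fun H => c ^ H.card * (((2 * h) ^ H.card * κ H : ℕ) : ℝ)) (U ^ m0 * (NT / Q2))
      (fun H hH => hterm H _ Q2 hQ2 (by nlinarith)
        (hsm H (Finset.mem_filter.1 hH).2.1 (Finset.mem_filter.1 hH).2.2))
    refine h1.trans ?_
    rw [nsmul_eq_mul, hBs]
    apply mul_le_mul_of_nonneg_right (hcount _) (by positivity)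
  have hBN : 24 * (S * Bg + Bs) ≤ NT := by
    have e1 : 48 * (S * Bg) ≤ NT := by
      have : 48 * (S * Bg) = (48 * (2 * U) ^ m0 * S) * (NT / Q1) := by
        rw [hBg, mul_pow]; ring
      rw [this]
      calc (48 * (2 * U) ^ m0 * S) * (NT / Q1) ≤ Q1 * (NT / Q1) :=
            mul_le_mul_of_nonneg_right hN1 (by positivity)
        _ = NT := by field_simp
    have e2 : 48 * Bs ≤ NT := by
      have : 48 * Bs = (48 * (2 * U) ^ m0) * (NT / Q2) := by
        rw [hBs, mul_pow]; ring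
      rw [this]
      calc (48 * (2 * U) ^ m0) * (NT / Q2) ≤ Q2 * (NT / Q2) :=
            mul_le_mul_of_nonneg_right hN2 (by positivity)
        _ = NT := by field_simp
    linarith
  have hBg0 : 0 ≤ Bg := by rw [hBg]; positivity
  have hBs0 : 0 ≤ Bs := by rw [hBs]; positivity
  have hSB0 : 0 ≤ S * Bg + Bs := by positivity
  have hmain := game_coreS h0 vr hvr κ hκ G σ (fun a X j H hH => by
      obtain ⟨A, _, hA2, hA3⟩ := hσ j
      by_contra hne
      exact hH (hA3 a H (hA2.mb_mem vr a X hne)))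
    (h := h) (d := d) (τ := τ) (by omega) hG (l := l) hlen
    hy0 hy1 (q0 := 1) (by norm_num) (le_refl _) hq hbas hcyq hc1 hε2
    (Bg := Bg) (Bs := Bs) hBgS hBsS
    (by rw [← hNT]; linarith) (g + 2)
    Uq (by
      intro a
      rw [hy2]
      exact hbad a) hpt
  rw [← hNT, ← hm0] at hmain
  -- the contradiction
  obtain ⟨W, hW⟩ : ∃ W : ℝ, W = ((S : ℝ) + 1) * 2 ^ m0 * c ^ m0 := ⟨_, rfl⟩
  rw [← hW] at hN3 hmain
  have h3 : (S * Bg + Bs) ^ (g + 2) ≤ (NT / 24 : ℝ) ^ (g + 2) :=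
    pow_le_pow_left₀ hSB0 (by linarith) _
  have h4 : (NT / 6) ^ (g + 2) = NT ^ (g + 2) * (1 / 6) ^ (g + 2) := by
    rw [← mul_pow]; congr 1; ring
  have h5 : (NT / 24) ^ (g + 2) = NT ^ (g + 2) * (1 / 6) ^ (g + 2) *
      (1 / 4) ^ (g + 2) := by
    rw [← mul_pow, ← mul_pow]; congr 1; ring
  have h6 : (2 : ℝ) ^ g * (1 / 4) ^ (g + 2) ≤ 1 / 16 := by
    rw [pow_add, ← mul_assoc, ← mul_pow]
    have : ((2 : ℝ) * (1 / 4)) ^ g ≤ 1 := pow_le_one₀ (by norm_num) (by norm_num)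
    nlinarith
  obtain ⟨V, hV⟩ : ∃ V : ℝ, V = NT ^ (g + 2) * (1 / 6) ^ (g + 2) := ⟨_, rfl⟩
  have hV0 : 0 < V := by rw [hV]; positivity
  have h7 : (2 : ℝ) ^ g * (((g + 2 : ℕ) : ℝ) * NT ^ (g + 2) * W * ε) =
      V * (2 ^ g * 6 ^ (g + 2) * (g + 2) * W * ε) := by
    rw [hV]
    push_cast
    have : (1 / 6 : ℝ) ^ (g + 2) * 6 ^ (g + 2) = 1 := by
      rw [← mul_pow]; norm_num
    calc (2 : ℝ) ^ g * (((g : ℝ) + 2) * NT ^ (g + 2) * W * ε) =
        NT ^ (g + 2) * ((1 / 6 : ℝ) ^ (g + 2) * 6 ^ (g + 2)) *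
          (2 ^ g * (g + 2) * W * ε) := by rw [this]; ring
      _ = _ := by ring
  have h8 : V ≤ 2 ^ g * (V * (1 / 4) ^ (g + 2)) +
      V * (2 ^ g * 6 ^ (g + 2) * (g + 2) * W * ε) := by
    calc V = (NT / 6) ^ (g + 2) := by rw [h4, hV]
      _ ≤ 2 ^ g * ((S * Bg + Bs) ^ (g + 2) + ((g + 2 : ℕ) : ℝ) * NT ^ (g + 2) * W * ε) :=
          hmain
      _ = 2 ^ g * (S * Bg + Bs) ^ (g + 2) +
          2 ^ g * (((g + 2 : ℕ) : ℝ) * NT ^ (g + 2) * W * ε) := by ring
      _ ≤ 2 ^ g * (NT / 24 : ℝ) ^ (g + 2) +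
          2 ^ g * (((g + 2 : ℕ) : ℝ) * NT ^ (g + 2) * W * ε) := by gcongr
      _ = _ := by rw [h5, h7, hV]
  have h9 : 2 ^ g * (V * (1 / 4) ^ (g + 2)) ≤ V * (1 / 16) := by
    calc 2 ^ g * (V * (1 / 4) ^ (g + 2)) = V * (2 ^ g * (1 / 4) ^ (g + 2)) := by ring
      _ ≤ _ := mul_le_mul_of_nonneg_left h6 hV0.le
  have h10 : V * (2 ^ g * 6 ^ (g + 2) * (g + 2) * W * ε) ≤ V * (1 / 2) := by
    apply mul_le_mul_of_nonneg_left _ hV0.le
    exact hN3.le
  linarith

end Core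

end H70.HP
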