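import Mathlib
import Pool.Agent.Helper70K1.HP.Cells

/-!
Tuples of digit vectors with a given sum and given inner products.
-/

set_option linter.unusedSectionVars false

namespace H70.HP

open Finset DomAC0 H568R2 SmallDepth H592R3 H592R3.Hp

section Pat
variable {M : Type} [Fintype M] [DecidableEq M] {D p : ℕ}

/-- Vectors of `D` digits. -/
abbrev Vc (D p : ℕ) : Type := Fin D → Fin p

/-- The inner product. -/
def ipr (x y : Vc D p) : ℕ := ∑ j, (x j : ℕ) * (y j : ℕ)

/-- The inner product with a vector of natural numbers. -/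
def ipt (x : Vc D p) (t : Fin D → ℕ) : ℕ := ∑ j, (x j : ℕ) * t j

/-- The vectors have the sum `t` and the given inner products. -/
def HasPat (t : Fin D → ℕ) (g1 : M → M → ℕ) (g2 : M → ℕ) (z : M → Vc D p) : Prop :=
  (∀ j, ∑ m, (z m j : ℕ) = t j) ∧ (∀ m m', ipr (z m) (z m') = g1 m m') ∧
    ∀ m, ipt (z m) t = g2 m

lemma quad_expand (t : Fin D → ℕ) (z : M → Vc D p) :
    ∑ j, ((∑ m, ((z m j : ℕ) : ℤ)) - t j) ^ 2 =
      ∑ m, ∑ m', (ipr (z m) (z m') : ℤ) - 2 * ∑ m, (ipt (z m) t : ℤ) + ∑ j, (t j : ℤ) ^ 2 := by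
  have h1 : ∑ m, ∑ m', (ipr (z m) (z m') : ℤ) =
      ∑ j, (∑ m, ((z m j : ℕ) : ℤ)) * (∑ m, ((z m j : ℕ) : ℤ)) := by
    unfold ipr
    push_cast
    have e1 : ∑ j, (∑ m, ((z m j : ℕ) : ℤ)) * (∑ m, ((z m j : ℕ) : ℤ)) =
        ∑ j, ∑ m, ∑ m', ((z m j : ℕ) : ℤ) * ((z m' j : ℕ) : ℤ) :=
      Finset.sum_congr rfl fun j _ => Finset.sum_mul_sum _ _ _ _
    rw [e1, Finset.sum_comm (s := (univ : Finset (Fin D)))]
    refine Finset.sum_congr rfl fun m _ => ?_
    rw [Finset.sum_comm]
  have h2 : ∑ m, (ipt (z m) t : ℤ) = ∑ j, (∑ m, ((z m j : ℕ) : ℤ)) * t j := by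
    unfold ipt
    push_cast
    rw [Finset.sum_comm]
    refine Finset.sum_congr rfl fun j _ => ?_
    rw [Finset.sum_mul]
  rw [h1, h2, Finset.mul_sum, ← Finset.sum_sub_distrib, ← Finset.sum_add_distrib]
  refine Finset.sum_congr rfl fun j _ => ?_
  ring

/-- The inner products determine that the sum is `t`. -/
lemma HasPat.of_ip {t : Fin D → ℕ} {g1 : M → M → ℕ} {g2 : M → ℕ} {z0 z : M → Vc D p}
    (h : HasPat t g1 g2 z0) (h1 : ∀ m m', ipr (z m) (z m') = g1 m m')
    (h2 : ∀ m, ipt (z m) t = g2 m) : HasPat t g1 g2 z := by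
  refine ⟨?_, h1, h2⟩
  have e0 := quad_expand t z0
  have e1 := quad_expand t z
  have f0 : ∑ j, ((∑ m, ((z0 m j : ℕ) : ℤ)) - t j) ^ 2 = 0 := by
    refine Finset.sum_eq_zero fun j _ => ?_
    have := h.1 j
    rw [← this]
    push_cast
    ring
  have e2 : ∑ j, ((∑ m, ((z m j : ℕ) : ℤ)) - t j) ^ 2 = 0 := by
    rw [e1, ← f0, e0]
    congr 2
    · refine Finset.sum_congr rfl fun m _ => Finset.sum_congr rfl fun m' _ => ?_
      rw [h1, h.2.1]
    · congr 1
      refine Finset.sum_congr rfl fun m _ => ?_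
      rw [h2, h.2.2]
  intro j
  have e3 := (Finset.sum_eq_zero_iff_of_nonneg (fun j _ => sq_nonneg _)).1 e2 j
    (Finset.mem_univ j)
  have e4 : (∑ m, ((z m j : ℕ) : ℤ)) - t j = 0 := by
    exact pow_eq_zero_iff (two_ne_zero) |>.1 e3
  have e5 : ((∑ m, (z m j : ℕ) : ℕ) : ℤ) = (t j : ℤ) := by
    push_cast
    linarith
  exact_mod_cast e5

open Classical in
/-- The number of tuples with a given sum that are given on `H`. -/
lemma card_sum_le (t : Fin D → ℕ) (H : Finset M) (hH : H ≠ univ) (v : M → Vc D p) :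
    (univ.filter (fun z : M → Vc D p => (∀ j, ∑ m, (z m j : ℕ) = t j) ∧
      ∀ m ∈ H, z m = v m)).card ≤ (p ^ D) ^ (Fintype.card M - (H.card + 1)) := by
  obtain ⟨m1, hm1⟩ : ∃ m1, m1 ∉ H := by
    by_contra hcon
    push Not at hcon
    exact hH (Finset.eq_univ_iff_forall.2 hcon)
  have h1 : (univ.filter (fun z : M → Vc D p => (∀ j, ∑ m, (z m j : ℕ) = t j) ∧
      ∀ m ∈ H, z m = v m)).card ≤
      (univ : Finset ({m : M // m ∉ insert m1 H} → Vc D p)).card := by
    apply Finset.card_le_card_of_injOn (fun z m => z m.1)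
    · intro z _; exact Finset.mem_univ _
    · intro z hz z' hz' hzz
      obtain ⟨hz1, hz2⟩ := (Finset.mem_filter.1 hz).2
      obtain ⟨hz1', hz2'⟩ := (Finset.mem_filter.1 hz').2
      have hne : ∀ m, m ≠ m1 → z m = z' m := by
        intro m hm
        by_cases hmH : m ∈ H
        · rw [hz2 m hmH, hz2' m hmH]
        · exact congrFun hzz ⟨m, by
            rw [Finset.mem_insert]
            push Not
            exact ⟨hm, hmH⟩⟩
      funext m
      by_cases hm : m = m1
      · subst hm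
        funext j
        apply Fin.ext
        have e1 := hz1 j
        have e2 := hz1' j
        rw [← Finset.add_sum_erase _ _ (Finset.mem_univ m)] at e1 e2
        have e3 : ∑ x ∈ univ.erase m, (z x j : ℕ) = ∑ x ∈ univ.erase m, (z' x j : ℕ) := by
          refine Finset.sum_congr rfl fun x hx => ?_
          rw [hne x (Finset.ne_of_mem_erase hx)]
        omega
      · exact hne m hm
  refine h1.trans (le_of_eq ?_)
  rw [Finset.card_univ, Fintype.card_fun, Fintype.card_fun, Fintype.card_fin, Fintype.card_fin]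
  congr 1
  rw [Fintype.card_subtype_compl]
  congr 1
  rw [Fintype.card_coe, Finset.card_insert_of_notMem hm1]

open Classical in
/-- The number of functions that are given on a set. -/
lemma card_fun_le {k N : ℕ} (V : Finset (Fin k)) (c0 : Fin k → Fin N) :
    (univ.filter (fun c : Fin k → Fin N => ∀ i ∈ V, c i = c0 i)).card ≤ N ^ (k - V.card) := by
  have h1 : (univ.filter (fun c : Fin k → Fin N => ∀ i ∈ V, c i = c0 i)).card ≤
      (univ : Finset ({i : Fin k // i ∉ V} → Fin N)).card := by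
    apply Finset.card_le_card_of_injOn (fun c i => c i.1)
    · intro z _; exact Finset.mem_univ _
    · intro c hc c' hc' hcc
      have h1 := (Finset.mem_filter.1 hc).2
      have h2 := (Finset.mem_filter.1 hc').2
      funext i
      by_cases hi : i ∈ V
      · rw [h1 i hi, h2 i hi]
      · exact congrFun hcc ⟨i, hi⟩
  refine h1.trans (le_of_eq ?_)
  rw [Finset.card_univ, Fintype.card_fun, Fintype.card_fin]
  congr 1
  rw [Fintype.card_subtype_compl, Fintype.card_coe, Fintype.card_fin]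

open Classical in
/-- Some pattern occurs often. -/
lemma exists_pat [Nonempty M] (hp : 1 ≤ p) : ∃ (t : Fin D → ℕ) (g1 : M → M → ℕ) (g2 : M → ℕ),
    (p ^ D) ^ (Fintype.card M) ≤
      (univ.filter (fun z : M → Vc D p => HasPat t g1 g2 z)).card *
      ((Fintype.card M * p) ^ D * (Fintype.card M * D * p ^ 2 + 1) ^
        (Fintype.card M * Fintype.card M + Fintype.card M)) := by
  obtain ⟨m0, hm0⟩ : ∃ m0, m0 = Fintype.card M := ⟨_, rfl⟩
  have hm1 : 1 ≤ m0 := by rw [hm0]; exact Fintype.card_pos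
  obtain ⟨W, hW⟩ : ∃ W, W = m0 * D * p ^ 2 + 1 := ⟨_, rfl⟩
  have hdig : ∀ (x : Vc D p) j, (x j : ℕ) ≤ p := fun x j => (x j).2.le
  have hsum : ∀ (z : M → Vc D p) j, ∑ m, (z m j : ℕ) < m0 * p := by
    intro z j
    have h1 : ∑ m, (z m j : ℕ) ≤ ∑ _m : M, (p - 1) := by
      refine Finset.sum_le_sum fun m _ => ?_
      have := (z m j).2
      omega
    rw [Finset.sum_const, Finset.card_univ, ← hm0, smul_eq_mul] at h1
    refine lt_of_le_of_lt h1 ?_
    exact Nat.mul_lt_mul_of_pos_left (by omega) (by omega)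
  have hip : ∀ (x y : Vc D p), ipr x y < W := by
    intro x y
    have h1 : ipr x y ≤ ∑ _j : Fin D, p * p := by
      unfold ipr
      exact Finset.sum_le_sum fun j _ => Nat.mul_le_mul (hdig x j) (hdig y j)
    rw [Finset.sum_const, Finset.card_univ, Fintype.card_fin, smul_eq_mul] at h1
    have h2 : D * (p * p) ≤ m0 * D * p ^ 2 := by
      calc D * (p * p) = 1 * (D * (p * p)) := (one_mul _).symm
        _ ≤ m0 * (D * (p * p)) := Nat.mul_le_mul_right _ hm1
        _ = m0 * D * p ^ 2 := by ring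
    omega
  have hit : ∀ (x : Vc D p) (t : Fin D → ℕ), (∀ j, t j < m0 * p) → ipt x t < W := by
    intro x t ht
    have h1 : ipt x t ≤ ∑ _j : Fin D, p * (m0 * p) := by
      unfold ipt
      exact Finset.sum_le_sum fun j _ => Nat.mul_le_mul (hdig x j) (ht j).le
    rw [Finset.sum_const, Finset.card_univ, Fintype.card_fin, smul_eq_mul] at h1
    have h2 : D * (p * (m0 * p)) = m0 * D * p ^ 2 := by ring
    omega
  let Φ : (M → Vc D p) → (Fin D → Fin (m0 * p)) × ((M × M → Fin W) × (M → Fin W)) := fun z =>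
    (fun j => ⟨∑ m, (z m j : ℕ), hsum z j⟩,
      (fun q => ⟨ipr (z q.1) (z q.2), hip _ _⟩,
        fun m => ⟨ipt (z m) (fun j => ∑ m, (z m j : ℕ)), hit _ _ (hsum z)⟩))
  obtain ⟨z1⟩ : Nonempty (M → Vc D p) := ⟨fun _ _ => ⟨0, hp⟩⟩
  obtain ⟨φ, _, hφ⟩ := Finset.exists_max_image
    (univ : Finset ((Fin D → Fin (m0 * p)) × ((M × M → Fin W) × (M → Fin W))))
    (fun y => (univ.filter (fun z => Φ z = y)).card) ⟨Φ z1, Finset.mem_univ _⟩
  have h1 := Finset.card_le_mul_card_image (f := Φ) (univ : Finset (M → Vc D p))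
    (univ.filter (fun z => Φ z = φ)).card (fun y _ => hφ y (Finset.mem_univ _))
  have h2 : (univ.image Φ).card ≤ (m0 * p) ^ D * W ^ (m0 * m0 + m0) := by
    refine (Finset.card_le_univ _).trans (le_of_eq ?_)
    simp only [Fintype.card_prod, Fintype.card_fun, Fintype.card_fin, ← hm0]
    rw [pow_add]
  refine ⟨fun j => φ.1 j, fun m m' => φ.2.1 (m, m'), fun m => φ.2.2 m, ?_⟩
  rw [← hm0, ← hW]
  have h3 : (univ : Finset (M → Vc D p)).card = (p ^ D) ^ m0 := by
    rw [Finset.card_univ, Fintype.card_fun, Fintype.card_fun, Fintype.card_fin, Fintype.card_fin,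
      hm0]
  rw [← h3]
  refine h1.trans (Nat.mul_le_mul (Finset.card_le_card ?_) h2)
  intro z hz
  rw [Finset.mem_filter] at hz ⊢
  refine ⟨Finset.mem_univ _, ?_⟩
  have h4 := hz.2
  subst h4
  exact ⟨fun j => rfl, fun m m' => rfl, fun m => rfl⟩

end Pat

end H70.HP
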