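import Mathlib
import Pool.Agent.Helper70K1.HP.Quad

/-!
The lower bound for problems that contain hidden tuples of vectors with a given sum.
-/

set_option linter.unusedSectionVars false

namespace H70.HP

open Finset DomAC0 H568R2 SmallDepth H592R3 H592R3.Hp

/-- The game is an interactive proof for the set `No` against the set `Yes`, or it is a
randomized circuit that decides between `Yes` and `No`. -/
def Decides {J : Type} (G : Game J) (Yes No : (J → Bool) → Prop) : Prop :=
  ((∀ x, No x → 2 / 3 ≤ G.value x) ∧ (∀ x, Yes x → G.value x ≤ 1 / 3)) ∨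
  ∃ (N : ℕ) (p : Fin N → ℝ) (C : Fin N → Circuit J), (∀ i, 0 ≤ p i) ∧ ∑ i, p i = 1 ∧
    G = Game.arthur N p (fun i => .verify (C i)) ∧
    (∀ x, No x → (2 : ℝ) / 3 ≤ ∑ i, if (C i).eval x = false then p i else 0) ∧
    (∀ x, Yes x → (2 : ℝ) / 3 ≤ ∑ i, if (C i).eval x = true then p i else 0)

open Classical in
lemma Decides.pt {I M T J : Type} [Fintype I] [DecidableEq I] [Fintype M] [DecidableEq M]
    [Fintype T] (vr : T → M → I) (σ : (I → Bool) → (J → Bool)) {G : Game J} {d S g : ℕ}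
    (hG : G.Bounded d S g) {Yes No : (J → Bool) → Prop} (hD : Decides G Yes No)
    (Uq : T → (I → Bool) → Prop) (hno : ∀ a X, Uq a X → No (σ X))
    (hyes : ∀ a X, Uq a X → Yes (σ (plant (vr a) univ X))) (X : I → Bool) :
    ∑ a : T, (1 / 3) * (1 - (if ¬ Uq a X then (1 : ℝ) else 0)) ≤ ms vr σ G X := by
  rcases hD with ⟨h1, h2⟩ | ⟨N, p, C, hp0, hp1, hGe, h1, h2⟩
  · exact game_pt vr σ G hG Uq (fun a X hU => h1 _ (hno a X hU)) (fun a X hU => h2 _ (hyes a X hU))
      X
  · rw [hGe]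
    exact rand_pt vr σ p hp0 hp1 C Uq (fun a X hU => h1 _ (hno a X hU))
      (fun a X hU => h2 _ (hyes a X hU)) X

section Core
variable {M J Lt : Type} [Fintype M] [DecidableEq M] [Fintype Lt] [DecidableEq Lt]

/-- The planted positions. -/
noncomputable def vrq {k N D p : ℕ} (lc : (Fin k → Fin N) → M → Lt) {P : (M → Vc D p) → Prop}
    (a : (Fin k → Fin N) × {z : M → Vc D p // P z}) (m : M) : (M × Lt) × Fin (p ^ D) :=
  ((m, lc a.1 m), finFunctionFinEquiv (a.2.1 m))

lemma vrq_inj {k N D p : ℕ} (lc : (Fin k → Fin N) → M → Lt) {P : (M → Vc D p) → Prop}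
    (a : (Fin k → Fin N) × {z : M → Vc D p // P z}) : Function.Injective (vrq lc a) :=
  fun _ _ h => congrArg (fun x => x.1.1) h

lemma vrq_image {k N D p : ℕ} (lc : (Fin k → Fin N) → M → Lt) {P : (M → Vc D p) → Prop}
    {a a' : (Fin k → Fin N) × {z : M → Vc D p // P z}} {H : Finset M}
    (h : H.image (vrq lc a) = H.image (vrq lc a')) {m : M} (hm : m ∈ H) :
    lc a.1 m = lc a'.1 m ∧ a.2.1 m = a'.2.1 m := by
  have h1 : vrq lc a m ∈ H.image (vrq lc a') := by
    rw [← h]; exact Finset.mem_image_of_mem _ hm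
  obtain ⟨m', _, h2⟩ := Finset.mem_image.1 h1
  have h3 : m' = m := congrArg (fun x => x.1.1) h2
  subst h3
  have h4 : lc a'.1 m' = lc a.1 m' := congrArg (fun x => x.1.2) h2
  have h5 : finFunctionFinEquiv (a'.2.1 m') = finFunctionFinEquiv (a.2.1 m') :=
    congrArg (fun x => x.2) h2
  exact ⟨h4.symm, (finFunctionFinEquiv.injective h5).symm⟩

open Classical in
/-- The bound for the number of plants with given positions. -/
noncomputable def kapq (k N D p NT : ℕ) (sc : M → Finset (Fin k)) (H : Finset M) : ℕ :=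
  if H = univ then NT else
    N ^ (k - (H.biUnion sc).card) * (p ^ D) ^ (Fintype.card M - (H.card + 1))

open Classical in
lemma kapq_count {k N D p : ℕ} (lc : (Fin k → Fin N) → M → Lt) (sc : M → Finset (Fin k))
    (hlc : ∀ c c' m, lc c m = lc c' m → ∀ i ∈ sc m, c i = c' i)
    (t : Fin D → ℕ) (g1 : M → M → ℕ) (g2 : M → ℕ)
    (H : Finset M) (V : Finset ((M × Lt) × Fin (p ^ D))) :
    (univ.filter (fun a : (Fin k → Fin N) × {z : M → Vc D p // HasPat t g1 g2 z} =>
      H.image (vrq lc a) = V)).card ≤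
      kapq k N D p (Fintype.card ((Fin k → Fin N) × {z : M → Vc D p // HasPat t g1 g2 z}))
        sc H := by
  unfold kapq
  split_ifs with hH
  · exact (Finset.card_filter_le _ _).trans (le_of_eq Finset.card_univ)
  · rcases (univ.filter (fun a : (Fin k → Fin N) × {z : M → Vc D p // HasPat t g1 g2 z} =>
      H.image (vrq lc a) = V)).eq_empty_or_nonempty with he | ⟨a0, ha0⟩
    · rw [he]; simp
    have ha0' := (Finset.mem_filter.1 ha0).2
    refine le_trans ?_ (Nat.mul_le_mul (card_fun_le (H.biUnion sc) a0.1)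
      (card_sum_le t H hH a0.2.1))
    rw [← Finset.card_product]
    apply Finset.card_le_card_of_injOn (fun a => (a.1, a.2.1))
    · intro a ha
      have ha' := (Finset.mem_filter.1 ha).2
      have h1 : H.image (vrq lc a) = H.image (vrq lc a0) := ha'.trans ha0'.symm
      rw [Finset.mem_coe, Finset.mem_product, Finset.mem_filter, Finset.mem_filter]
      refine ⟨⟨Finset.mem_univ _, ?_⟩, Finset.mem_univ _, a.2.2.1, ?_⟩
      · intro i hi
        obtain ⟨m, hm, hi2⟩ := Finset.mem_biUnion.1 hi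
        exact hlc _ _ m (vrq_image lc h1 hm).1 i hi2
      · intro m hm
        exact (vrq_image lc h1 hm).2
    · intro a _ a' _ h
      have h' : (a.1, a.2.1) = (a'.1, a'.2.1) := h
      have h1 : a.1 = a'.1 := (Prod.mk.inj h').1
      have h2 : a.2.1 = a'.2.1 := (Prod.mk.inj h').2
      exact Prod.ext h1 (Subtype.ext h2)

open Classical in
/-- The lower bound. -/
theorem quad_core [Nonempty M] [Fintype J] {k N D p : ℕ} (hN : 1 ≤ N) (hp : 1 ≤ p)
    (hNk : N ^ k ≤ p ^ D)
    (lc : (Fin k → Fin N) → M → Lt) (sc : M → Finset (Fin k))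
    (hlc : ∀ c c' m, lc c m = lc c' m → ∀ i ∈ sc m, c i = c' i)
    {Sm : Finset M → Prop} (h0 : Sm ∅) {Lv : ℕ}
    (hmedv : ∀ H, MedS Sm H → H ≠ univ ∧ Lv ≤ (H.biUnion sc).card)
    (hsmv : ∀ H, H.Nonempty → Sm H → H ≠ univ ∧ 1 ≤ (H.biUnion sc).card)
    {w : ℕ} (hw : 1 ≤ w) {Yes No : (J → Bool) → Prop}
    (hinst : ∀ (t : Fin D → ℕ) (g1 : M → M → ℕ) (g2 : M → ℕ),
      (∃ z0 : M → Vc D p, HasPat t g1 g2 z0) →
      ∃ inst : ((M × Lt) → Option (Vc D p)) → J → Bool,
        (∀ j, ∃ A : Finset (M × Lt), A.card ≤ w ∧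
          (∀ Dv Dv', (∀ e ∈ A, Dv e = Dv' e) → inst Dv j = inst Dv' j) ∧
          ∀ (c : Fin k → Fin N) (H : Finset M), (∀ m ∈ H, (m, lc c m) ∈ A) → Sm H) ∧
        (∀ Dv c z, HasPat t g1 g2 z → (∀ m, Dv (m, lc c m) = some (z m)) → Yes (inst Dv)) ∧
        (∀ Dv, (¬ ∃ c z, HasPat t g1 g2 z ∧ ∀ m, Dv (m, lc c m) = some (z m)) →
          No (inst Dv)))
    (G : Game J) {d S g : ℕ} (hG : G.Bounded d S g) (hD : Decides G Yes No)
    {h0' h l : ℕ} (hh0 : 1 ≤ h0') (hh : h = w * h0') (hl : 1 ≤ l)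
    (hlen : Fintype.card J + S + 2 ≤ 2 ^ l)
    {Gc : ℝ} (hGc : Gc = ((Fintype.card M) ^ D * (Fintype.card M * D * p ^ 2 + 1) ^
        (Fintype.card M * Fintype.card M + Fintype.card M) : ℕ))
    (hN1 : 48 * (2 * (48 * (Fintype.card M : ℕ) * (24 * (h : ℝ)) ^ d * h * l)) ^
      (Fintype.card M) * S * Gc ≤ (N : ℝ) ^ Lv)
    (hN2 : 48 * (2 * (48 * (Fintype.card M : ℕ) * (24 * (h : ℝ)) ^ d * h * l)) ^
      (Fintype.card M) * Gc ≤ N)
    (hN3 : (2 : ℝ) ^ g * 6 ^ (g + 2) * (g + 2) * (((S : ℝ) + 1) * 2 ^ (Fintype.card M) *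
      (24 * (Fintype.card M : ℕ) * (p ^ D : ℕ) * (24 * (h : ℝ)) ^ d) ^ (Fintype.card M)) *
      (Fintype.card (M × Lt) * (1 / 12) ^ (h0' + 1) +
        d * ((S * (Fintype.card J + S + 1) : ℕ) : ℝ) * (1 / 2) ^ (h + 1)) < 1 / 2) : False := by
  obtain ⟨t, g1, g2, hpat⟩ := exists_pat (M := M) (D := D) hp
  obtain ⟨m0, hm0⟩ : ∃ m0, m0 = Fintype.card M := ⟨_, rfl⟩
  have hm1 : 1 ≤ m0 := by rw [hm0]; exact Fintype.card_pos
  obtain ⟨R, hR⟩ : ∃ R, R = p ^ D := ⟨_, rfl⟩
  have hR1 : 1 ≤ R := by rw [hR]; exact Nat.one_le_pow _ _ hp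
  obtain ⟨Gn, hGn⟩ : ∃ Gn : ℕ, Gn = ((Fintype.card M) ^ D * (Fintype.card M * D * p ^ 2 + 1) ^
        (Fintype.card M * Fintype.card M + Fintype.card M)) := ⟨_, rfl⟩
  rw [← hGn] at hGc
  obtain ⟨Zs, hZs⟩ : ∃ Zs : ℕ, Zs = (univ.filter (fun z : M → Vc D p =>
    HasPat t g1 g2 z)).card := ⟨_, rfl⟩
  rw [← hZs] at hpat
  have hGn1 : 1 ≤ Gn := by
    rw [hGn, ← hm0]
    exact Nat.mul_pos (by positivity) (by positivity)
  have hGc1 : (1 : ℝ) ≤ Gc := by rw [hGc]; exact_mod_cast hGn1
  have hGc0 : 0 < Gc := by linarith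
  -- the number of patterns
  have hZG : R ^ (m0 - 1) ≤ Zs * Gn := by
    have e1 : Zs * ((Fintype.card M * p) ^ D * (Fintype.card M * D * p ^ 2 + 1) ^
        (Fintype.card M * Fintype.card M + Fintype.card M)) = (Zs * Gn) * R := by
      rw [hGn, hR, mul_pow]; ring
    rw [e1, ← hR, ← hm0] at hpat
    have e2 : R ^ m0 = R ^ (m0 - 1) * R := by
      rw [← pow_succ]
      congr 1
      omega
    rw [e2] at hpat
    exact Nat.le_of_mul_le_mul_right hpat hR1
  have hZs1 : 0 < Zs := by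
    rcases Nat.eq_zero_or_pos Zs with h | h
    · rw [h, zero_mul] at hZG
      have : 0 < R ^ (m0 - 1) := by positivity
      omega
    · exact h
  have hex : ∃ z0 : M → Vc D p, HasPat t g1 g2 z0 := by
    rw [hZs] at hZs1
    obtain ⟨z0, hz0⟩ := Finset.card_pos.1 hZs1
    exact ⟨z0, (Finset.mem_filter.1 hz0).2⟩
  obtain ⟨inst, hi1, hi2, hi3⟩ := hinst t g1 g2 hex
  -- the plants
  have hcardT : Fintype.card ((Fin k → Fin N) × {z : M → Vc D p // HasPat t g1 g2 z}) =
      N ^ k * Zs := by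
    rw [Fintype.card_prod, Fintype.card_fun, Fintype.card_fin, Fintype.card_fin, hZs,
      Fintype.card_subtype]
  have hZsle : Zs ≤ R ^ (m0 - 1) := by
    obtain ⟨z0, _⟩ := hex
    have h1 := card_sum_le t (∅ : Finset M) (Finset.univ_nonempty.ne_empty).symm z0
    rw [Finset.card_empty, zero_add, ← hR, ← hm0] at h1
    refine le_trans ?_ h1
    rw [hZs]
    apply Finset.card_le_card
    intro z hz
    rw [Finset.mem_filter] at hz ⊢
    exact ⟨Finset.mem_univ _, hz.2.1, by simp⟩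
  have hRR : (1 : ℝ) ≤ R := by exact_mod_cast hR1
  have hR0 : (0 : ℝ) < R := by linarith
  have hNR : (1 : ℝ) ≤ N := by exact_mod_cast hN
  have hm0R : (1 : ℝ) ≤ m0 := by exact_mod_cast hm1
  have hcount : ∀ (H : Finset M) (L : ℕ), H ≠ univ → L ≤ (H.biUnion sc).card →
      (kapq k N D p (Fintype.card ((Fin k → Fin N) × {z : M → Vc D p // HasPat t g1 g2 z}))
        sc H : ℝ) * ((p ^ D : ℕ) : ℝ) ^ H.card * ((N : ℝ) ^ L / Gc) ≤
      Fintype.card ((Fin k → Fin N) × {z : M → Vc D p // HasPat t g1 g2 z}) := by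
    intro H L hH hL
    have hHc : H.card + 1 ≤ m0 := by
      rw [hm0]
      exact Finset.card_lt_univ_of_notMem (by
        by_contra hcon
        push Not at hcon
        exact hH (Finset.eq_univ_iff_forall.2 hcon) : ∃ x, x ∉ H).choose_spec
    have hv : (H.biUnion sc).card ≤ k := by
      refine (Finset.card_le_univ _).trans (le_of_eq (Fintype.card_fin k))
    rw [hcardT]
    unfold kapq
    rw [if_neg hH, ← hR, ← hm0]
    obtain ⟨v, hvd⟩ : ∃ v, v = (H.biUnion sc).card := ⟨_, rfl⟩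
    rw [← hvd] at hL hv ⊢
    have e1 : ((N ^ (k - v) * R ^ (m0 - (H.card + 1)) : ℕ) : ℝ) * (R : ℝ) ^ H.card =
        (N : ℝ) ^ (k - v) * (R : ℝ) ^ (m0 - 1) := by
      push_cast
      rw [mul_assoc, ← pow_add]
      congr 2
      omega
    have e2 : (R : ℝ) ^ (m0 - 1) ≤ Zs * Gc := by
      rw [hGc]
      exact_mod_cast hZG
    have e3 : ((N ^ (k - v) * R ^ (m0 - (H.card + 1)) : ℕ) : ℝ) * (R : ℝ) ^ H.card *
        ((N : ℝ) ^ L / Gc) ≤ (N : ℝ) ^ k * Zs := by
      rw [e1]
      calc (N : ℝ) ^ (k - v) * (R : ℝ) ^ (m0 - 1) * ((N : ℝ) ^ L / Gc) ≤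
          (N : ℝ) ^ (k - v) * (Zs * Gc) * ((N : ℝ) ^ L / Gc) := by gcongr
        _ = (N : ℝ) ^ (k - v + L) * Zs := by
            rw [pow_add]
            field_simp
        _ ≤ (N : ℝ) ^ k * Zs := by
            apply mul_le_mul_of_nonneg_right _ (by positivity)
            exact pow_le_pow_right₀ hNR (by omega)
    push_cast at e3 ⊢
    exact e3
  -- the decoded table
  obtain ⟨tab, htab⟩ : ∃ tab : (((M × Lt) × Fin (p ^ D)) → Bool) → ((M × Lt) → Option (Vc D p)),
      tab = fun X e => (dec X e).map finFunctionFinEquiv.symm := ⟨_, rfl⟩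
  obtain ⟨Uq, hUq⟩ : ∃ Uq : ((Fin k → Fin N) × {z : M → Vc D p // HasPat t g1 g2 z}) →
      (((M × Lt) × Fin (p ^ D)) → Bool) → Prop,
      Uq = fun a X => (∀ m r, X ((m, lc a.1 m), r) = false) ∧
        ∀ a' : (Fin k → Fin N) × {z : M → Vc D p // HasPat t g1 g2 z}, ∃ m,
          X (vrq lc a' m) = false := ⟨_, rfl⟩
  refine cell_core (E := M × Lt) (R := p ^ D) h0 (vrq lc) (vrq_inj lc) _
    (kapq_count lc sc hlc t g1 g2) ?_ (by rw [← hR]; exact hR1) (K := Fintype.card M) (w := w)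
    (h0' := h0') (by rw [← hm0]; exact hm1) hw hh0 (fun X => inst (tab X)) ?_ G hG hh hl hlen
    Uq ?_ (Decides.pt (vrq lc) (fun X => inst (tab X)) hG hD Uq ?_ ?_)
    (Q1 := (N : ℝ) ^ Lv / Gc) (Q2 := (N : ℝ) ^ 1 / Gc) (by positivity) (by positivity)
    (fun H hH => hcount H Lv (hmedv H hH).1 (hmedv H hH).2)
    (fun H hH1 hH2 => hcount H 1 (hsmv H hH1 hH2).1 (hsmv H hH1 hH2).2)
    (by rw [le_div_iff₀ hGc0]; exact hN1) (by rw [le_div_iff₀ hGc0, pow_one]; exact hN2) hN3
  · rw [hcardT]; positivity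
  · intro j
    obtain ⟨A, hA1, hA2, hA3⟩ := hi1 j
    refine ⟨A, hA1, ?_, ?_⟩
    · intro X X' hX
      apply hA2
      intro e he
      rw [htab]
      show (dec X e).map _ = (dec X' e).map _
      rw [dec_congr (fun r => hX e he r)]
    · intro a H hH
      exact hA3 a.1 H hH
  · intro a
    have hp1 : (1 : ℝ) / (24 * (Fintype.card M : ℕ) * ((p ^ D : ℕ) : ℝ)) ≤ 1 := by
      rw [← hm0, ← hR, div_le_one (by positivity)]
      nlinarith
    have hp0 : (0 : ℝ) ≤ 1 / (24 * (Fintype.card M : ℕ) * ((p ^ D : ℕ) : ℝ)) := by positivity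
    have h1 := ex_union (I := (M × Lt) × Fin (p ^ D)) hp0 hp1
      (ι := (M × Fin (p ^ D)) ⊕ ((Fin k → Fin N) × {z : M → Vc D p // HasPat t g1 g2 z}))
      (Sum.elim (fun x => {((x.1, lc a.1 x.1), x.2)}) (fun a' => univ.image (vrq lc a')))
    refine le_trans ?_ (h1.trans ?_)
    · apply Ex_mono (vp_nonneg hp0 hp1)
      intro X
      by_cases hX : Uq a X
      · rw [if_neg (not_not.2 hX)]
        split_ifs <;> norm_num
      · rw [if_pos hX, if_pos]
        rw [hUq] at hX
        simp only [not_and_or] at hX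
        rcases hX with hX | hX
        · push Not at hX
          obtain ⟨m, r, hmr⟩ := hX
          refine ⟨Sum.inl (m, r), ?_⟩
          intro i hi
          simp only [Sum.elim_inl, Finset.mem_singleton] at hi
          rw [hi]
          simpa using hmr
        · push Not at hX
          obtain ⟨a', ha'⟩ := hX
          refine ⟨Sum.inr a', ?_⟩
          intro i hi
          simp only [Sum.elim_inr, Finset.mem_image] at hi
          obtain ⟨m, _, rfl⟩ := hi
          simpa using ha' m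
    · rw [Fintype.sum_sum_type]
      obtain ⟨q, hq'⟩ : ∃ q : ℝ, q = 1 / (24 * (Fintype.card M : ℕ) * ((p ^ D : ℕ) : ℝ)) :=
        ⟨_, rfl⟩
      have hq : q = 1 / (24 * m0 * (R : ℝ)) := by rw [hq', hm0, hR]
      have hq0 : 0 < q := by rw [hq]; positivity
      rw [← hq']
      have s1 : ∑ x : M × Fin (p ^ D), q ^ (Sum.elim (β := ((Fin k → Fin N) ×
          {z : M → Vc D p // HasPat t g1 g2 z}))
          (fun x : M × Fin (p ^ D) => ({((x.1, lc a.1 x.1), x.2)} :
            Finset ((M × Lt) × Fin (p ^ D)))) (fun a' => univ.image (vrq lc a'))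
            (Sum.inl x)).card = 1 / 24 := by
        have : ∀ x : M × Fin (p ^ D), q ^ (Sum.elim (β := ((Fin k → Fin N) ×
          {z : M → Vc D p // HasPat t g1 g2 z}))
          (fun x : M × Fin (p ^ D) => ({((x.1, lc a.1 x.1), x.2)} :
            Finset ((M × Lt) × Fin (p ^ D)))) (fun a' => univ.image (vrq lc a'))
            (Sum.inl x)).card = q := by
          intro x
          rw [Sum.elim_inl, Finset.card_singleton, pow_one]
        rw [Finset.sum_congr rfl fun x _ => this x, Finset.sum_const, Finset.card_univ,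
          Fintype.card_prod, Fintype.card_fin, ← hm0, ← hR, nsmul_eq_mul, hq]
        push_cast
        field_simp
      have s2 : ∑ x : (Fin k → Fin N) × {z : M → Vc D p // HasPat t g1 g2 z},
          q ^ (Sum.elim (fun x : M × Fin (p ^ D) => ({((x.1, lc a.1 x.1), x.2)} :
            Finset ((M × Lt) × Fin (p ^ D)))) (fun a' => univ.image (vrq lc a'))
            (Sum.inr x)).card ≤ 1 / 24 := by
        have : ∀ x : (Fin k → Fin N) × {z : M → Vc D p // HasPat t g1 g2 z},
          q ^ (Sum.elim (fun x : M × Fin (p ^ D) => ({((x.1, lc a.1 x.1), x.2)} :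
            Finset ((M × Lt) × Fin (p ^ D)))) (fun a' => univ.image (vrq lc a'))
            (Sum.inr x)).card = q ^ m0 := by
          intro x
          rw [Sum.elim_inr, Finset.card_image_of_injective _ (vrq_inj lc x), Finset.card_univ,
            hm0]
        rw [Finset.sum_congr rfl fun x _ => this x, Finset.sum_const, Finset.card_univ,
          hcardT, nsmul_eq_mul]
        have h2 : ((N ^ k * Zs : ℕ) : ℝ) ≤ (R : ℝ) ^ m0 := by
          have : N ^ k * Zs ≤ R ^ m0 := by
            calc N ^ k * Zs ≤ R * R ^ (m0 - 1) := Nat.mul_le_mul (by rw [hR]; exact hNk) hZsle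
              _ = R ^ m0 := by
                  rw [← pow_succ']
                  congr 1
                  omega
          exact_mod_cast this
        calc ((N ^ k * Zs : ℕ) : ℝ) * q ^ m0 ≤ (R : ℝ) ^ m0 * q ^ m0 := by gcongr
          _ = (R * q) ^ m0 := by rw [mul_pow]
          _ ≤ (1 / 24) ^ m0 := by
              apply pow_le_pow_left₀ (by positivity)
              rw [hq]
              have : (R : ℝ) * (1 / (24 * m0 * R)) = 1 / 24 * (1 / m0) := by field_simp
              rw [this]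
              have h3 : (1 : ℝ) / m0 ≤ 1 := by rw [div_le_one (by linarith)]; exact hm0R
              linarith
          _ ≤ (1 / 24) ^ 1 := pow_le_pow_of_le_one (by norm_num) (by norm_num) hm1
          _ = 1 / 24 := pow_one _
      rw [s1]
      linarith
  · intro a X hX
    rw [hUq] at hX
    apply hi3
    rintro ⟨c, z, hz, hc⟩
    obtain ⟨m, hm⟩ := hX.2 (c, ⟨z, hz⟩)
    have h1 := hc m
    rw [htab] at h1
    obtain ⟨r, hr1, hr2⟩ := Option.map_eq_some_iff.1 h1
    have h2 := ((dec_iff _ _ _).1 hr1).1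
    have h3 : r = finFunctionFinEquiv (z m) := by
      rw [← hr2, Equiv.apply_symm_apply]
    rw [h3] at h2
    have h4 : X (vrq lc ((c, ⟨z, hz⟩) : (Fin k → Fin N) ×
        {z : M → Vc D p // HasPat t g1 g2 z}) m) = true := h2
    rw [hm] at h4
    cases h4
  · intro a X hX
    rw [hUq] at hX
    apply hi2 _ a.1 a.2.1 a.2.2
    intro m
    rw [htab]
    show (dec (plant (vrq lc a) univ X) (m, lc a.1 m)).map _ = _
    have h1 : dec (plant (vrq lc a) univ X) (m, lc a.1 m) =
        some (finFunctionFinEquiv (a.2.1 m)) := by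
      rw [dec_iff]
      constructor
      · unfold plant
        simp only [Bool.or_eq_true, decide_eq_true_eq]
        exact Or.inl ⟨m, Finset.mem_univ _, rfl⟩
      · intro r' hr'
        unfold plant at hr'
        simp only [Bool.or_eq_true, decide_eq_true_eq] at hr'
        rcases hr' with ⟨m', _, h2⟩ | h2
        · have h3 : m' = m := congrArg (fun x => x.1.1) h2
          subst h3
          exact (congrArg Prod.snd h2).symm
        · rw [hX.1 m r'] at h2
          cases h2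
    rw [h1, Option.map_some, Equiv.symm_apply_apply]

end Core

end H70.HP
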