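import Mathlib

/-!
The choice of the parameters.
-/

namespace H70.HP

lemma pow_small (A : ℕ) (hA : 1 ≤ A) (ε : ℝ) (hε : 0 < ε) : ∃ C : ℝ, 0 < C ∧
    ∀ n d g : ℕ, 2 ≤ n → 1 ≤ d →
    C * (d * Real.log (Real.log n + g + 2)) ≤ Real.log n →
    ((A * (g + (Nat.log 2 n + 1)) : ℕ) : ℝ) ^ (A * d) ≤ (n : ℝ) ^ ε := by
  refine ⟨(A + 2) * A / ε, by positivity, ?_⟩
  intro n d g hn hd hC
  have hnR : (2 : ℝ) ≤ n := by exact_mod_cast hn
  have hn0 : (0 : ℝ) < n := by linarith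
  have hn1 : (1 : ℝ) ≤ n := by linarith
  have hlogn : 0 ≤ Real.log n := Real.log_nonneg hn1
  obtain ⟨u, hu⟩ : ∃ u : ℝ, u = Real.log n + g + 2 := ⟨_, rfl⟩
  rw [← hu] at hC
  have hg0 : (0 : ℝ) ≤ g := by positivity
  have hu2 : 2 ≤ u := by rw [hu]; linarith
  have hu0 : 0 < u := by linarith
  have hu1 : 1 ≤ u := by linarith
  have hlamu : ((Nat.log 2 n + 1 : ℕ) : ℝ) ≤ 3 / 2 * Real.log n + 1 := by
    have h1 : 2 ^ Nat.log 2 n ≤ n := Nat.pow_log_le_self 2 (by omega)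
    have h2 : ((2 : ℝ)) ^ Nat.log 2 n ≤ n := by exact_mod_cast h1
    have h3 := Real.log_le_log (by positivity) h2
    rw [Real.log_pow] at h3
    have h4 := Real.log_two_gt_d9
    push_cast
    have h5 : (0 : ℝ) ≤ (Nat.log 2 n : ℝ) := by positivity
    nlinarith
  have hP : ((A * (g + (Nat.log 2 n + 1)) : ℕ) : ℝ) ≤ u ^ (A + 2) := by
    push_cast at hlamu ⊢
    have h1 : (A : ℝ) ≤ u ^ A := by
      have h2 : (A : ℝ) ≤ 2 ^ A := by exact_mod_cast (Nat.lt_two_pow_self (n := A)).le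
      exact h2.trans (pow_le_pow_left₀ (by norm_num) hu2 A)
    have h2 : (g : ℝ) + (Nat.log 2 n + 1) ≤ u ^ 2 := by
      have : (g : ℝ) + (Nat.log 2 n + 1) ≤ 2 * u := by rw [hu]; linarith
      nlinarith
    rw [pow_add]
    exact mul_le_mul h1 h2 (by positivity) (by positivity)
  refine (pow_le_pow_left₀ (by positivity) hP _).trans ?_
  rw [← pow_mul, ← Real.log_le_log_iff (by positivity) (by positivity), Real.log_pow,
    Real.log_rpow hn0]
  push_cast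
  have h2 := mul_le_mul_of_nonneg_left hC hε.le
  have h3 : ε * (((A : ℝ) + 2) * A / ε * (d * Real.log u)) =
      ((A : ℝ) + 2) * (A * d) * Real.log u := by
    field_simp
  rw [h3] at h2
  exact h2

lemma params7 (m0 K w b Cst : ℕ) (hK : 1 ≤ K) (hw : 1 ≤ w) (hCst : 1 ≤ Cst) (ε : ℝ)
    (hε : 0 < ε) : ∃ C : ℝ, 0 < C ∧
    ∀ n d g : ℕ, 2 ≤ n → 1 ≤ d →
    C * (d * Real.log (Real.log n + g + 2)) ≤ Real.log n →
    ∃ h0 h l : ℕ, 1 ≤ h0 ∧ h = w * h0 ∧ 1 ≤ l ∧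
      Cst * (48 * (2 * (48 * K * (24 * (h : ℝ)) ^ d * h * l)) ^ m0) ≤ (n : ℝ) ^ ε ∧
      ∀ S cJ cE R : ℕ, S ≤ n ^ b → cJ ≤ n ^ b → cE ≤ n ^ b → R ≤ n ^ b →
        cJ + S + 2 ≤ 2 ^ l ∧
        (2 : ℝ) ^ g * 6 ^ (g + 2) * (g + 2) * (((S : ℝ) + 1) * 2 ^ m0 *
        (24 * K * R * (24 * (h : ℝ)) ^ d) ^ m0) *
        (cE * (1 / 12) ^ (h0 + 1) +
          d * ((S * (cJ + S + 1) : ℕ) : ℝ) * (1 / 2) ^ (h + 1)) < 1 / 2 := by
  obtain ⟨A1, hA1⟩ : ∃ A1 : ℕ, A1 = 20 + m0 * (6 + K) + (3 * b + 1 + (b + 1) * m0) := ⟨_, rfl⟩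
  obtain ⟨A, hA⟩ : ∃ A : ℕ, A = 24 * w * A1 + 96 * K + (b + 2) + Cst * 48 + (1 + 4 * m0) :=
    ⟨_, rfl⟩
  have hA0 : 1 ≤ A := by omega
  obtain ⟨C1, hC1, H1⟩ := pow_small A hA0 ε hε
  obtain ⟨C2, hC2, H2⟩ := pow_small A hA0 1 one_pos
  refine ⟨C1 + C2, by positivity, ?_⟩
  intro n d g hn hd hC
  have hnR : (2 : ℝ) ≤ n := by exact_mod_cast hn
  have hn0 : (0 : ℝ) < n := by linarith
  have hn1 : (1 : ℝ) ≤ n := by linarith
  have hdR : (1 : ℝ) ≤ d := by exact_mod_cast hd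
  have hlogn : 0 ≤ Real.log n := Real.log_nonneg hn1
  have hv0 : 0 ≤ (d : ℝ) * Real.log (Real.log n + g + 2) := by
    apply mul_nonneg (by positivity)
    apply Real.log_nonneg
    have : (0 : ℝ) ≤ g := by positivity
    linarith
  have K1 := H1 n d g hn hd (by nlinarith)
  have K2 := H2 n d g hn hd (by nlinarith)
  rw [Real.rpow_one] at K2
  obtain ⟨lam, hlam⟩ : ∃ lam : ℕ, lam = Nat.log 2 n + 1 := ⟨_, rfl⟩
  rw [← hlam] at K1 K2
  have hlam2 : 2 ≤ lam := by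
    have : 0 < Nat.log 2 n := Nat.log_pos (by norm_num) hn
    omega
  have hnlam : n ≤ 2 ^ lam := by
    rw [hlam]
    exact (Nat.lt_pow_succ_log_self (by norm_num) n).le
  obtain ⟨h0, hh0⟩ : ∃ h0 : ℕ, h0 = A1 * (g + lam) := ⟨_, rfl⟩
  obtain ⟨h, hh⟩ : ∃ h : ℕ, h = w * h0 := ⟨_, rfl⟩
  obtain ⟨l, hl⟩ : ∃ l : ℕ, l = (b + 2) * lam := ⟨_, rfl⟩
  obtain ⟨P, hP⟩ : ∃ P : ℕ, P = A * (g + lam) := ⟨_, rfl⟩
  rw [← hP] at K1 K2
  have hgl : 1 ≤ g + lam := by omega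
  have hPA : A ≤ P := by rw [hP]; exact Nat.le_mul_of_pos_right _ hgl
  have hP1 : 1 ≤ P := by omega
  have hPR : (1 : ℝ) ≤ P := by exact_mod_cast hP1
  have hP24 : 24 * h ≤ P := by
    calc 24 * h = (24 * w * A1) * (g + lam) := by rw [hh, hh0]; ring
      _ ≤ A * (g + lam) := Nat.mul_le_mul_right _ (by omega)
      _ = P := hP.symm
  have hPl : l ≤ P := by
    calc l = (b + 2) * lam := hl
      _ ≤ A * (g + lam) := Nat.mul_le_mul (by omega) (by omega)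
      _ = P := hP.symm
  have hA120 : 20 ≤ A1 := by omega
  have hh01 : 1 ≤ h0 := by rw [hh0]; exact Nat.mul_pos (by omega) hgl
  have hh1 : 1 ≤ h := by rw [hh]; exact Nat.mul_pos hw hh01
  have hl1 : 1 ≤ l := by rw [hl]; exact Nat.mul_pos (by omega) (by omega)
  have hhR : (1 : ℝ) ≤ h := by exact_mod_cast hh1
  have hP24R : 24 * (h : ℝ) ≤ P := by exact_mod_cast hP24
  have hPlR : (l : ℝ) ≤ P := by exact_mod_cast hPl
  have hPK : 96 * (K : ℝ) ≤ P := by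
    have : 96 * K ≤ P := by omega
    exact_mod_cast this
  have hPC : (Cst : ℝ) * 48 ≤ P := by
    have : Cst * 48 ≤ P := by omega
    exact_mod_cast this
  have hhP : (h : ℝ) ≤ P := by linarith
  refine ⟨h0, h, l, hh01, hh, hl1, ?_, ?_⟩
  · calc Cst * (48 * (2 * (48 * K * (24 * (h : ℝ)) ^ d * h * l)) ^ m0) =
        (Cst * 48) * ((96 * K) * (24 * (h : ℝ)) ^ d * h * l) ^ m0 := by
          have : 2 * (48 * K * (24 * (h : ℝ)) ^ d * h * l) =
            (96 * K) * (24 * (h : ℝ)) ^ d * h * l := by ring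
          rw [this]; ring
      _ ≤ P * ((P : ℝ) * P ^ d * P * P) ^ m0 := by gcongr
      _ = (P : ℝ) ^ (1 + (d + 3) * m0) := by
          rw [pow_add, pow_mul, pow_one]
          congr 2
          ring
      _ ≤ (P : ℝ) ^ (A * d) := by
          apply pow_le_pow_right₀ hPR
          have e1 : (1 + 4 * m0) * d ≤ A * d := Nat.mul_le_mul_right _ (by omega)
          have e2 : 1 + (d + 3) * m0 ≤ (1 + 4 * m0) * d := by nlinarith
          omega
      _ ≤ _ := K1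
  · intro S cJ cE R hS hJ hE hR
    have hn2 : ∀ k : ℕ, (n : ℕ) ^ k ≤ 2 ^ (lam * k) := by
      intro k
      calc n ^ k ≤ (2 ^ lam) ^ k := Nat.pow_le_pow_left hnlam k
        _ = 2 ^ (lam * k) := by rw [pow_mul]
    have hS2 : S ≤ 2 ^ (lam * b) := hS.trans (hn2 b)
    have hJ2 : cJ ≤ 2 ^ (lam * b) := hJ.trans (hn2 b)
    have hE2 : cE ≤ 2 ^ (lam * b) := hE.trans (hn2 b)
    have hR2 : R ≤ 2 ^ (lam * b) := hR.trans (hn2 b)
    have h1b : 1 ≤ 2 ^ (lam * b) := Nat.one_le_two_pow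
    constructor
    · have e1 : cJ + S + 2 ≤ 4 * 2 ^ (lam * b) := by omega
      calc cJ + S + 2 ≤ 4 * 2 ^ (lam * b) := e1
        _ = 2 ^ (lam * b + 2) := by rw [pow_add]; ring
        _ ≤ 2 ^ l := by
            apply Nat.pow_le_pow_right (by norm_num)
            rw [hl]
            nlinarith
    · have hdn : (24 * (h : ℝ)) ^ d ≤ 2 ^ lam := by
        calc (24 * (h : ℝ)) ^ d ≤ (P : ℝ) ^ d := pow_le_pow_left₀ (by positivity) hP24R d
          _ ≤ (P : ℝ) ^ (A * d) := by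
              apply pow_le_pow_right₀ hPR
              exact Nat.le_mul_of_pos_left _ hA0
          _ ≤ n := K2
          _ ≤ 2 ^ lam := by exact_mod_cast hnlam
      have hd1 : (d : ℝ) ≤ 2 ^ lam := by
        refine le_trans ?_ hdn
        have h2 : ((d : ℕ) : ℝ) ≤ 2 ^ d := by exact_mod_cast (Nat.lt_two_pow_self (n := d)).le
        refine h2.trans (pow_le_pow_left₀ (by norm_num) (by linarith) d)
      have hSR : (S : ℝ) ≤ 2 ^ (lam * b) := by exact_mod_cast hS2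
      have hJR : (cJ : ℝ) ≤ 2 ^ (lam * b) := by exact_mod_cast hJ2
      have hER : (cE : ℝ) ≤ 2 ^ (lam * b) := by exact_mod_cast hE2
      have hRR : (R : ℝ) ≤ 2 ^ (lam * b) := by exact_mod_cast hR2
      have h1bR : (1 : ℝ) ≤ 2 ^ (lam * b) := one_le_pow₀ (by norm_num)
      have h1lR : (1 : ℝ) ≤ 2 ^ lam := one_le_pow₀ (by norm_num)
      -- the factors
      have f1 : (6 : ℝ) ^ (g + 2) ≤ 2 ^ (3 * g + 6) := by
        calc (6 : ℝ) ^ (g + 2) ≤ 8 ^ (g + 2) := pow_le_pow_left₀ (by norm_num) (by norm_num) _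
          _ = 2 ^ (3 * g + 6) := by
              rw [show (8 : ℝ) = 2 ^ 3 by norm_num, ← pow_mul]; congr 1
      have f2 : (g : ℝ) + 2 ≤ 2 ^ (g + 1) := by
        have h2 : g + 1 ≤ 2 ^ g := Nat.lt_two_pow_self
        have h3 : g + 2 ≤ 2 ^ (g + 1) := by rw [pow_succ]; omega
        exact_mod_cast h3
      have f3 : (S : ℝ) + 1 ≤ 2 ^ (lam * b + 1) := by
        rw [pow_succ]
        linarith
      have f4 : (24 * K * R * (24 * (h : ℝ)) ^ d) ^ m0 ≤ 2 ^ ((5 + K + lam * b + lam) * m0) := by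
        rw [pow_mul]
        apply pow_le_pow_left₀ (by positivity)
        have hKp : (K : ℝ) ≤ 2 ^ K := by exact_mod_cast (Nat.lt_two_pow_self (n := K)).le
        calc 24 * K * R * (24 * (h : ℝ)) ^ d ≤ 2 ^ 5 * 2 ^ K * 2 ^ (lam * b) * 2 ^ lam := by
              gcongr
              norm_num
          _ = 2 ^ (5 + K + lam * b + lam) := by
              rw [pow_add, pow_add, pow_add]
      have f5 : cE * (1 / 12 : ℝ) ^ (h0 + 1) +
          d * ((S * (cJ + S + 1) : ℕ) : ℝ) * (1 / 2) ^ (h + 1) ≤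
          2 ^ (2 * (lam * b) + lam + 2) * (1 / 2) ^ (h0 + 1) := by
        have h1 : (1 / 12 : ℝ) ^ (h0 + 1) ≤ (1 / 2) ^ (h0 + 1) :=
          pow_le_pow_left₀ (by norm_num) (by norm_num) _
        have h1' : (1 / 2 : ℝ) ^ (h + 1) ≤ (1 / 2) ^ (h0 + 1) := by
          apply pow_le_pow_of_le_one (by norm_num) (by norm_num)
          have : h0 ≤ h := by rw [hh]; exact Nat.le_mul_of_pos_left _ hw
          omega
        have h2 : ((S * (cJ + S + 1) : ℕ) : ℝ) ≤ 2 ^ (lam * b) * (3 * 2 ^ (lam * b)) := by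
          push_cast
          apply mul_le_mul hSR (by linarith) (by positivity) (by positivity)
        have h3 : (cE : ℝ) + d * ((S * (cJ + S + 1) : ℕ) : ℝ) ≤
            2 ^ (2 * (lam * b) + lam + 2) := by
          have e3 : d * ((S * (cJ + S + 1) : ℕ) : ℝ) ≤
            2 ^ lam * (2 ^ (lam * b) * (3 * 2 ^ (lam * b))) :=
            mul_le_mul hd1 h2 (by positivity) (by positivity)
          have e4 : (2 : ℝ) ^ (2 * (lam * b) + lam + 2) =
              4 * (2 ^ lam * (2 ^ (lam * b) * 2 ^ (lam * b))) := by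
            rw [pow_add, pow_add, two_mul, pow_add]; ring
          have e5 : (2 : ℝ) ^ (lam * b) ≤ 2 ^ lam * (2 ^ (lam * b) * 2 ^ (lam * b)) := by
            have k1 : (2 : ℝ) ^ (lam * b) ≤ 2 ^ (lam * b) * 2 ^ (lam * b) := by nlinarith
            nlinarith
          rw [e4]
          linarith
        calc cE * (1 / 12 : ℝ) ^ (h0 + 1) +
            d * ((S * (cJ + S + 1) : ℕ) : ℝ) * (1 / 2) ^ (h + 1) ≤
            cE * (1 / 2 : ℝ) ^ (h0 + 1) +
            d * ((S * (cJ + S + 1) : ℕ) : ℝ) * (1 / 2) ^ (h0 + 1) := by gcongr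
          _ = ((cE : ℝ) + d * ((S * (cJ + S + 1) : ℕ) : ℝ)) * (1 / 2) ^ (h0 + 1) := by ring
          _ ≤ _ := by gcongr
      obtain ⟨Ex0, hEx⟩ : ∃ Ex0 : ℕ, Ex0 = g + (3 * g + 6) + (g + 1) + (lam * b + 1) + m0 +
          (5 + K + lam * b + lam) * m0 + (2 * (lam * b) + lam + 2) := ⟨_, rfl⟩
      have hlt : Ex0 + 1 ≤ h0 := by
        rw [hEx, hh0, hA1]
        have e1 : 20 * lam + 5 * g + m0 * (6 + K) * lam + (3 * b + 1 + (b + 1) * m0) * lam ≤
            (20 + m0 * (6 + K) + (3 * b + 1 + (b + 1) * m0)) * (g + lam) := by nlinarith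
        have e2 : m0 * (6 + K) ≤ m0 * (6 + K) * lam := Nat.le_mul_of_pos_right _ (by omega)
        nlinarith
      obtain ⟨r, hr⟩ : ∃ r : ℕ, h0 + 1 = Ex0 + (r + 2) := ⟨h0 + 1 - Ex0 - 2, by omega⟩
      calc (2 : ℝ) ^ g * 6 ^ (g + 2) * (g + 2) * (((S : ℝ) + 1) * 2 ^ m0 *
          (24 * K * R * (24 * (h : ℝ)) ^ d) ^ m0) *
          (cE * (1 / 12) ^ (h0 + 1) +
            d * ((S * (cJ + S + 1) : ℕ) : ℝ) * (1 / 2) ^ (h + 1)) ≤
          (2 : ℝ) ^ g * 2 ^ (3 * g + 6) * 2 ^ (g + 1) * (2 ^ (lam * b + 1) * 2 ^ m0 *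
          2 ^ ((5 + K + lam * b + lam) * m0)) *
          (2 ^ (2 * (lam * b) + lam + 2) * (1 / 2) ^ (h0 + 1)) := by gcongr
        _ = 2 ^ Ex0 * (1 / 2) ^ (h0 + 1) := by
            rw [hEx]
            simp only [pow_add]
            ring
        _ = (1 / 2) ^ (r + 2) := by
            rw [hr, pow_add (1 / 2 : ℝ), ← mul_assoc, ← mul_pow]
            norm_num
        _ < 1 / 2 := by
            calc (1 / 2 : ℝ) ^ (r + 2) ≤ (1 / 2) ^ 2 :=
                  pow_le_pow_of_le_one (by norm_num) (by norm_num) (by omega)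
              _ < 1 / 2 := by norm_num

end H70.HP
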