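import Mathlib
import Pool.Agent.Helper70K1.HP.Core
import Pool.Agent.Helper70K1.HP.Par

/-!
The lower bound for problems that contain hidden tuples of vectors with a given sum, for all
sufficiently small depths.
-/

set_option linter.unusedSectionVars false

namespace H70.HP

open Finset DomAC0 H568R2 SmallDepth H592R3 H592R3.Hp

lemma growth (m0 k : ℕ) (hm0 : 1 ≤ m0) (ε : ℝ) (hε : 0 < ε) : ∃ D : ℕ, 1 ≤ D ∧
    ∀ n : ℕ, 2 ≤ n → ∃ p : ℕ, 1 ≤ p ∧ n ^ k ≤ p ^ D ∧ p ^ D ≤ n ^ (D + k) ∧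
      (((m0 ^ D * (m0 * D * p ^ 2 + 1) ^ (m0 * m0 + m0) : ℕ) : ℕ) : ℝ) ≤
      ((m0 ^ D * (5 * m0 * D) ^ (m0 * m0 + m0) : ℕ) : ℝ) * (n : ℝ) ^ ε := by
  obtain ⟨q0, hq0⟩ : ∃ q0, q0 = m0 * m0 + m0 := ⟨_, rfl⟩
  obtain ⟨D, hD⟩ : ∃ D : ℕ, D = ⌈2 * k * q0 / ε⌉₊ + 1 := ⟨_, rfl⟩
  have hD1 : 1 ≤ D := by omega
  refine ⟨D, hD1, ?_⟩
  intro n hn
  rw [← hq0]
  have hnR : (2 : ℝ) ≤ n := by exact_mod_cast hn
  have hn0 : (0 : ℝ) < n := by linarith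
  have hn1 : (1 : ℝ) ≤ n := by linarith
  have hDR : (1 : ℝ) ≤ D := by exact_mod_cast hD1
  obtain ⟨x, hx⟩ : ∃ x : ℝ, x = (n : ℝ) ^ ((k : ℝ) / D) := ⟨_, rfl⟩
  have hx1 : 1 ≤ x := by rw [hx]; exact Real.one_le_rpow hn1 (by positivity)
  have hxD : x ^ D = (n : ℝ) ^ k := by
    rw [hx, ← Real.rpow_natCast, ← Real.rpow_mul hn0.le, ← Real.rpow_natCast]
    congr 1
    field_simp
  refine ⟨⌊x⌋₊ + 1, by omega, ?_, ?_, ?_⟩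
  · have h1 : x ≤ ((⌊x⌋₊ + 1 : ℕ) : ℝ) := by
      push_cast
      exact (Nat.lt_floor_add_one x).le
    have h2 := pow_le_pow_left₀ (by linarith) h1 D
    rw [hxD] at h2
    exact_mod_cast h2
  · have h1 : ((⌊x⌋₊ + 1 : ℕ) : ℝ) ≤ 2 * x := by
      push_cast
      have := Nat.floor_le (by linarith : 0 ≤ x)
      linarith
    have h2 := pow_le_pow_left₀ (by positivity) h1 D
    rw [mul_pow, hxD] at h2
    have h3 : (2 : ℝ) ^ D * (n : ℝ) ^ k ≤ (n : ℝ) ^ (D + k) := by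
      rw [pow_add]
      gcongr
    exact_mod_cast h2.trans h3
  · have h1 : ((⌊x⌋₊ + 1 : ℕ) : ℝ) ≤ 2 * x := by
      push_cast
      have := Nat.floor_le (by linarith : 0 ≤ x)
      linarith
    have hm0R : (1 : ℝ) ≤ m0 := by exact_mod_cast hm0
    have h2 : ((m0 * D * (⌊x⌋₊ + 1) ^ 2 + 1 : ℕ) : ℝ) ≤ 5 * m0 * D * x ^ 2 := by
      have h3 : ((⌊x⌋₊ + 1 : ℕ) : ℝ) ^ 2 ≤ 4 * x ^ 2 := by
        calc ((⌊x⌋₊ + 1 : ℕ) : ℝ) ^ 2 ≤ (2 * x) ^ 2 := pow_le_pow_left₀ (by positivity) h1 2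
          _ = 4 * x ^ 2 := by ring
      have h4 : (1 : ℝ) ≤ m0 * D * x ^ 2 := by
        have e1 : (1 : ℝ) ≤ m0 * D := by nlinarith
        have e2 : (1 : ℝ) ≤ x ^ 2 := by nlinarith
        nlinarith
      push_cast at h3 ⊢
      have h5 : (m0 : ℝ) * D * (((⌊x⌋₊ : ℕ) : ℝ) + 1) ^ 2 ≤ m0 * D * (4 * x ^ 2) :=
        mul_le_mul_of_nonneg_left h3 (by positivity)
      linarith
    have h6 : (x ^ 2) ^ q0 ≤ (n : ℝ) ^ ε := by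
      have e1 : (x ^ 2) ^ q0 = (n : ℝ) ^ ((k : ℝ) / D * (2 * q0 : ℕ)) := by
        rw [Real.rpow_mul hn0.le, ← hx, Real.rpow_natCast, pow_mul]
      rw [e1]
      apply Real.rpow_le_rpow_of_exponent_le hn1
      have e2 : 2 * k * q0 / ε ≤ D := by
        rw [hD]
        push_cast
        have := Nat.le_ceil (2 * (k : ℝ) * q0 / ε)
        linarith
      rw [div_le_iff₀ hε] at e2
      have e3 : (k : ℝ) / D * ((2 * q0 : ℕ) : ℝ) = (2 * k * q0) / D := by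
        push_cast; ring
      rw [e3, div_le_iff₀ (by linarith)]
      linarith
    calc (((m0 ^ D * (m0 * D * (⌊x⌋₊ + 1) ^ 2 + 1) ^ q0 : ℕ) : ℕ) : ℝ) =
        (m0 : ℝ) ^ D * ((m0 * D * (⌊x⌋₊ + 1) ^ 2 + 1 : ℕ) : ℝ) ^ q0 := by push_cast; ring
      _ ≤ (m0 : ℝ) ^ D * (5 * m0 * D * x ^ 2) ^ q0 := by gcongr
      _ = (m0 : ℝ) ^ D * (5 * m0 * D) ^ q0 * (x ^ 2) ^ q0 := by rw [mul_pow]; ring
      _ ≤ (m0 : ℝ) ^ D * (5 * m0 * D) ^ q0 * (n : ℝ) ^ ε := by gcongr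
      _ = _ := by push_cast; ring

theorem quad_main {M : Type} [Fintype M] [DecidableEq M] [Nonempty M] (k : ℕ)
    (sc : M → Finset (Fin k)) {Sm : Finset M → Prop} (h0 : Sm ∅) {Lv : ℕ} (hLv : 1 ≤ Lv)
    (hmedv : ∀ H, MedS Sm H → H ≠ univ ∧ Lv ≤ (H.biUnion sc).card)
    (hsmv : ∀ H, H.Nonempty → Sm H → H ≠ univ ∧ 1 ≤ (H.biUnion sc).card)
    {w : ℕ} (hw : 1 ≤ w) (bJ cN : ℕ) (hcN : 1 ≤ cN) (ε : ℝ) (hε : 0 < ε) :
    ∃ C : ℝ, 0 < C ∧ ∀ n d g S : ℕ, 2 ≤ n → 1 ≤ d →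
      C * (d * Real.log (Real.log n + g + 2)) ≤ Real.log n →
      (S : ℝ) ≤ (n : ℝ) ^ ((Lv : ℝ) - ε) →
      ∀ N : ℕ, 1 ≤ N → N ≤ n → n ≤ cN * N →
      ∀ (J Lt : Type) [Fintype J] [Fintype Lt] [DecidableEq Lt], Fintype.card J ≤ n ^ bJ →
      Fintype.card Lt ≤ n ^ bJ →
      ∀ lc : (Fin k → Fin N) → M → Lt, (∀ c c' m, lc c m = lc c' m → ∀ i ∈ sc m, c i = c' i) →
      ∀ Yes No : (J → Bool) → Prop,
      (∀ (D p : ℕ) (t : Fin D → ℕ) (g1 : M → M → ℕ) (g2 : M → ℕ),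
        (∃ z0 : M → Vc D p, HasPat t g1 g2 z0) →
        ∃ inst : ((M × Lt) → Option (Vc D p)) → J → Bool,
          (∀ j, ∃ A : Finset (M × Lt), A.card ≤ w ∧
            (∀ Dv Dv', (∀ e ∈ A, Dv e = Dv' e) → inst Dv j = inst Dv' j) ∧
            ∀ (c : Fin k → Fin N) (H : Finset M), (∀ m ∈ H, (m, lc c m) ∈ A) → Sm H) ∧
          (∀ Dv c z, HasPat t g1 g2 z → (∀ m, Dv (m, lc c m) = some (z m)) → Yes (inst Dv)) ∧
          (∀ Dv, (¬ ∃ c z, HasPat t g1 g2 z ∧ ∀ m, Dv (m, lc c m) = some (z m)) →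
            No (inst Dv))) →
      ∀ G : Game J, G.Bounded d S g → ¬ Decides G Yes No := by
  obtain ⟨ε', hε'⟩ : ∃ ε' : ℝ, ε' = min ε 1 := ⟨_, rfl⟩
  have hε0 : 0 < ε' := by rw [hε']; exact lt_min hε one_pos
  have hε1 : ε' ≤ 1 := by rw [hε']; exact min_le_right _ _
  have hεε : ε' ≤ ε := by rw [hε']; exact min_le_left _ _
  obtain ⟨m0, hm0⟩ : ∃ m0, m0 = Fintype.card M := ⟨_, rfl⟩
  have hm1 : 1 ≤ m0 := by rw [hm0]; exact Fintype.card_pos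
  obtain ⟨D, hD1, hgr⟩ := growth m0 k hm1 (ε' / 2) (by linarith)
  obtain ⟨Cg, hCg⟩ : ∃ Cg : ℕ, Cg = m0 ^ D * (5 * m0 * D) ^ (m0 * m0 + m0) := ⟨_, rfl⟩
  rw [← hCg] at hgr
  have hCg1 : 1 ≤ Cg := by
    rw [hCg]
    have : 0 < 5 * m0 * D := by positivity
    exact Nat.mul_pos (by positivity) (by positivity)
  obtain ⟨b, hb⟩ : ∃ b, b = k + D + bJ + Lv + m0 := ⟨_, rfl⟩
  have hcst : 1 ≤ Cg * cN ^ Lv := Nat.mul_pos hCg1 (by positivity)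
  obtain ⟨C, hC, hpar⟩ := params7 m0 m0 w b (Cg * cN ^ Lv) hm1 hw hcst (ε' / 2) (by linarith)
  refine ⟨C, hC, ?_⟩
  intro n d g S hn hd hcond hS N hN1 hNn hnN J Lt _ _ _ hJ hLt lc hlc Yes No hinst G hG hDec
  have hnR : (2 : ℝ) ≤ n := by exact_mod_cast hn
  have hn0 : (0 : ℝ) < n := by linarith
  have hn1 : (1 : ℝ) ≤ n := by linarith
  obtain ⟨p, hp1, hp2, hp3, hp4⟩ := hgr n hn
  obtain ⟨h0', h, l, hh0, hh, hl, hc1, hrest⟩ := hpar n d g hn hd hcond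
  have hpow : ∀ a b : ℕ, a ≤ b → n ^ a ≤ n ^ b := fun a b hab =>
    Nat.pow_le_pow_right (by omega) hab
  have hSb : S ≤ n ^ b := by
    have h1 : (S : ℝ) ≤ (n : ℝ) ^ Lv := by
      refine hS.trans ?_
      rw [← Real.rpow_natCast]
      exact Real.rpow_le_rpow_of_exponent_le hn1 (by linarith)
    have h2 : S ≤ n ^ Lv := by exact_mod_cast h1
    exact h2.trans (hpow _ _ (by omega))
  have hJb : Fintype.card J ≤ n ^ b := hJ.trans (hpow _ _ (by omega))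
  have hEb : Fintype.card (M × Lt) ≤ n ^ b := by
    rw [Fintype.card_prod, ← hm0]
    have h1 : m0 ≤ n ^ m0 := by
      calc m0 ≤ 2 ^ m0 := Nat.lt_two_pow_self.le
        _ ≤ n ^ m0 := Nat.pow_le_pow_left hn m0
    calc m0 * Fintype.card Lt ≤ n ^ m0 * n ^ bJ := Nat.mul_le_mul h1 hLt
      _ = n ^ (m0 + bJ) := by rw [pow_add]
      _ ≤ n ^ b := hpow _ _ (by omega)
  have hRb : p ^ D ≤ n ^ b := hp3.trans (hpow _ _ (by omega))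
  obtain ⟨hlen, hN3⟩ := hrest S (Fintype.card J) (Fintype.card (M × Lt)) (p ^ D) hSb hJb hEb hRb
  obtain ⟨Q, hQ⟩ : ∃ Q : ℝ, Q = 48 * (2 * (48 * (m0 : ℕ) * (24 * (h : ℝ)) ^ d * h * l)) ^ m0 :=
    ⟨_, rfl⟩
  rw [← hQ] at hc1
  have hQ0 : 0 ≤ Q := by rw [hQ]; positivity
  obtain ⟨Gc, hGc⟩ : ∃ Gc : ℝ, Gc = (((m0 ^ D * (m0 * D * p ^ 2 + 1) ^ (m0 * m0 + m0) : ℕ) : ℕ) :
    ℝ) := ⟨_, rfl⟩
  rw [← hGc] at hp4
  have hGc0 : 0 ≤ Gc := by rw [hGc]; positivity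
  have hCgR : (1 : ℝ) ≤ Cg := by exact_mod_cast hCg1
  have hcNR : (1 : ℝ) ≤ cN := by exact_mod_cast hcN
  have hnNR : (n : ℝ) ≤ cN * N := by exact_mod_cast hnN
  push_cast at hc1
  have hsplit : (n : ℝ) ^ (ε' / 2) * (n : ℝ) ^ (ε' / 2) = (n : ℝ) ^ ε' := by
    rw [← Real.rpow_add hn0]; congr 1; ring
  have hS' : (S : ℝ) ≤ (n : ℝ) ^ ((Lv : ℝ) - ε') :=
    hS.trans (Real.rpow_le_rpow_of_exponent_le hn1 (by linarith))
  refine quad_core (M := M) (J := J) (Lt := Lt) (k := k) (N := N) (D := D) (p := p) hN1 hp1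
    ((Nat.pow_le_pow_left hNn k).trans hp2) lc sc hlc h0 hmedv hsmv hw (hinst D p) G hG hDec
    (h0' := h0') (h := h) (l := l) hh0 hh hl hlen (Gc := Gc) (by rw [hGc, hm0]) ?_ ?_
    (by rw [← hm0]; exact hN3)
  · rw [← hm0, ← hQ]
    have hkey : (cN : ℝ) ^ Lv * (Q * S * Gc) ≤ (cN : ℝ) ^ Lv * (N : ℝ) ^ Lv := by
      calc (cN : ℝ) ^ Lv * (Q * S * Gc) ≤
          (cN : ℝ) ^ Lv * (Q * (n : ℝ) ^ ((Lv : ℝ) - ε') * (Cg * (n : ℝ) ^ (ε' / 2))) := by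
            gcongr
        _ = (Cg * (cN : ℝ) ^ Lv * Q) * (n : ℝ) ^ (ε' / 2) * (n : ℝ) ^ ((Lv : ℝ) - ε') := by ring
        _ ≤ (n : ℝ) ^ (ε' / 2) * (n : ℝ) ^ (ε' / 2) * (n : ℝ) ^ ((Lv : ℝ) - ε') := by gcongr
        _ = (n : ℝ) ^ Lv := by
            rw [hsplit, ← Real.rpow_add hn0, ← Real.rpow_natCast]
            congr 1
            ring
        _ ≤ (cN * N : ℝ) ^ Lv := pow_le_pow_left₀ hn0.le hnNR _
        _ = _ := by rw [mul_pow]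
    exact le_of_mul_le_mul_left hkey (by positivity)
  · rw [← hm0, ← hQ]
    have hkey : (cN : ℝ) * (Q * Gc) ≤ (cN : ℝ) * (N : ℝ) := by
      have hcc : (cN : ℝ) ≤ (cN : ℝ) ^ Lv := by
        calc (cN : ℝ) = (cN : ℝ) ^ 1 := (pow_one _).symm
          _ ≤ (cN : ℝ) ^ Lv := pow_le_pow_right₀ hcNR hLv
      calc (cN : ℝ) * (Q * Gc) ≤ (cN : ℝ) ^ Lv * (Q * (Cg * (n : ℝ) ^ (ε' / 2))) := by gcongr
        _ = (Cg * (cN : ℝ) ^ Lv * Q) * (n : ℝ) ^ (ε' / 2) := by ring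
        _ ≤ (n : ℝ) ^ (ε' / 2) * (n : ℝ) ^ (ε' / 2) := by gcongr
        _ = (n : ℝ) ^ ε' := hsplit
        _ ≤ (n : ℝ) ^ (1 : ℝ) := Real.rpow_le_rpow_of_exponent_le hn1 hε1
        _ = n := Real.rpow_one _
        _ ≤ _ := hnNR
    exact le_of_mul_le_mul_left hkey (by linarith)

end H70.HP
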