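import Mathlib
import Pool.Agent.Helper70K1.HP.Main

/-!
The lower bound for `k`-clique.
-/

set_option linter.unusedSectionVars false

namespace H70.HP

open Finset DomAC0 H568R2 SmallDepth H592R3 H592R3.Hp

section Inst
variable {k N D p : ℕ}

/-- The vertices `(i, a)` and `(j, b)` are compatible. -/
def Cmp (t : Fin D → ℕ) (g1 : Fin k → Fin k → ℕ) (g2 : Fin k → ℕ)
    (Dv : (Fin k × Fin N) → Option (Vc D p)) (u v : Fin k × Fin N) : Prop :=
  u.1 ≠ v.1 ∧ ∃ x y, Dv u = some x ∧ Dv v = some y ∧ ipr x y = g1 u.1 v.1 ∧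
    ipr y x = g1 v.1 u.1 ∧ ipr x x = g1 u.1 u.1 ∧ ipr y y = g1 v.1 v.1 ∧ ipt x t = g2 u.1 ∧
    ipt y t = g2 v.1

/-- The graph of compatible vertices. -/
def cgr (t : Fin D → ℕ) (g1 : Fin k → Fin k → ℕ) (g2 : Fin k → ℕ)
    (Dv : (Fin k × Fin N) → Option (Vc D p)) : SimpleGraph (Fin k × Fin N) where
  Adj u v := Cmp t g1 g2 Dv u v
  symm := by
    constructor
    rintro u v ⟨h1, x, y, h2, h3, h4, h5, h6, h7, h8, h9⟩
    exact ⟨h1.symm, y, x, h3, h2, h5, h4, h7, h6, h9, h8⟩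
  loopless := ⟨fun u h => h.1 rfl⟩

lemma cgr_yes {t : Fin D → ℕ} {g1 : Fin k → Fin k → ℕ} {g2 : Fin k → ℕ}
    {Dv : (Fin k × Fin N) → Option (Vc D p)} {c : Fin k → Fin N} {z : Fin k → Vc D p}
    (hz : HasPat t g1 g2 z) (h : ∀ m, Dv (m, c m) = some (z m)) :
    ¬ (cgr t g1 g2 Dv).CliqueFree k := by
  rw [SimpleGraph.not_cliqueFree_iff_top_isContained]
  refine ⟨⟨⟨fun i => (i, c i), ?_⟩, fun i j hij => congrArg Prod.fst hij⟩⟩
  intro i j hne
  show Cmp t g1 g2 Dv (i, c i) (j, c j)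
  exact ⟨hne, z i, z j, h i, h j, hz.2.1 i j, hz.2.1 j i, hz.2.1 i i, hz.2.1 j j, hz.2.2 i,
    hz.2.2 j⟩

lemma cgr_no {t : Fin D → ℕ} {g1 : Fin k → Fin k → ℕ} {g2 : Fin k → ℕ}
    {Dv : (Fin k × Fin N) → Option (Vc D p)} (hk : 2 ≤ k) {z0 : Fin k → Vc D p}
    (hz0 : HasPat t g1 g2 z0) (h : ¬ (cgr t g1 g2 Dv).CliqueFree k) :
    ∃ (c : Fin k → Fin N) (z : Fin k → Vc D p), HasPat t g1 g2 z ∧
      ∀ m, Dv (m, c m) = some (z m) := by
  obtain ⟨f⟩ := (SimpleGraph.not_cliqueFree_iff_top_isContained _).1 h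
  have hadj : ∀ i j : Fin k, i ≠ j → Cmp t g1 g2 Dv (f i) (f j) := by
    intro i j hij
    have : (cgr t g1 g2 Dv).Adj (f i) (f j) := f.toHom.map_rel hij
    exact this
  have hinj : Function.Injective (fun i => (f i).1) := by
    intro i j hij
    by_contra hne
    exact (hadj i j hne).1 hij
  obtain ⟨π, hπ⟩ : ∃ π : Fin k ≃ Fin k, ∀ i, π i = (f i).1 :=
    ⟨Equiv.ofBijective _ (Finite.injective_iff_bijective.1 hinj), fun i => rfl⟩
  obtain ⟨c, hc⟩ : ∃ c : Fin k → Fin N, ∀ m, f (π.symm m) = (m, c m) := by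
    refine ⟨fun m => (f (π.symm m)).2, fun m => ?_⟩
    apply Prod.ext
    · show (f (π.symm m)).1 = m
      rw [← hπ, Equiv.apply_symm_apply]
    · rfl
  have hcmp : ∀ m m', m ≠ m' → Cmp t g1 g2 Dv (m, c m) (m', c m') := by
    intro m m' hne
    rw [← hc, ← hc]
    exact hadj _ _ (fun h => hne (π.symm.injective h))
  have hex : ∀ m : Fin k, ∃ x, Dv (m, c m) = some x ∧ ipr x x = g1 m m ∧ ipt x t = g2 m := by
    intro m
    obtain ⟨m', hm'⟩ : ∃ m' : Fin k, m ≠ m' := by
      have : Nontrivial (Fin k) := Fin.nontrivial_iff_two_le.2 hk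
      obtain ⟨m', hm'⟩ := exists_ne m
      exact ⟨m', hm'.symm⟩
    obtain ⟨_, x, y, h1, _, _, _, h2, _, h3, _⟩ := hcmp m m' hm'
    exact ⟨x, h1, h2, h3⟩
  choose z hz1 hz2 hz3 using hex
  refine ⟨c, z, hz0.of_ip ?_ hz3, hz1⟩
  intro m m'
  by_cases hm : m = m'
  · subst hm
    exact hz2 m
  · obtain ⟨_, x, y, h1, h2, h3, _⟩ := hcmp m m' hm
    have e1 : z m = x := Option.some.inj ((hz1 m).symm.trans h1)
    have e2 : z m' = y := Option.some.inj ((hz1 m').symm.trans h2)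
    rw [e1, e2]
    exact h3

lemma cgr_congr {t : Fin D → ℕ} {g1 : Fin k → Fin k → ℕ} {g2 : Fin k → ℕ}
    {Dv Dv' : (Fin k × Fin N) → Option (Vc D p)} {u v : Fin k × Fin N} (hu : Dv u = Dv' u)
    (hv : Dv v = Dv' v) (h : (cgr t g1 g2 Dv).Adj u v) : (cgr t g1 g2 Dv').Adj u v := by
  obtain ⟨h1, x, y, h2, h3, h4⟩ := h
  exact ⟨h1, x, y, by rw [← hu]; exact h2, by rw [← hv]; exact h3, h4⟩

end Inst

/-- Small sets of parts. -/
def SmC (k : ℕ) (H : Finset (Fin k)) : Prop := H.card < (k + 1) / 2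

lemma medC {k : ℕ} {H : Finset (Fin k)} (h : MedS (SmC k) H) :
    H ≠ univ ∧ (k + 1) / 2 ≤ (H.biUnion (fun i => {i})).card := by
  obtain ⟨h1, A, B, hA, hB, hAB⟩ := h
  unfold SmC at h1 hA hB
  have h2 := Finset.card_union_le A B
  rw [hAB] at h2
  constructor
  · rintro rfl
    rw [Finset.card_univ, Fintype.card_fin] at h2
    omega
  · rw [Finset.biUnion_singleton_eq_self]
    omega

theorem clique_main (k : ℕ) (hk : 5 ≤ k) (ε : ℝ) (hε : 0 < ε) : ∃ C : ℝ, 0 < C ∧
    ∀ n d g S : ℕ, 2 ≤ n → 1 ≤ d →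
    C * (d * Real.log (Real.log n + g + 2)) ≤ Real.log n →
    ∀ G : Game (Pairs n), G.Bounded d S g →
    Decides G (fun x => ∃ H : SimpleGraph (Fin n), ¬ H.CliqueFree k ∧ x = adjBits H)
      (fun x => ∃ H : SimpleGraph (Fin n), H.CliqueFree k ∧ x = adjBits H) →
    (n : ℝ) ^ ((((k + 1) / 2 : ℕ) : ℝ) - ε) < S := by
  have hne : Nonempty (Fin k) := ⟨⟨0, by omega⟩⟩
  obtain ⟨C, hC, hmain⟩ := quad_main (M := Fin k) k (fun i => {i}) (Sm := SmC k)
    (by unfold SmC; rw [Finset.card_empty]; omega) (Lv := (k + 1) / 2) (by omega)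
    (fun H hH => medC hH)
    (fun H h1 h2 => by
      unfold SmC at h2
      constructor
      · rintro rfl
        rw [Finset.card_univ, Fintype.card_fin] at h2
        omega
      · rw [Finset.biUnion_singleton_eq_self]
        exact Finset.card_pos.2 h1)
    (w := 2) (by norm_num) 2 (2 * k) (by omega) ε hε
  have hlog2 : 0 < Real.log 2 := Real.log_pos (by norm_num)
  have hlogk : 0 ≤ Real.log k := Real.log_nonneg (by exact_mod_cast (by omega : 1 ≤ k))
  refine ⟨C + Real.log k / Real.log 2, by positivity, ?_⟩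
  intro n d g S hn hd hcond G hG hDec
  have hnR : (2 : ℝ) ≤ n := by exact_mod_cast hn
  have hn0 : (0 : ℝ) < n := by linarith
  have hn1 : (1 : ℝ) ≤ n := by linarith
  have hdR : (1 : ℝ) ≤ d := by exact_mod_cast hd
  have hlogn : 0 ≤ Real.log n := Real.log_nonneg hn1
  have hv2 : Real.log 2 ≤ Real.log (Real.log n + g + 2) := by
    apply Real.log_le_log (by norm_num)
    have : (0 : ℝ) ≤ g := by positivity
    linarith
  have hv0 : Real.log 2 ≤ (d : ℝ) * Real.log (Real.log n + g + 2) := by nlinarith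
  have hq0 : 0 ≤ Real.log k / Real.log 2 := by positivity
  have hkn : k ≤ n := by
    have h1 : Real.log k ≤ Real.log n := by
      have e1 : Real.log k / Real.log 2 * Real.log 2 ≤
          Real.log k / Real.log 2 * (d * Real.log (Real.log n + g + 2)) :=
        mul_le_mul_of_nonneg_left hv0 hq0
      rw [div_mul_cancel₀ _ hlog2.ne'] at e1
      nlinarith
    have h2 := (Real.log_le_log_iff (by exact_mod_cast (by omega : 0 < k)) hn0).1 h1
    exact_mod_cast h2
  by_contra hcon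
  rw [not_lt] at hcon
  have hN1 : 1 ≤ n / k := Nat.div_pos hkn (by omega)
  have hNk : k * (n / k) ≤ n := Nat.mul_div_le n k
  have hnN : n ≤ 2 * k * (n / k) := by
    have h1 : n < k * (n / k) + k := Nat.lt_mul_div_succ n (by omega)
    have h2 : k ≤ k * (n / k) := Nat.le_mul_of_pos_right _ hN1
    calc n ≤ k * (n / k) + k * (n / k) := by omega
      _ = 2 * k * (n / k) := by ring
  obtain ⟨N, hN⟩ : ∃ N, N = n / k := ⟨_, rfl⟩
  rw [← hN] at hN1 hNk hnN
  have hNn : N ≤ n := by rw [hN]; exact Nat.div_le_self _ _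
  have hNe : Nonempty (Fin N) := ⟨⟨0, hN1⟩⟩
  -- the embedding
  obtain ⟨φ⟩ : Nonempty ((Fin k × Fin N) ↪ Fin n) := by
    apply Function.Embedding.nonempty_of_card_le
    rw [Fintype.card_prod, Fintype.card_fin, Fintype.card_fin, Fintype.card_fin]
    exact hNk
  refine hmain n d g S hn hd (by nlinarith) hcon N hN1 hNn hnN (Pairs n) (Fin N) ?_ ?_
    (fun c => c) (fun c c' m h i hi => ?_) _ _ ?_ G hG hDec
  · refine (Fintype.card_subtype_le _).trans ?_
    rw [Fintype.card_prod, Fintype.card_fin, sq]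
  · rw [Fintype.card_fin, sq]
    exact hNn.trans (Nat.le_mul_of_pos_left _ (by omega))
  · rw [Finset.mem_singleton] at hi
    subst hi
    exact h
  · rintro D p t g1 g2 ⟨z0, hz0⟩
    refine ⟨fun Dv => adjBits ((cgr t g1 g2 Dv).map φ), ?_, ?_, ?_⟩
    · rintro ⟨⟨u, v⟩, huv⟩
      refine ⟨univ.filter (fun e : Fin k × Fin N => φ e = u ∨ φ e = v), ?_, ?_, ?_⟩
      · have h1 : (univ.filter (fun e : Fin k × Fin N => φ e = u ∨ φ e = v)).card ≤
            ({u, v} : Finset (Fin n)).card := by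
          apply Finset.card_le_card_of_injOn φ
          · intro e he
            have := (Finset.mem_filter.1 he).2
            rw [Finset.mem_coe, Finset.mem_insert, Finset.mem_singleton]
            exact this
          · exact φ.injective.injOn
        exact h1.trans Finset.card_le_two
      · intro Dv Dv' hDD
        unfold adjBits
        apply decide_eq_decide.2
        have key : ∀ Dv Dv' : (Fin k × Fin N) → Option (Vc D p),
            (∀ e ∈ univ.filter (fun e : Fin k × Fin N => φ e = u ∨ φ e = v), Dv e = Dv' e) →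
            ((cgr t g1 g2 Dv).map φ).Adj u v → ((cgr t g1 g2 Dv').map φ).Adj u v := by
          intro Dv Dv' hDD h
          rw [SimpleGraph.map_adj] at h ⊢
          obtain ⟨a, b, h1, h2, h3⟩ := h
          refine ⟨a, b, cgr_congr ?_ ?_ h1, h2, h3⟩
          · exact hDD a (Finset.mem_filter.2 ⟨Finset.mem_univ _, Or.inl h2⟩)
          · exact hDD b (Finset.mem_filter.2 ⟨Finset.mem_univ _, Or.inr h3⟩)
        exact ⟨key Dv Dv' hDD, key Dv' Dv (fun e he => (hDD e he).symm)⟩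
      · intro c H hH
        have h1 : H.card ≤ ({u, v} : Finset (Fin n)).card := by
          apply Finset.card_le_card_of_injOn (fun m => φ (m, c m))
          · intro m hm
            have := (Finset.mem_filter.1 (hH m hm)).2
            rw [Finset.mem_coe, Finset.mem_insert, Finset.mem_singleton]
            exact this
          · intro m _ m' _ h
            exact congrArg Prod.fst (φ.injective h)
        have h2 := h1.trans Finset.card_le_two
        unfold SmC
        omega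
    · intro Dv c z hz hc
      refine ⟨_, ?_, rfl⟩
      rw [SimpleGraph.cliqueFree_map_iff]
      exact cgr_yes hz hc
    · intro Dv hcon2
      refine ⟨_, ?_, rfl⟩
      rw [SimpleGraph.cliqueFree_map_iff]
      by_contra hcf
      exact hcon2 (cgr_no (by omega) hz0 hcf)

/-- The lower bound for interactive proofs of the absence of cliques. -/
theorem clique_game (k : ℕ) (hk : 5 ≤ k) (ε : ℝ) (hε : 0 < ε) : ∃ C : ℝ, 0 < C ∧
    ∀ n d g S : ℕ, 2 ≤ n → 1 ≤ d →
    C * (d * Real.log (Real.log n + g + 2)) ≤ Real.log n →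
    ∀ V : Game (Pairs n), V.Bounded d S g →
    (∀ G : SimpleGraph (Fin n), G.CliqueFree k → 2 / 3 ≤ V.value (adjBits G)) →
    (∀ G : SimpleGraph (Fin n), ¬ G.CliqueFree k → V.value (adjBits G) ≤ 1 / 3) →
    (n : ℝ) ^ ((((k + 1) / 2 : ℕ) : ℝ) - ε) < S := by
  obtain ⟨C, hC, h⟩ := clique_main k hk ε hε
  refine ⟨C, hC, fun n d g S hn hd hcond V hV h1 h2 => h n d g S hn hd hcond V hV (Or.inl ?_)⟩
  constructor
  · rintro x ⟨G, hG, rfl⟩
    exact h1 G hG
  · rintro x ⟨G, hG, rfl⟩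
    exact h2 G hG

/-- The lower bound for randomized circuits for the clique problem. -/
theorem clique_rand (k : ℕ) (hk : 5 ≤ k) (ε : ℝ) (hε : 0 < ε) : ∃ C : ℝ, 0 < C ∧
    ∀ n d S : ℕ, 2 ≤ n → 1 ≤ d →
    C * (d * Real.log (Real.log n + 2)) ≤ Real.log n →
    ∀ Rc : RandCircuit (Pairs n), Rc.Bounded d S →
    (∀ G : SimpleGraph (Fin n), Rc.Correct (adjBits G) (¬ G.CliqueFree k)) →
    (n : ℝ) ^ ((((k + 1) / 2 : ℕ) : ℝ) - ε) < S := by
  classical
  obtain ⟨C, hC, h⟩ := clique_main k hk ε hε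
  refine ⟨C, hC, ?_⟩
  intro n d S hn hd hcond Rc hRc hcor
  let _ := Rc.fin
  obtain ⟨eq⟩ : Nonempty (Rc.Ω ≃ Fin (Fintype.card Rc.Ω)) := ⟨Fintype.equivFin Rc.Ω⟩
  have hp1 : ∑ i, Rc.prob (eq.symm i) = 1 := by
    rw [← Rc.total]
    exact Equiv.sum_comp eq.symm Rc.prob
  have hcirc : ∀ x b, (∑ ω, if (Rc.circ ω).eval x = b then Rc.prob ω else 0) =
      ∑ i, if (Rc.circ (eq.symm i)).eval x = b then Rc.prob (eq.symm i) else 0 := by
    intro x b
    exact (Equiv.sum_comp eq.symm (fun ω =>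
      if (Rc.circ ω).eval x = b then Rc.prob ω else 0)).symm
  apply h n d 0 S hn hd (by simpa using hcond) (Game.arthur (Fintype.card Rc.Ω)
    (fun i => Rc.prob (eq.symm i)) (fun i => .verify (Rc.circ (eq.symm i))))
    ⟨fun i => Rc.nonneg _, hp1, fun i => ⟨(hRc _).1, (hRc _).2⟩⟩
  refine Or.inr ⟨_, _, _, fun i => Rc.nonneg _, hp1, rfl, ?_, ?_⟩
  · rintro x ⟨G, hG, rfl⟩
    have h1 := hcor G
    unfold RandCircuit.Correct at h1
    rw [← hcirc]
    refine h1.trans (le_of_eq ?_)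
    refine Finset.sum_congr rfl fun ω _ => ?_
    have : ∀ inst : Decidable (¬ G.CliqueFree k), @decide _ inst = false := fun inst =>
      @decide_eq_false _ inst (not_not.2 hG)
    rw [this]
  · rintro x ⟨G, hG, rfl⟩
    have h1 := hcor G
    unfold RandCircuit.Correct at h1
    rw [← hcirc]
    refine h1.trans (le_of_eq ?_)
    refine Finset.sum_congr rfl fun ω _ => ?_
    have : ∀ inst : Decidable (¬ G.CliqueFree k), @decide _ inst = true := fun inst =>
      @decide_eq_true _ inst hG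
    rw [this]

end H70.HP
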