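import Mathlib

/-!
Uniform hypergraphs and their cliques.
-/

namespace H70.HP

/-- The possible edges of an `r`-uniform hypergraph on the vertex set `Fin n`: the sets of `r`
vertices. A hypergraph `x` says which of them are edges. -/
abbrev Edges (n r : ℕ) : Type := {s : Finset (Fin n) // s.card = r}

/-- The hypergraph has a clique of `k` vertices: a set of `k` vertices all of whose subsets with
`r` vertices are edges. -/
def HasClique {n r : ℕ} (k : ℕ) (x : Edges n r → Bool) : Prop :=
  ∃ K : Finset (Fin n), K.card = k ∧ ∀ s : Edges n r, s.1 ⊆ K → x s = true

end H70.HP
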