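import Mathlib
import Pool.Agent.Helper70K1.HP.Main
import Pool.Agent.Helper70K1.HP.HDefs

/-!
The lower bound for cliques in uniform hypergraphs.
-/

set_option linter.unusedSectionVars false

namespace H70.HP

open Finset DomAC0 H568R2 SmallDepth H592R3 H592R3.Hp

section Inst
variable {k N D p n : ℕ}

/-- The set of vertices is compatible. -/
def HGood (φ : (Fin k × Fin N) ↪ Fin n) (t : Fin D → ℕ) (g1 : Pairs k → Pairs k → ℕ)
    (g2 : Pairs k → ℕ) (Dv : (Pairs k × (Fin N × Fin N)) → Option (Vc D p))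
    (s : Finset (Fin n)) : Prop :=
  (∀ u ∈ s, ∃ e, φ e = u) ∧
  (∀ e e', φ e ∈ s → φ e' ∈ s → e.1 = e'.1 → e = e') ∧
  (∀ (q : Pairs k) (a b : Fin N), φ (q.1.1, a) ∈ s → φ (q.1.2, b) ∈ s →
    ∃ x, Dv (q, (a, b)) = some x ∧ ipt x t = g2 q) ∧
  (∀ (q q' : Pairs k) (a b a' b' : Fin N) (x x' : Vc D p), φ (q.1.1, a) ∈ s →
    φ (q.1.2, b) ∈ s → φ (q'.1.1, a') ∈ s → φ (q'.1.2, b') ∈ s →
    Dv (q, (a, b)) = some x → Dv (q', (a', b')) = some x' → ipr x x' = g1 q q')

lemma hgood_yes {φ : (Fin k × Fin N) ↪ Fin n} {t : Fin D → ℕ} {g1 : Pairs k → Pairs k → ℕ}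
    {g2 : Pairs k → ℕ} {Dv : (Pairs k × (Fin N × Fin N)) → Option (Vc D p)}
    {c : Fin k → Fin N} {z : Pairs k → Vc D p}
    (hz : HasPat t g1 g2 z) (h : ∀ q : Pairs k, Dv (q, (c q.1.1, c q.1.2)) = some (z q))
    {s : Finset (Fin n)} (hs : s ⊆ univ.image (fun i => φ (i, c i))) :
    HGood φ t g1 g2 Dv s := by
  have key : ∀ e, φ e ∈ s → e.2 = c e.1 := by
    intro e he
    obtain ⟨i, _, hi⟩ := Finset.mem_image.1 (hs he)
    have := φ.injective hi
    rw [← this]
  refine ⟨?_, ?_, ?_, ?_⟩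
  · intro u hu
    obtain ⟨i, _, hi⟩ := Finset.mem_image.1 (hs hu)
    exact ⟨_, hi⟩
  · intro e e' he he' h1
    have h2 := key e he
    have h3 := key e' he'
    apply Prod.ext h1
    rw [h2, h3, h1]
  · intro q a b ha hb
    have h2 : a = c q.1.1 := key _ ha
    have h3 : b = c q.1.2 := key _ hb
    rw [h2, h3]
    exact ⟨z q, h q, hz.2.2 q⟩
  · intro q q' a b a' b' x x' ha hb ha' hb' hx hx'
    have h2 : a = c q.1.1 := key _ ha
    have h3 : b = c q.1.2 := key _ hb
    have h4 : a' = c q'.1.1 := key _ ha'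
    have h5 : b' = c q'.1.2 := key _ hb'
    rw [h2, h3, h q] at hx
    rw [h4, h5, h q'] at hx'
    rw [← Option.some.inj hx, ← Option.some.inj hx']
    exact hz.2.1 q q'

lemma hgood_no {φ : (Fin k × Fin N) ↪ Fin n} {t : Fin D → ℕ} {g1 : Pairs k → Pairs k → ℕ}
    {g2 : Pairs k → ℕ} {Dv : (Pairs k × (Fin N × Fin N)) → Option (Vc D p)}
    {r : ℕ} (hr : 4 ≤ r) (hrk : r ≤ k) {z0 : Pairs k → Vc D p} (hz0 : HasPat t g1 g2 z0)
    {K : Finset (Fin n)} (hK : K.card = k)
    (h : ∀ s : Finset (Fin n), s.card = r → s ⊆ K → HGood φ t g1 g2 Dv s) :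
    ∃ (c : Fin k → Fin N) (z : Pairs k → Vc D p), HasPat t g1 g2 z ∧
      ∀ q : Pairs k, Dv (q, (c q.1.1, c q.1.2)) = some (z q) := by
  classical
  have hext : ∀ T : Finset (Fin n), T ⊆ K → T.card ≤ 4 → ∃ s, T ⊆ s ∧ HGood φ t g1 g2 Dv s := by
    intro T hT hT4
    obtain ⟨s, h1, h2, h3⟩ := Finset.exists_subsuperset_card_eq hT (hT4.trans hr)
      (by rw [hK]; exact hrk)
    exact ⟨s, h1, h s h3 h2⟩
  -- the vertices
  obtain ⟨P, hP⟩ : ∃ P : Finset (Fin k × Fin N), P = univ.filter (fun e => φ e ∈ K) := ⟨_, rfl⟩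
  have hPK : P.image φ = K := by
    ext u
    rw [Finset.mem_image]
    constructor
    · rintro ⟨e, he, rfl⟩
      rw [hP, Finset.mem_filter] at he
      exact he.2
    · intro hu
      obtain ⟨s, h1, h2⟩ := hext {u} (Finset.singleton_subset_iff.2 hu) (by simp)
      obtain ⟨e, he⟩ := h2.1 u (h1 (Finset.mem_singleton_self u))
      refine ⟨e, ?_, he⟩
      rw [hP, Finset.mem_filter, he]
      exact ⟨Finset.mem_univ _, hu⟩
  have hPc : P.card = k := by
    refine Eq.trans ?_ hK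
    rw [← hPK, Finset.card_image_of_injective _ φ.injective]
  have hinj : ∀ e ∈ P, ∀ e' ∈ P, e.1 = e'.1 → e = e' := by
    intro e he e' he' hee
    rw [hP, Finset.mem_filter] at he he'
    obtain ⟨s, h1, h2⟩ := hext {φ e, φ e'} (by
      intro u hu
      rw [Finset.mem_insert, Finset.mem_singleton] at hu
      rcases hu with rfl | rfl
      · exact he.2
      · exact he'.2) (Finset.card_le_two.trans (by norm_num))
    exact h2.2.1 e e' (h1 (by simp)) (h1 (by simp)) hee
  have himg : P.image Prod.fst = univ := by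
    apply Finset.eq_univ_of_card
    rw [Finset.card_image_of_injOn (fun e he e' he' hee => hinj e he e' he' hee), hPc,
      Fintype.card_fin]
  have hex : ∀ i : Fin k, ∃ a, φ (i, a) ∈ K := by
    intro i
    have : i ∈ P.image Prod.fst := by rw [himg]; exact Finset.mem_univ i
    obtain ⟨⟨j, a⟩, he, rfl⟩ := Finset.mem_image.1 this
    rw [hP, Finset.mem_filter] at he
    exact ⟨a, he.2⟩
  choose c hc using hex
  have hz : ∀ q : Pairs k, ∃ x, Dv (q, (c q.1.1, c q.1.2)) = some x ∧ ipt x t = g2 q := by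
    intro q
    obtain ⟨s, h1, h2⟩ := hext {φ (q.1.1, c q.1.1), φ (q.1.2, c q.1.2)} (by
      intro u hu
      rw [Finset.mem_insert, Finset.mem_singleton] at hu
      rcases hu with rfl | rfl
      · exact hc _
      · exact hc _) (Finset.card_le_two.trans (by norm_num))
    exact h2.2.2.1 q _ _ (h1 (by simp)) (h1 (by simp))
  choose z hz1 hz2 using hz
  refine ⟨c, z, hz0.of_ip ?_ hz2, hz1⟩
  intro q q'
  obtain ⟨s, h1, h2⟩ := hext {φ (q.1.1, c q.1.1), φ (q.1.2, c q.1.2), φ (q'.1.1, c q'.1.1),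
    φ (q'.1.2, c q'.1.2)} (by
      intro u hu
      simp only [Finset.mem_insert, Finset.mem_singleton] at hu
      rcases hu with rfl | rfl | rfl | rfl <;> exact hc _) Finset.card_le_four
  exact h2.2.2.2 q q' _ _ _ _ _ _ (h1 (by simp)) (h1 (by simp)) (h1 (by simp)) (h1 (by simp))
    (hz1 q) (hz1 q')

lemma hgood_congr {φ : (Fin k × Fin N) ↪ Fin n} {t : Fin D → ℕ} {g1 : Pairs k → Pairs k → ℕ}
    {g2 : Pairs k → ℕ} {Dv Dv' : (Pairs k × (Fin N × Fin N)) → Option (Vc D p)}
    {s : Finset (Fin n)}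
    (hDD : ∀ e : Pairs k × (Fin N × Fin N), φ (e.1.1.1, e.2.1) ∈ s → φ (e.1.1.2, e.2.2) ∈ s →
      Dv e = Dv' e) (h : HGood φ t g1 g2 Dv s) : HGood φ t g1 g2 Dv' s := by
  refine ⟨h.1, h.2.1, ?_, ?_⟩
  · intro q a b ha hb
    have := hDD (q, (a, b)) ha hb
    rw [← this]
    exact h.2.2.1 q a b ha hb
  · intro q q' a b a' b' x x' ha hb ha' hb' hx hx'
    have e1 := hDD (q, (a, b)) ha hb
    have e2 := hDD (q', (a', b')) ha' hb'
    rw [← e1] at hx
    rw [← e2] at hx'
    exact h.2.2.2 q q' a b a' b' x x' ha hb ha' hb' hx hx'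

end Inst

/-- Small sets of pairs: some class is missed. -/
def SmH (k : ℕ) (H : Finset (Pairs k)) : Prop := ∃ v : Fin k, ∀ q ∈ H, v ≠ q.1.1 ∧ v ≠ q.1.2

lemma exists_pair {k : ℕ} (v w : Fin k) (h : v ≠ w) :
    ∃ q : Pairs k, (q.1.1 = v ∧ q.1.2 = w) ∨ (q.1.1 = w ∧ q.1.2 = v) := by
  rcases lt_or_gt_of_ne h with h1 | h1
  · exact ⟨⟨(v, w), h1⟩, Or.inl ⟨rfl, rfl⟩⟩
  · exact ⟨⟨(w, v), h1⟩, Or.inr ⟨rfl, rfl⟩⟩

lemma smH_ne {k : ℕ} (hk : 2 ≤ k) {H : Finset (Pairs k)} (h : SmH k H) : H ≠ univ := by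
  rintro rfl
  obtain ⟨v, hv⟩ := h
  have : Nontrivial (Fin k) := Fin.nontrivial_iff_two_le.2 hk
  obtain ⟨w, hw⟩ := exists_ne v
  obtain ⟨q, hq⟩ := exists_pair v w hw.symm
  have := hv q (Finset.mem_univ q)
  rcases hq with ⟨h1, h2⟩ | ⟨h1, h2⟩
  · exact this.1 h1.symm
  · exact this.2 h2.symm

lemma medH {k : ℕ} (hk : 2 ≤ k) {H : Finset (Pairs k)} (h : MedS (SmH k) H) :
    H ≠ univ ∧ k ≤ (H.biUnion (fun q : Pairs k => {q.1.1, q.1.2})).card := by
  obtain ⟨h1, A, B, ⟨v, hv⟩, ⟨w, hw⟩, hAB⟩ := h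
  constructor
  · rintro rfl
    by_cases hvw : v = w
    · subst hvw
      have : SmH k (univ : Finset (Pairs k)) := by
        refine ⟨v, fun q hq => ?_⟩
        rw [← hAB, Finset.mem_union] at hq
        rcases hq with hq | hq
        · exact hv q hq
        · exact hw q hq
      exact smH_ne hk this rfl
    · obtain ⟨q, hq⟩ := exists_pair v w hvw
      have h2 : q ∈ A ∪ B := by rw [hAB]; exact Finset.mem_univ q
      rcases Finset.mem_union.1 h2 with h3 | h3
      · have := hv q h3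
        rcases hq with ⟨e1, e2⟩ | ⟨e1, e2⟩
        · exact this.1 e1.symm
        · exact this.2 e2.symm
      · have := hw q h3
        rcases hq with ⟨e1, e2⟩ | ⟨e1, e2⟩
        · exact this.2 e2.symm
        · exact this.1 e1.symm
  · have h2 : H.biUnion (fun q : Pairs k => {q.1.1, q.1.2}) = univ := by
      rw [Finset.eq_univ_iff_forall]
      intro u
      rw [Finset.mem_biUnion]
      unfold SmH at h1
      push Not at h1
      obtain ⟨q, hq, h3⟩ := h1 u
      refine ⟨q, hq, ?_⟩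
      rw [Finset.mem_insert, Finset.mem_singleton]
      by_cases h4 : u = q.1.1
      · exact Or.inl h4
      · exact Or.inr (h3 h4)
    rw [h2, Finset.card_univ, Fintype.card_fin]

theorem hyper_main (r k : ℕ) (hr : 4 ≤ r) (hrk : r < k) (ε : ℝ) (hε : 0 < ε) : ∃ C : ℝ, 0 < C ∧
    ∀ n d g S : ℕ, 2 ≤ n → 1 ≤ d →
    C * (d * Real.log (Real.log n + g + 2)) ≤ Real.log n →
    ∀ G : Game (Edges n r), G.Bounded d S g →
    Decides G (fun x => HasClique k x) (fun x => ¬ HasClique k x) →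
    (n : ℝ) ^ ((k : ℝ) - ε) < S := by
  classical
  have hk2 : 2 ≤ k := by omega
  obtain ⟨v0, v1, hv01⟩ : ∃ v w : Fin k, v ≠ w :=
    ⟨⟨0, by omega⟩, ⟨1, by omega⟩, by simp [Fin.ext_iff]⟩
  have hne : Nonempty (Pairs k) := ⟨(exists_pair v0 v1 hv01).choose⟩
  obtain ⟨C, hC, hmain⟩ := quad_main (M := Pairs k) k (fun q => {q.1.1, q.1.2}) (Sm := SmH k)
    ⟨v0, by simp⟩ (Lv := k) (by omega)
    (fun H hH => medH hk2 hH)
    (fun H h1 h2 => by
      refine ⟨smH_ne hk2 h2, ?_⟩
      obtain ⟨q, hq⟩ := h1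
      apply Finset.card_pos.2
      exact ⟨q.1.1, Finset.mem_biUnion.2 ⟨q, hq, by simp⟩⟩)
    (w := r * r) (by nlinarith) r (2 * k) (by omega) ε hε
  have hlog2 : 0 < Real.log 2 := Real.log_pos (by norm_num)
  have hlogk : 0 ≤ Real.log k := Real.log_nonneg (by exact_mod_cast (by omega : 1 ≤ k))
  refine ⟨C + Real.log k / Real.log 2, by positivity, ?_⟩
  intro n d g S hn hd hcond G hG hDec
  have hnR : (2 : ℝ) ≤ n := by exact_mod_cast hn
  have hn0 : (0 : ℝ) < n := by linarith
  have hn1 : (1 : ℝ) ≤ n := by linarith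
  have hdR : (1 : ℝ) ≤ d := by exact_mod_cast hd
  have hlogn : 0 ≤ Real.log n := Real.log_nonneg hn1
  have hv2 : Real.log 2 ≤ Real.log (Real.log n + g + 2) := by
    apply Real.log_le_log (by norm_num)
    have : (0 : ℝ) ≤ g := by positivity
    linarith
  have hv0 : Real.log 2 ≤ (d : ℝ) * Real.log (Real.log n + g + 2) := by nlinarith
  have hq0 : 0 ≤ Real.log k / Real.log 2 := by positivity
  have hkn : k ≤ n := by
    have h1 : Real.log k ≤ Real.log n := by
      have e1 : Real.log k / Real.log 2 * Real.log 2 ≤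
          Real.log k / Real.log 2 * (d * Real.log (Real.log n + g + 2)) :=
        mul_le_mul_of_nonneg_left hv0 hq0
      rw [div_mul_cancel₀ _ hlog2.ne'] at e1
      nlinarith
    have h2 := (Real.log_le_log_iff (by exact_mod_cast (by omega : 0 < k)) hn0).1 h1
    exact_mod_cast h2
  by_contra hcon
  rw [not_lt] at hcon
  have hN1 : 1 ≤ n / k := Nat.div_pos hkn (by omega)
  have hNk : k * (n / k) ≤ n := Nat.mul_div_le n k
  have hnN : n ≤ 2 * k * (n / k) := by
    have h1 : n < k * (n / k) + k := Nat.lt_mul_div_succ n (by omega)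
    have h2 : k ≤ k * (n / k) := Nat.le_mul_of_pos_right _ hN1
    calc n ≤ k * (n / k) + k * (n / k) := by omega
      _ = 2 * k * (n / k) := by ring
  obtain ⟨N, hN⟩ : ∃ N, N = n / k := ⟨_, rfl⟩
  rw [← hN] at hN1 hNk hnN
  have hNn : N ≤ n := by rw [hN]; exact Nat.div_le_self _ _
  -- the embedding
  obtain ⟨φ⟩ : Nonempty ((Fin k × Fin N) ↪ Fin n) := by
    apply Function.Embedding.nonempty_of_card_le
    rw [Fintype.card_prod, Fintype.card_fin, Fintype.card_fin, Fintype.card_fin]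
    exact hNk
  refine hmain n d g S hn hd (by nlinarith) hcon N hN1 hNn hnN (Edges n r) (Fin N × Fin N) ?_ ?_
    (fun c q => (c q.1.1, c q.1.2)) (fun c c' q h i hi => ?_) _ _ ?_ G hG hDec
  · have h1 : Fintype.card (Edges n r) = n.choose r := by
      rw [Fintype.card_finset_len, Fintype.card_fin]
    rw [h1]
    exact Nat.choose_le_pow n r
  · rw [Fintype.card_prod, Fintype.card_fin]
    calc N * N ≤ n * n := Nat.mul_le_mul hNn hNn
      _ = n ^ 2 := (sq n).symm
      _ ≤ n ^ r := Nat.pow_le_pow_right (by omega) (by omega)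
  · rw [Finset.mem_insert, Finset.mem_singleton] at hi
    have h' : c q.1.1 = c' q.1.1 ∧ c q.1.2 = c' q.1.2 := Prod.mk.inj h
    rcases hi with rfl | rfl
    · exact h'.1
    · exact h'.2
  · rintro D p t g1 g2 ⟨z0, hz0⟩
    refine ⟨fun Dv s => decide (HGood φ t g1 g2 Dv s.1), ?_, ?_, ?_⟩
    · rintro ⟨s, hs⟩
      refine ⟨univ.filter (fun e : Pairs k × (Fin N × Fin N) => φ (e.1.1.1, e.2.1) ∈ s ∧
        φ (e.1.1.2, e.2.2) ∈ s), ?_, ?_, ?_⟩
      · have h1 : (univ.filter (fun e : Pairs k × (Fin N × Fin N) => φ (e.1.1.1, e.2.1) ∈ s ∧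
            φ (e.1.1.2, e.2.2) ∈ s)).card ≤ (s ×ˢ s).card := by
          apply Finset.card_le_card_of_injOn
            (fun e => (φ (e.1.1.1, e.2.1), φ (e.1.1.2, e.2.2)))
          · intro e he
            have := (Finset.mem_filter.1 he).2
            rw [Finset.mem_coe, Finset.mem_product]
            exact this
          · rintro ⟨⟨⟨i, j⟩, hij⟩, ⟨a, b⟩⟩ _ ⟨⟨⟨i', j'⟩, hij'⟩, ⟨a', b'⟩⟩ _ hee
            have h2 := Prod.mk.inj hee
            have h3 := φ.injective h2.1
            have h4 := φ.injective h2.2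
            simp only [Prod.mk.injEq] at h3 h4
            obtain ⟨rfl, rfl⟩ := h3
            obtain ⟨rfl, rfl⟩ := h4
            rfl
        rw [Finset.card_product, hs] at h1
        exact h1
      · intro Dv Dv' hDD
        apply decide_eq_decide.2
        constructor
        · exact hgood_congr (fun e h1 h2 => hDD e
            (Finset.mem_filter.2 ⟨Finset.mem_univ _, h1, h2⟩))
        · exact hgood_congr (fun e h1 h2 => (hDD e
            (Finset.mem_filter.2 ⟨Finset.mem_univ _, h1, h2⟩)).symm)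
      · intro c H hH
        -- some class is missed
        have hex : ∃ v : Fin k, φ (v, c v) ∉ s := by
          by_contra hcon2
          push Not at hcon2
          have h1 : (univ : Finset (Fin k)).card ≤ s.card := by
            apply Finset.card_le_card_of_injOn (fun v => φ (v, c v))
            · intro v _
              exact hcon2 v
            · intro v _ v' _ h
              exact congrArg Prod.fst (φ.injective h)
          rw [Finset.card_univ, Fintype.card_fin, hs] at h1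
          omega
        obtain ⟨v, hv⟩ := hex
        refine ⟨v, fun q hq => ?_⟩
        have h1 := (Finset.mem_filter.1 (hH q hq)).2
        constructor
        · intro h2
          apply hv
          rw [h2]
          exact h1.1
        · intro h2
          apply hv
          rw [h2]
          exact h1.2
    · intro Dv c z hz hc
      refine ⟨univ.image (fun i => φ (i, c i)), ?_, ?_⟩
      · rw [Finset.card_image_of_injective, Finset.card_univ, Fintype.card_fin]
        intro i j hij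
        exact congrArg Prod.fst (φ.injective hij)
      · intro s hs
        exact decide_eq_true (hgood_yes hz hc hs)
    · rintro Dv hcon2 ⟨K, hK1, hK2⟩
      apply hcon2
      exact hgood_no hr hrk.le hz0 hK1 (fun s hs1 hs2 => of_decide_eq_true (hK2 ⟨s, hs1⟩ hs2))

/-- The lower bound for interactive proofs of the absence of cliques. -/
theorem hyper_game (r k : ℕ) (hr : 4 ≤ r) (hrk : r < k) (ε : ℝ) (hε : 0 < ε) : ∃ C : ℝ, 0 < C ∧
    ∀ n d g S : ℕ, 2 ≤ n → 1 ≤ d →
    C * (d * Real.log (Real.log n + g + 2)) ≤ Real.log n →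
    ∀ V : Game (Edges n r), V.Bounded d S g →
    (∀ x, ¬ HasClique k x → 2 / 3 ≤ V.value x) →
    (∀ x, HasClique k x → V.value x ≤ 1 / 3) →
    (n : ℝ) ^ ((k : ℝ) - ε) < S := by
  obtain ⟨C, hC, h⟩ := hyper_main r k hr hrk ε hε
  exact ⟨C, hC, fun n d g S hn hd hcond V hV h1 h2 =>
    h n d g S hn hd hcond V hV (Or.inl ⟨h1, h2⟩)⟩

/-- The lower bound for randomized circuits. -/
theorem hyper_rand (r k : ℕ) (hr : 4 ≤ r) (hrk : r < k) (ε : ℝ) (hε : 0 < ε) : ∃ C : ℝ, 0 < C ∧
    ∀ n d S : ℕ, 2 ≤ n → 1 ≤ d →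
    C * (d * Real.log (Real.log n + 2)) ≤ Real.log n →
    ∀ Rc : RandCircuit (Edges n r), Rc.Bounded d S →
    (∀ x, Rc.Correct x (HasClique k x)) →
    (n : ℝ) ^ ((k : ℝ) - ε) < S := by
  classical
  obtain ⟨C, hC, h⟩ := hyper_main r k hr hrk ε hε
  refine ⟨C, hC, ?_⟩
  intro n d S hn hd hcond Rc hRc hcor
  let _ := Rc.fin
  obtain ⟨eq⟩ : Nonempty (Rc.Ω ≃ Fin (Fintype.card Rc.Ω)) := ⟨Fintype.equivFin Rc.Ω⟩
  have hp1 : ∑ i, Rc.prob (eq.symm i) = 1 := by
    rw [← Rc.total]
    exact Equiv.sum_comp eq.symm Rc.prob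
  have hcirc : ∀ x b, (∑ ω, if (Rc.circ ω).eval x = b then Rc.prob ω else 0) =
      ∑ i, if (Rc.circ (eq.symm i)).eval x = b then Rc.prob (eq.symm i) else 0 := by
    intro x b
    exact (Equiv.sum_comp eq.symm (fun ω =>
      if (Rc.circ ω).eval x = b then Rc.prob ω else 0)).symm
  apply h n d 0 S hn hd (by simpa using hcond) (Game.arthur (Fintype.card Rc.Ω)
    (fun i => Rc.prob (eq.symm i)) (fun i => .verify (Rc.circ (eq.symm i))))
    ⟨fun i => Rc.nonneg _, hp1, fun i => ⟨(hRc _).1, (hRc _).2⟩⟩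
  refine Or.inr ⟨_, _, _, fun i => Rc.nonneg _, hp1, rfl, ?_, ?_⟩
  · intro x hx
    have h1 := hcor x
    unfold RandCircuit.Correct at h1
    rw [← hcirc]
    refine h1.trans (le_of_eq ?_)
    refine Finset.sum_congr rfl fun ω _ => ?_
    have : ∀ inst : Decidable (HasClique k x), @decide _ inst = false := fun inst =>
      @decide_eq_false _ inst hx
    rw [this]
  · intro x hx
    have h1 := hcor x
    unfold RandCircuit.Correct at h1
    rw [← hcirc]
    refine h1.trans (le_of_eq ?_)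
    refine Finset.sum_congr rfl fun ω _ => ?_
    have : ∀ inst : Decidable (HasClique k x), @decide _ inst = true := fun inst =>
      @decide_eq_true _ inst hx
    rw [this]

end H70.HP
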